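import Mathlib

/-!
# Ball representation of the Riesz kernel

`∫_{t>0} vol(B(x,t) ∩ B(y,t)) t^{-(n+s+1)} dt = C_s |x-y|^{-s}`.
-/

open MeasureTheory Set Metric ENNReal Filter Topology
open scoped Pointwise

set_option linter.style.haveILetI false

namespace RieszRatio

variable {n : ℕ}

/-- Euclidean space `ℝⁿ`. -/
abbrev E (n : ℕ) := EuclideanSpace ℝ (Fin n)

/-- volume of the intersection of two balls of the same radius -/
noncomputable def vv (t : ℝ) (x y : E n) : ℝ≥0∞ := volume (ball x t ∩ ball y t)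

lemma vv_self (t : ℝ) (x : E n) : vv t x x = volume (ball x t) := by
  simp [vv]

lemma vv_congr {x y x' y' : E n} (h : dist x y = dist x' y') (t : ℝ) : vv t x y = vv t x' y' := by
  have hn : ‖y - x‖ = ‖y' - x'‖ := by
    rw [← dist_eq_norm, ← dist_eq_norm, dist_comm y x, dist_comm y' x', h]
  set f : E n ≃ₗᵢ[ℝ] E n := (ℝ ∙ ((y - x) - (y' - x')))ᗮ.reflection with hf
  have hfy : f (y - x) = y' - x' := by
    rw [hf]; exact Submodule.reflection_sub hn
  -- the affine isometry
  have hmp : MeasurePreserving (fun z : E n => f (z - x) + x') volume volume := by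
    have h1 : MeasurePreserving (fun z : E n => z - x) volume volume :=
      measurePreserving_sub_right volume x
    have h2 : MeasurePreserving f volume volume := f.measurePreserving
    have h3 : MeasurePreserving (fun z : E n => z + x') volume volume :=
      measurePreserving_add_right volume x'
    exact h3.comp (h2.comp h1)
  have hpre : (fun z : E n => f (z - x) + x') ⁻¹' (ball x' t ∩ ball y' t) = ball x t ∩ ball y t := by
    ext z
    have e1 : dist (f (z - x) + x') x' = dist z x := by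
      rw [dist_eq_norm, add_sub_cancel_right, f.norm_map, dist_eq_norm]
    have e2 : dist (f (z - x) + x') y' = dist z y := by
      rw [dist_eq_norm]
      have : f (z - x) + x' - y' = f (z - x) - f (y - x) := by rw [hfy]; abel
      rw [this, ← map_sub, f.norm_map, dist_eq_norm]
      congr 1; abel
    simp only [mem_preimage, mem_inter_iff, mem_ball, e1, e2]
  unfold vv
  rw [← hpre, hmp.measure_preimage]
  exact (isOpen_ball.inter isOpen_ball).measurableSet.nullMeasurableSet

lemma vv_smul {c : ℝ} (hc : 0 < c) (t : ℝ) (x y : E n) :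
    vv (c * t) (c • x) (c • y) = ENNReal.ofReal (c ^ n) * vv t x y := by
  unfold vv
  have h1 : ball (c • x) (c * t) = c • ball x t := by
    rw [_root_.smul_ball hc.ne', Real.norm_of_nonneg hc.le]
  have h2 : ball (c • y) (c * t) = c • ball y t := by
    rw [_root_.smul_ball hc.ne', Real.norm_of_nonneg hc.le]
  rw [h1, h2, ← Set.smul_set_inter₀ hc.ne', Measure.addHaar_smul]
  simp [abs_of_pos (pow_pos hc n)]

lemma vv_le (t : ℝ) (x y : E n) : vv t x y ≤ volume (ball x t) := measure_mono inter_subset_left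

lemma vv_eq_zero {t : ℝ} {x y : E n} (h : 2 * t ≤ dist x y) : vv t x y = 0 := by
  have : ball x t ∩ ball y t = ∅ := by
    rw [← disjoint_iff_inter_eq_empty]
    apply ball_disjoint_ball
    linarith
  simp [vv, this]

lemma volume_ball_eq [NeZero n] (x : E n) {t : ℝ} (ht : 0 ≤ t) :
    volume (ball x t) = ENNReal.ofReal (t ^ n) * volume (ball (0 : E n) 1) := by
  haveI : Nontrivial (E n) := by
    haveI : Nonempty (Fin n) := ⟨⟨0, Nat.pos_of_ne_zero (NeZero.ne n)⟩⟩
    infer_instance
  rw [Measure.addHaar_ball volume x ht]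
  simp

/-- the radial weight measure -/
noncomputable def wt (n : ℕ) (s : ℝ) : Measure ℝ :=
  (volume.restrict (Ioi (0:ℝ))).withDensity (fun t => ENNReal.ofReal (t ^ (-((n:ℝ) + s + 1))))

instance (n : ℕ) (s : ℝ) : SFinite (wt n s) := by unfold wt; infer_instance

lemma lintegral_wt (s : ℝ) {f : ℝ → ℝ≥0∞} (hf : Measurable f) :
    ∫⁻ t, f t ∂(wt n s) = ∫⁻ t in Ioi (0:ℝ), ENNReal.ofReal (t ^ (-((n:ℝ) + s + 1))) * f t := by
  unfold wt
  rw [lintegral_withDensity_eq_lintegral_mul _ (by fun_prop) hf]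
  rfl


lemma measurable_vv (x y : E n) : Measurable (fun t => vv t x y) := by
  have : Monotone (fun t => vv t x y) := by
    intro a b hab
    exact measure_mono (inter_subset_inter (ball_subset_ball hab) (ball_subset_ball hab))
  exact this.measurable

/-- the radial integral -/
noncomputable def GG (s : ℝ) (x y : E n) : ℝ≥0∞ := ∫⁻ t, vv t x y ∂(wt n s)

lemma lintegral_scale {c : ℝ} (hc : 0 < c) {f : ℝ → ℝ≥0∞} (hf : Measurable f) :
    ∫⁻ t in Ioi (0:ℝ), f t = ENNReal.ofReal c * ∫⁻ u in Ioi (0:ℝ), f (c * u) := by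
  have h := Real.smul_map_volume_mul_left (a := c) hc.ne'
  have h1 : ∫⁻ t in Ioi (0:ℝ), f t = ∫⁻ t, (Ioi (0:ℝ)).indicator f t := by
    rw [lintegral_indicator measurableSet_Ioi]
  have h2 : ∫⁻ u in Ioi (0:ℝ), f (c * u) = ∫⁻ u, (Ioi (0:ℝ)).indicator f (c * u) := by
    rw [← lintegral_indicator measurableSet_Ioi]
    apply lintegral_congr
    intro u
    by_cases hu : 0 < u
    · rw [indicator_of_mem (by exact hu), indicator_of_mem (by exact mul_pos hc hu)]
    · rw [indicator_of_notMem (by exact hu), indicator_of_notMem]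
      simp only [mem_Ioi, not_lt] at hu ⊢
      exact mul_nonpos_of_nonneg_of_nonpos hc.le hu
  rw [h1, h2]
  conv_lhs => rw [← h]
  rw [lintegral_smul_measure, lintegral_map (hf.indicator measurableSet_Ioi) (by fun_prop),
    abs_of_pos hc]
  rfl

lemma GG_smul (s : ℝ) {c : ℝ} (hc : 0 < c) (x y : E n) :
    GG s (c • x) (c • y) = ENNReal.ofReal (c ^ (-s)) * GG s x y := by
  unfold GG
  rw [lintegral_wt s (measurable_vv _ _), lintegral_wt s (measurable_vv _ _),
    lintegral_scale hc (by
      exact (by fun_prop : Measurable fun t : ℝ => ENNReal.ofReal (t ^ (-((n:ℝ) + s + 1)))).mul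
        (measurable_vv _ _))]
  rw [← lintegral_const_mul' _ _ ENNReal.ofReal_ne_top, ← lintegral_const_mul' _ _ ENNReal.ofReal_ne_top]
  apply setLIntegral_congr_fun measurableSet_Ioi
  intro u hu
  have hu' : (0:ℝ) < u := hu
  simp only
  rw [vv_smul hc, Real.mul_rpow hc.le hu'.le, ENNReal.ofReal_mul (by positivity)]
  have : ENNReal.ofReal c * (ENNReal.ofReal (c ^ (-((n:ℝ) + s + 1))) * ENNReal.ofReal (c ^ n))
      = ENNReal.ofReal (c ^ (-s)) := by
    rw [← ENNReal.ofReal_mul (by positivity), ← ENNReal.ofReal_mul (by positivity)]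
    congr 1
    rw [← Real.rpow_natCast c n, ← Real.rpow_add hc]
    nth_rw 1 [← Real.rpow_one c]
    rw [← Real.rpow_add hc]
    congr 1; ring
  rw [← this]
  ring

lemma GG_congr {x y x' y' : E n} (h : dist x y = dist x' y') (s : ℝ) : GG s x y = GG s x' y' := by
  unfold GG
  exact lintegral_congr fun t => vv_congr h t

lemma GG_eq (s : ℝ) (e : E n) (he : ‖e‖ = 1) {x y : E n} (hxy : x ≠ y) :
    GG s x y = ENNReal.ofReal ((dist x y) ^ (-s)) * GG s e 0 := by
  have hd : 0 < dist x y := dist_pos.2 hxy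
  rw [← GG_smul s hd]
  apply GG_congr
  rw [smul_zero, dist_zero_right, norm_smul, he, mul_one, Real.norm_of_nonneg hd.le]

lemma wt_Ioo_ge (s : ℝ) (hs : 0 < s) {r : ℝ} (hr : 0 < r) :
    ENNReal.ofReal (r * (3 * r) ^ (-((n:ℝ) + s + 1))) ≤ wt n s (Ioo (2 * r) (3 * r)) := by
  unfold wt
  rw [withDensity_apply _ measurableSet_Ioo, Measure.restrict_restrict measurableSet_Ioo,
    inter_eq_left.2 (fun t ht => by have := ht.1; simp only [mem_Ioi]; linarith)]
  calc ENNReal.ofReal (r * (3 * r) ^ (-((n:ℝ) + s + 1)))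
      = ∫⁻ t in Ioo (2 * r) (3 * r), ENNReal.ofReal ((3 * r) ^ (-((n:ℝ) + s + 1))) := by
        rw [setLIntegral_const, Real.volume_Ioo, mul_comm r, ENNReal.ofReal_mul (by positivity)]
        congr 2; ring
    _ ≤ _ := by
        apply setLIntegral_mono' measurableSet_Ioo
        intro t ht
        apply ENNReal.ofReal_le_ofReal
        apply Real.rpow_le_rpow_of_nonpos (by linarith [ht.1]) ht.2.le
        have : (0:ℝ) ≤ n := Nat.cast_nonneg n
        linarith

lemma GG_unit_pos [NeZero n] (s : ℝ) (hs : 0 < s) (e : E n) (he : ‖e‖ = 1) : GG s e 0 ≠ 0 := by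
  have h1 : ∀ t ∈ Ioo (2 * (1:ℝ)) (3 * 1), volume (ball (0 : E n) 1) ≤ vv t e 0 := by
    intro t ht
    rw [← add_zero (0 : E n), ]
    apply measure_mono
    intro z hz
    have hz' : ‖z‖ < 1 := by simpa using hz
    have ht1 := ht.1
    constructor
    · rw [mem_ball, dist_eq_norm]
      calc ‖z - e‖ ≤ ‖z‖ + ‖e‖ := norm_sub_le _ _
        _ < t := by rw [he]; linarith
    · rw [mem_ball, dist_eq_norm]
      simp only [add_zero, sub_zero]
      linarith
  have h2 : volume (ball (0 : E n) 1) * wt n s (Ioo (2 * 1) (3 * 1)) ≤ GG s e 0 := by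
    unfold GG
    rw [← setLIntegral_const]
    calc _ ≤ ∫⁻ t in Ioo (2 * (1:ℝ)) (3 * 1), vv t e 0 ∂(wt n s) :=
          setLIntegral_mono' measurableSet_Ioo h1
      _ ≤ _ := setLIntegral_le_lintegral _ _
  intro h0
  rw [h0] at h2
  have h3 := wt_Ioo_ge (n := n) s hs one_pos
  have h4 : volume (ball (0 : E n) 1) ≠ 0 := (measure_ball_pos volume _ one_pos).ne'
  rcases mul_eq_zero.1 (le_antisymm h2 bot_le) with h | h
  · exact h4 h
  · rw [h] at h3
    have : (0:ℝ) < 1 * (3 * 1) ^ (-((n:ℝ) + s + 1)) := by positivity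
    rw [nonpos_iff_eq_zero, ENNReal.ofReal_eq_zero] at h3
    linarith

lemma GG_unit_le [NeZero n] (s : ℝ) (hs : 0 < s) (e : E n) (he : ‖e‖ = 1) :
    GG s e 0 ≤ ENNReal.ofReal (2 ^ s / s) * volume (ball (0 : E n) 1) := by
  unfold GG
  rw [lintegral_wt s (measurable_vv _ _)]
  have hint : IntegrableOn (fun t : ℝ => t ^ (-s - 1)) (Ioi (1/2:ℝ)) :=
    integrableOn_Ioi_rpow_of_lt (by linarith) (by norm_num)
  have hval : ∫⁻ t in Ioi (1/2:ℝ), ENNReal.ofReal (t ^ (-s - 1)) = ENNReal.ofReal (2 ^ s / s) := by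
    rw [← ofReal_integral_eq_lintegral_ofReal hint]
    · rw [integral_Ioi_rpow_of_lt (by linarith) (by norm_num)]
      congr 1
      have : (1/2:ℝ) ^ (-s - 1 + 1) = 2 ^ s := by
        rw [show (-s - 1 + 1 : ℝ) = -s by ring, one_div, Real.inv_rpow (by norm_num),
          Real.rpow_neg (by norm_num), inv_inv]
      rw [this]
      rw [show (-s - 1 + 1 : ℝ) = -s by ring, neg_div_neg_eq]
    · filter_upwards [ae_restrict_mem measurableSet_Ioi] with t ht
      have : (0:ℝ) < t := lt_trans (by norm_num) ht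
      positivity
  calc ∫⁻ t in Ioi (0:ℝ), ENNReal.ofReal (t ^ (-((n:ℝ) + s + 1))) * vv t e 0
      ≤ ∫⁻ t in Ioi (0:ℝ), (Ioi (1/2:ℝ)).indicator
          (fun t => ENNReal.ofReal (t ^ (-s - 1)) * volume (ball (0 : E n) 1)) t := by
        apply setLIntegral_mono' measurableSet_Ioi
        intro t ht
        have ht' : (0:ℝ) < t := ht
        by_cases h : 1/2 < t
        · rw [indicator_of_mem (by exact h)]
          calc _ ≤ ENNReal.ofReal (t ^ (-((n:ℝ) + s + 1))) * volume (ball e t) := by
                gcongr; exact vv_le _ _ _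
            _ = _ := by
                rw [volume_ball_eq e ht'.le, ← mul_assoc, ← ENNReal.ofReal_mul (by positivity)]
                congr 2
                rw [← Real.rpow_natCast t n, ← Real.rpow_add ht']
                congr 1; ring
        · rw [vv_eq_zero]
          · simp
          · rw [dist_zero_right, he]; linarith
    _ ≤ ∫⁻ t, (Ioi (1/2:ℝ)).indicator
          (fun t => ENNReal.ofReal (t ^ (-s - 1)) * volume (ball (0 : E n) 1)) t :=
        setLIntegral_le_lintegral _ _
    _ = ∫⁻ t in Ioi (1/2:ℝ), ENNReal.ofReal (t ^ (-s - 1)) * volume (ball (0 : E n) 1) := by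
        rw [lintegral_indicator measurableSet_Ioi]
    _ = _ := by
        rw [lintegral_mul_const _ (by fun_prop), hval]

end RieszRatio
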