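import Mathlib
import Pool.Agent.Lib.MP_ce24da_an.BallRep

/-!
# Energies and their representation through measures of balls
-/

open MeasureTheory Set Metric ENNReal Filter Topology
open scoped Pointwise

set_option linter.style.haveILetI false

namespace RieszRatio

variable {n : ℕ}

/-- mutual Riesz energy -/
noncomputable def En (s : ℝ) (μ ν : Measure (E n)) : ℝ≥0∞ :=
  ∫⁻ z, (edist z.1 z.2) ^ (-s) ∂(μ.prod ν)

lemma exists_unit [NeZero n] : ∃ e : E n, ‖e‖ = 1 := by
  haveI : Nontrivial (E n) := by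
    haveI : Nonempty (Fin n) := ⟨⟨0, Nat.pos_of_ne_zero (NeZero.ne n)⟩⟩
    infer_instance
  exact exists_norm_eq (E n) zero_le_one

/-- the constant in the ball representation -/
noncomputable def CC (n : ℕ) [NeZero n] (s : ℝ) : ℝ≥0∞ := GG s (exists_unit (n := n)).choose 0

lemma CC_ne_zero [NeZero n] {s : ℝ} (hs : 0 < s) : CC n s ≠ 0 :=
  GG_unit_pos s hs _ (exists_unit (n := n)).choose_spec

lemma CC_le [NeZero n] {s : ℝ} (hs : 0 < s) :
    CC n s ≤ ENNReal.ofReal (2 ^ s / s) * volume (ball (0 : E n) 1) :=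
  GG_unit_le s hs _ (exists_unit (n := n)).choose_spec

lemma CC_ne_top [NeZero n] {s : ℝ} (hs : 0 < s) : CC n s ≠ ∞ := by
  refine ne_top_of_le_ne_top ?_ (CC_le hs)
  exact ENNReal.mul_ne_top ENNReal.ofReal_ne_top measure_ball_lt_top.ne

lemma GG_kernel [NeZero n] {s : ℝ} (hs : 0 < s) (x y : E n) :
    GG s x y = CC n s * (edist x y) ^ (-s) := by
  by_cases hxy : x = y
  · subst hxy
    rw [edist_self, ENNReal.zero_rpow_of_neg (by linarith), ENNReal.mul_top (CC_ne_zero hs)]
    have h1 : GG s x x = ENNReal.ofReal ((2:ℝ) ^ (-s)) * GG s x x := by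
      nth_rw 2 [GG_congr (x := x) (y := x) (x' := (2:ℝ)⁻¹ • x) (y' := (2:ℝ)⁻¹ • x) (by simp)]
      rw [← GG_smul s (by norm_num : (0:ℝ) < 2)]
      simp
    have hpos : GG s x x ≠ 0 := by
      intro h0
      have h2 : GG s (exists_unit (n := n)).choose 0 ≤ GG s x x := by
        unfold GG
        apply lintegral_mono
        intro t
        calc vv t (exists_unit (n := n)).choose 0 ≤ volume (ball (exists_unit (n := n)).choose t) :=
              vv_le _ _ _
          _ = vv t (exists_unit (n := n)).choose (exists_unit (n := n)).choose := (vv_self _ _).symm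
          _ = vv t x x := vv_congr (by simp) t
      rw [h0] at h2
      exact CC_ne_zero hs (le_antisymm h2 bot_le)
    by_contra htop
    have h3 : ENNReal.ofReal ((2:ℝ) ^ (-s)) = 1 := by
      have h4 : ENNReal.ofReal ((2:ℝ) ^ (-s)) * GG s x x = 1 * GG s x x := by
        rw [one_mul]; exact h1.symm
      exact (ENNReal.mul_left_inj hpos htop).1 h4
    rw [ENNReal.ofReal_eq_one] at h3
    have h5 : (2:ℝ) ^ (-s) < 1 := Real.rpow_lt_one_of_one_lt_of_neg (by norm_num) (by linarith)
    linarith
  · rw [GG_eq s _ (exists_unit (n := n)).choose_spec hxy, mul_comm]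
    congr 1
    rw [edist_dist, ENNReal.ofReal_rpow_of_pos (dist_pos.2 hxy)]

/-- the measure on the space of balls -/
noncomputable def om (n : ℕ) (s : ℝ) : Measure (E n × ℝ) := (volume : Measure (E n)).prod (wt n s)

instance (n : ℕ) (s : ℝ) : SFinite (om n s) := by unfold om; infer_instance

lemma measurableSet_incidence : MeasurableSet {w : (E n × ℝ) × (E n) | dist w.2 w.1.1 < w.1.2} := by
  apply IsOpen.measurableSet
  apply isOpen_lt
  · fun_prop
  · fun_prop

lemma measurable_ball_measure (μ : Measure (E n)) [SFinite μ] :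
    Measurable (fun u : E n × ℝ => μ (ball u.1 u.2)) := by
  have h := measurable_measure_prodMk_left (ν := μ) (measurableSet_incidence (n := n))
  exact h

lemma om_incidence (s : ℝ) (x y : E n) :
    om n s {u : E n × ℝ | x ∈ ball u.1 u.2 ∧ y ∈ ball u.1 u.2} = GG s x y := by
  unfold om GG
  rw [Measure.prod_apply_symm]
  · apply lintegral_congr
    intro t
    unfold vv
    congr 1
    ext z
    simp only [mem_preimage, mem_ofPred_eq, mem_ball, mem_inter_iff]
    rw [dist_comm x z, dist_comm y z]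
  · apply IsOpen.measurableSet
    simp only [mem_ball]
    refine IsOpen.and ?_ ?_
    · exact isOpen_lt (by fun_prop) (by fun_prop)
    · exact isOpen_lt (by fun_prop) (by fun_prop)

theorem tform [NeZero n] {s : ℝ} (hs : 0 < s) (μ ν : Measure (E n)) [SFinite μ] [SFinite ν] :
    ∫⁻ u, μ (ball u.1 u.2) * ν (ball u.1 u.2) ∂(om n s) = CC n s * En s μ ν := by
  have hmeas : MeasurableSet {w : (E n × ℝ) × (E n × E n) |
      w.2.1 ∈ ball w.1.1 w.1.2 ∧ w.2.2 ∈ ball w.1.1 w.1.2} := by
    apply IsOpen.measurableSet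
    simp only [mem_ball]
    refine IsOpen.and ?_ ?_
    · exact isOpen_lt (by fun_prop) (by fun_prop)
    · exact isOpen_lt (by fun_prop) (by fun_prop)
  have h1 : ∀ u : E n × ℝ, μ (ball u.1 u.2) * ν (ball u.1 u.2) =
      (μ.prod ν) (Prod.mk u ⁻¹' {w : (E n × ℝ) × (E n × E n) |
      w.2.1 ∈ ball w.1.1 w.1.2 ∧ w.2.2 ∈ ball w.1.1 w.1.2}) := by
    intro u
    rw [← Measure.prod_prod]
    rfl
  simp_rw [h1]
  rw [← Measure.prod_apply hmeas, Measure.prod_apply_symm hmeas]
  unfold En
  rw [← lintegral_const_mul' _ _ (CC_ne_top hs)]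
  apply lintegral_congr
  intro z
  rw [← GG_kernel hs, ← om_incidence]
  rfl

end RieszRatio
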