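import Mathlib
import Pool.Agent.Lib.MP_ce24da_an.TForm

/-!
# Basic properties of Riesz energies
-/

open MeasureTheory Set Metric ENNReal Filter Topology
open scoped Pointwise NNReal

set_option linter.style.haveILetI false

namespace RieszRatio

variable {n : ℕ}

lemma measurable_kernel (s : ℝ) : Measurable (fun z : E n × E n => (edist z.1 z.2) ^ (-s)) := by
  fun_prop

lemma En_comm (s : ℝ) (μ ν : Measure (E n)) [SFinite μ] [SFinite ν] : En s μ ν = En s ν μ := by
  unfold En
  rw [← Measure.prod_swap, lintegral_map (measurable_kernel s) measurable_swap]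
  simp [edist_comm]

lemma En_add_left (s : ℝ) (μ μ' ν : Measure (E n)) [SFinite μ] [SFinite μ'] [SFinite ν] :
    En s (μ + μ') ν = En s μ ν + En s μ' ν := by
  unfold En
  rw [Measure.add_prod, lintegral_add_measure]

lemma En_add_right (s : ℝ) (μ ν ν' : Measure (E n)) [SFinite μ] [SFinite ν] [SFinite ν'] :
    En s μ (ν + ν') = En s μ ν + En s μ ν' := by
  unfold En
  rw [Measure.prod_add, lintegral_add_measure]

lemma En_smul_left (s : ℝ) (c : ℝ≥0∞) (μ ν : Measure (E n)) [SFinite μ] [SFinite ν] :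
    En s (c • μ) ν = c * En s μ ν := by
  unfold En
  rw [Measure.prod_smul_left, lintegral_smul_measure, smul_eq_mul]

lemma En_smul_right (s : ℝ) (c : ℝ≥0∞) (μ ν : Measure (E n)) [SFinite μ] [SFinite ν] :
    En s μ (c • ν) = c * En s μ ν := by
  rw [En_comm, En_smul_left, En_comm]

lemma En_mono (s : ℝ) {μ μ' ν ν' : Measure (E n)} [SFinite μ] [SFinite μ'] [SFinite ν] [SFinite ν']
    (h1 : μ ≤ μ') (h2 : ν ≤ ν') : En s μ ν ≤ En s μ' ν' := by
  unfold En
  exact lintegral_mono' (Measure.prod_mono h1 h2) le_rfl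

lemma quad1 [NeZero n] {s : ℝ} (hs : 0 < s) (μ ν : Measure (E n)) [IsFiniteMeasure μ]
    [IsFiniteMeasure ν] : 2 * En s μ ν ≤ En s μ μ + En s ν ν := by
  rw [← ENNReal.mul_le_mul_iff_right (CC_ne_zero (n := n) hs) (CC_ne_top hs)]
  rw [mul_add, ← tform hs, ← tform hs, mul_left_comm, ← tform hs]
  rw [← lintegral_const_mul' _ _ (by norm_num), ← lintegral_add_left (by
    exact (measurable_ball_measure μ).mul (measurable_ball_measure μ))]
  apply lintegral_mono
  intro u
  have ha : μ (ball u.1 u.2) ≠ ∞ := measure_ne_top _ _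
  have hb : ν (ball u.1 u.2) ≠ ∞ := measure_ne_top _ _
  simp only
  lift μ (ball u.1 u.2) to ℝ≥0 using ha with a
  lift ν (ball u.1 u.2) to ℝ≥0 using hb with b
  norm_cast
  rw [← NNReal.coe_le_coe]
  push_cast
  nlinarith [sq_nonneg ((a:ℝ) - b)]

lemma quad2 [NeZero n] {s : ℝ} (hs : 0 < s) (ν ν' β : Measure (E n)) [IsFiniteMeasure ν]
    [IsFiniteMeasure ν'] [IsFiniteMeasure β] (t : ℝ≥0) :
    2 * t * En s ν β + 2 * En s ν ν' ≤
      En s ν ν + En s ν' ν' + 2 * t * En s ν' β + t ^ 2 * En s β β := by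
  have m : ∀ (μ₁ μ₂ : Measure (E n)) [IsFiniteMeasure μ₁] [IsFiniteMeasure μ₂],
      Measurable (fun u : E n × ℝ => μ₁ (ball u.1 u.2) * μ₂ (ball u.1 u.2)) := fun μ₁ μ₂ _ _ =>
    (measurable_ball_measure μ₁).mul (measurable_ball_measure μ₂)
  rw [← ENNReal.mul_le_mul_iff_right (CC_ne_zero (n := n) hs) (CC_ne_top hs)]
  simp only [mul_add]
  have e1 : CC n s * (2 * t * En s ν β) = 2 * t * (CC n s * En s ν β) := by ring
  have e2 : CC n s * (2 * En s ν ν') = 2 * (CC n s * En s ν ν') := by ring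
  have e3 : CC n s * (2 * t * En s ν' β) = 2 * t * (CC n s * En s ν' β) := by ring
  have e4 : CC n s * (t ^ 2 * En s β β) = t ^ 2 * (CC n s * En s β β) := by ring
  rw [e1, e2, e3, e4, ← tform hs, ← tform hs, ← tform hs, ← tform hs, ← tform hs, ← tform hs]
  rw [← lintegral_const_mul _ (m _ _), ← lintegral_const_mul _ (m _ _),
    ← lintegral_const_mul _ (m _ _), ← lintegral_const_mul _ (m _ _),
    ← lintegral_add_right _ ((m _ _).const_mul _), ← lintegral_add_right _ (m _ _),
    ← lintegral_add_right _ ((m _ _).const_mul _),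
    ← lintegral_add_right _ ((m _ _).const_mul _)]
  apply lintegral_mono
  intro u
  have ha : ν (ball u.1 u.2) ≠ ∞ := measure_ne_top _ _
  have hb : ν' (ball u.1 u.2) ≠ ∞ := measure_ne_top _ _
  have hc : β (ball u.1 u.2) ≠ ∞ := measure_ne_top _ _
  simp only [Pi.add_apply]
  lift ν (ball u.1 u.2) to ℝ≥0 using ha with a
  lift ν' (ball u.1 u.2) to ℝ≥0 using hb with b
  lift β (ball u.1 u.2) to ℝ≥0 using hc with c
  norm_cast
  rw [← NNReal.coe_le_coe]
  push_cast
  nlinarith [sq_nonneg ((a:ℝ) - b - t * c)]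

/-- the constant in the mass growth estimate -/
noncomputable def cMG (n : ℕ) (s r : ℝ) : ℝ :=
  s * 2 ^ (-s) * 3 ^ (-((n:ℝ) + s + 1)) * r ^ (-s)

lemma MG [NeZero n] {s : ℝ} (hs : 0 < s) (ν ν' : Measure (E n)) [IsFiniteMeasure ν]
    [IsFiniteMeasure ν'] (x : E n) {r : ℝ} (hr : 0 < r) (h0 : ν' (ball x (4 * r)) = 0) :
    ENNReal.ofReal (cMG n s r) * ν (ball x r) ^ 2 + 2 * En s ν ν' ≤ En s ν ν + En s ν' ν' := by
  have m : ∀ (μ₁ μ₂ : Measure (E n)) [IsFiniteMeasure μ₁] [IsFiniteMeasure μ₂],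
      Measurable (fun u : E n × ℝ => μ₁ (ball u.1 u.2) * μ₂ (ball u.1 u.2)) := fun μ₁ μ₂ _ _ =>
    (measurable_ball_measure μ₁).mul (measurable_ball_measure μ₂)
  set Q : Set (E n × ℝ) := ball x r ×ˢ Ioo (2 * r) (3 * r) with hQ
  have hQm : MeasurableSet Q := measurableSet_ball.prod measurableSet_Ioo
  -- lower bound for the constant
  have hconst : CC n s * ENNReal.ofReal (cMG n s r) ≤ om n s Q := by
    have h1 : om n s Q = volume (ball x r) * wt n s (Ioo (2 * r) (3 * r)) := by
      rw [hQ]; unfold om; rw [Measure.prod_prod]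
    rw [h1, volume_ball_eq x hr.le]
    calc CC n s * ENNReal.ofReal (cMG n s r)
        ≤ (ENNReal.ofReal (2 ^ s / s) * volume (ball (0 : E n) 1)) * ENNReal.ofReal (cMG n s r) := by
          gcongr; exact CC_le hs
      _ = ENNReal.ofReal (r ^ n) * volume (ball (0 : E n) 1) *
          ENNReal.ofReal (r * (3 * r) ^ (-((n:ℝ) + s + 1))) := by
          have e : ENNReal.ofReal (2 ^ s / s) * ENNReal.ofReal (cMG n s r)
              = ENNReal.ofReal (r ^ n) * ENNReal.ofReal (r * (3 * r) ^ (-((n:ℝ) + s + 1))) := by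
            rw [← ENNReal.ofReal_mul (by positivity), ← ENNReal.ofReal_mul (by positivity)]
            congr 1
            unfold cMG
            have e1 : (2:ℝ) ^ s * 2 ^ (-s) = 1 := by
              rw [← Real.rpow_add (by norm_num)]; simp
            have e2 : (r:ℝ) ^ n * (r * (3 * r) ^ (-((n:ℝ) + s + 1)))
                = 3 ^ (-((n:ℝ) + s + 1)) * r ^ (-s) := by
              rw [Real.mul_rpow (by norm_num) hr.le]
              have : (r:ℝ) ^ n * (r * r ^ (-((n:ℝ) + s + 1))) = r ^ (-s) := by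
                rw [← Real.rpow_natCast r n]
                nth_rw 2 [← Real.rpow_one r]
                rw [← Real.rpow_add hr, ← Real.rpow_add hr]
                congr 1; ring
              calc _ = 3 ^ (-((n:ℝ) + s + 1)) * ((r:ℝ) ^ n * (r * r ^ (-((n:ℝ) + s + 1)))) := by ring
                _ = _ := by rw [this]
            rw [e2]
            calc (2:ℝ) ^ s / s * (s * 2 ^ (-s) * 3 ^ (-((n:ℝ) + s + 1)) * r ^ (-s))
                = (2 ^ s * 2 ^ (-s)) * (s / s) * (3 ^ (-((n:ℝ) + s + 1)) * r ^ (-s)) := by ring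
              _ = _ := by rw [e1, div_self hs.ne']; ring
          calc _ = volume (ball (0 : E n) 1) * (ENNReal.ofReal (2 ^ s / s) *
                ENNReal.ofReal (cMG n s r)) := by ring
            _ = _ := by rw [e]; ring
      _ ≤ _ := by gcongr; exact wt_Ioo_ge s hs hr
  rw [← ENNReal.mul_le_mul_iff_right (CC_ne_zero (n := n) hs) (CC_ne_top hs)]
  simp only [mul_add]
  have e2 : CC n s * (2 * En s ν ν') = 2 * (CC n s * En s ν ν') := by ring
  rw [e2, ← tform hs, ← tform hs, ← tform hs]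
  have step : CC n s * (ENNReal.ofReal (cMG n s r) * ν (ball x r) ^ 2) ≤
      ∫⁻ u, Q.indicator (fun _ => ν (ball x r) ^ 2) u ∂(om n s) := by
    rw [lintegral_indicator hQm, setLIntegral_const, ← mul_assoc, mul_comm (ν (ball x r) ^ 2)]
    gcongr
  refine (add_le_add_left step _).trans ?_
  rw [← lintegral_const_mul _ (m _ _), ← lintegral_add_left (measurable_const.indicator hQm),
    ← lintegral_add_left (m _ _)]
  apply lintegral_mono
  intro u
  simp only
  have ha : ν (ball u.1 u.2) ≠ ∞ := measure_ne_top _ _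
  have hb : ν' (ball u.1 u.2) ≠ ∞ := measure_ne_top _ _
  by_cases hu : u ∈ Q
  · rw [indicator_of_mem hu]
    have hu1 : dist u.1 x < r := hu.1
    have hu2 : 2 * r < u.2 := hu.2.1
    have hu3 : u.2 < 3 * r := hu.2.2
    have h1 : ν' (ball u.1 u.2) = 0 := by
      refine measure_mono_null ?_ h0
      apply ball_subset_ball'
      linarith
    have h2 : ν (ball x r) ≤ ν (ball u.1 u.2) := by
      apply measure_mono
      apply ball_subset_ball'
      rw [dist_comm]
      linarith
    rw [h1]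
    simp only [mul_zero, add_zero]
    rw [sq]
    gcongr
  · rw [indicator_of_notMem hu]
    lift ν (ball u.1 u.2) to ℝ≥0 using ha with a
    lift ν' (ball u.1 u.2) to ℝ≥0 using hb with b
    rw [zero_add]
    norm_cast
    rw [← NNReal.coe_le_coe]
    push_cast
    nlinarith [sq_nonneg ((a:ℝ) - b)]

end RieszRatio
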