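import Mathlib
import Pool.Agent.Lib.MP_ce24da_an.Energy

/-!
# Potentials of measures of polynomial growth
-/

open MeasureTheory Set Metric ENNReal Filter Topology
open scoped Pointwise NNReal

set_option linter.style.haveILetI false

namespace RieszRatio

variable {n : ℕ}

/-- constant in the near-potential bound -/
noncomputable def cN (s β : ℝ) : ℝ := 2 ^ s / (1 - 2 ^ (-(β - s)))

lemma cN_pos {s β : ℝ} (hβ : s < β) : 0 < cN s β := by
  unfold cN
  have : (2:ℝ) ^ (-(β - s)) < 1 :=
    Real.rpow_lt_one_of_one_lt_of_neg (by norm_num) (by linarith)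
  have h2 : 0 < 1 - (2:ℝ) ^ (-(β - s)) := by linarith
  positivity

lemma near_bound {μ : Measure (E n)} {x : E n} {s β C r : ℝ} (hs : 0 < s) (hβ : s < β)
    (hC : 0 ≤ C) (hr : 0 < r)
    (hg : ∀ t, 0 < t → t ≤ r → μ (closedBall x t) ≤ ENNReal.ofReal (C * t ^ β)) :
    ∫⁻ y in closedBall x r, (edist x y) ^ (-s) ∂μ ≤
      ENNReal.ofReal (C * cN s β * r ^ (β - s)) := by
  set A : ℕ → Set (E n) := fun k => closedBall x (r / 2 ^ k) \ closedBall x (r / 2 ^ (k + 1)) with hA
  have hcover : closedBall x r ⊆ {x} ∪ ⋃ k, A k := by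
    intro y hy
    by_cases hxy : y = x
    · left; exact hxy
    right
    have hd : 0 < dist y x := dist_pos.2 hxy
    have hlim : Tendsto (fun k : ℕ => r / 2 ^ k) atTop (𝓝 0) := by
      have := (tendsto_pow_atTop_nhds_zero_of_lt_one (r := (1/2:ℝ)) (by norm_num)
        (by norm_num)).const_mul r
      simpa [div_eq_mul_inv] using this
    have hex : ∃ k : ℕ, r / 2 ^ k < dist y x := by
      exact (hlim.eventually_lt_const hd).exists
    classical
    set k := Nat.find hex with hk
    have hk1 : r / 2 ^ k < dist y x := Nat.find_spec hex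
    have hk0 : k ≠ 0 := by
      intro h
      rw [h] at hk1
      have : dist y x ≤ r := hy
      simp only [pow_zero, div_one] at hk1
      linarith
    obtain ⟨j, hj⟩ := Nat.exists_eq_succ_of_ne_zero hk0
    rw [mem_iUnion]
    refine ⟨j, ?_, ?_⟩
    · have := Nat.find_min hex (m := j) (by omega)
      rw [not_lt] at this
      exact this
    · simp only [mem_closedBall, not_le]
      rw [hj] at hk1
      exact hk1
  have hx0 : μ {x} = 0 := by
    by_contra hne
    have hpos : 0 < μ {x} := pos_iff_ne_zero.2 hne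
    have hlim : Tendsto (fun t : ℝ => ENNReal.ofReal (C * t ^ β)) (𝓝[>] 0) (𝓝 0) := by
      have h1 : Tendsto (fun t : ℝ => C * t ^ β) (𝓝[>] 0) (𝓝 (C * 0 ^ β)) := by
        refine Filter.Tendsto.const_mul _ ?_
        exact ((Real.continuousAt_rpow_const 0 β (Or.inr (by linarith))).tendsto).mono_left
          nhdsWithin_le_nhds
      rw [Real.zero_rpow (by linarith), mul_zero] at h1
      have := ENNReal.tendsto_ofReal h1
      simpa using this
    have h2 : ∀ᶠ t in 𝓝[>] (0:ℝ), μ {x} ≤ ENNReal.ofReal (C * t ^ β) := by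
      filter_upwards [Ioo_mem_nhdsGT hr] with t ht
      refine (measure_mono ?_).trans (hg t ht.1 ht.2.le)
      simpa using ht.1.le
    exact absurd (ge_of_tendsto hlim h2) (not_le.2 hpos)
  calc ∫⁻ y in closedBall x r, (edist x y) ^ (-s) ∂μ
      ≤ ∫⁻ y in {x} ∪ ⋃ k, A k, (edist x y) ^ (-s) ∂μ := lintegral_mono_set hcover
    _ ≤ ∫⁻ y in {x}, (edist x y) ^ (-s) ∂μ + ∫⁻ y in ⋃ k, A k, (edist x y) ^ (-s) ∂μ :=
        lintegral_union_le _ _ _
    _ = ∫⁻ y in ⋃ k, A k, (edist x y) ^ (-s) ∂μ := by
        rw [setLIntegral_measure_zero _ _ hx0, zero_add]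
    _ ≤ ∑' k, ∫⁻ y in A k, (edist x y) ^ (-s) ∂μ := lintegral_iUnion_le _ _
    _ ≤ ∑' k, ENNReal.ofReal (C * (r / 2 ^ k) ^ β * (r / 2 ^ (k + 1)) ^ (-s)) := by
        apply ENNReal.tsum_le_tsum
        intro k
        have hrk : 0 < r / 2 ^ (k + 1) := by positivity
        calc ∫⁻ y in A k, (edist x y) ^ (-s) ∂μ
            ≤ ∫⁻ y in A k, ENNReal.ofReal ((r / 2 ^ (k + 1)) ^ (-s)) ∂μ := by
              apply setLIntegral_mono' (measurableSet_closedBall.diff measurableSet_closedBall)
              intro y hy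
              have h1 : r / 2 ^ (k + 1) < dist y x := by
                have := hy.2
                simpa using this
              rw [edist_dist, ENNReal.ofReal_rpow_of_pos (by rw [dist_comm]; linarith)]
              apply ENNReal.ofReal_le_ofReal
              apply Real.rpow_le_rpow_of_nonpos hrk (by rw [dist_comm]; exact h1.le) (by linarith)
          _ = ENNReal.ofReal ((r / 2 ^ (k + 1)) ^ (-s)) * μ (A k) := by
              rw [setLIntegral_const]
          _ ≤ ENNReal.ofReal ((r / 2 ^ (k + 1)) ^ (-s)) * ENNReal.ofReal (C * (r / 2 ^ k) ^ β) := by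
              gcongr
              refine (measure_mono sdiff_subset).trans (hg _ (by positivity) ?_)
              apply div_le_self hr.le
              exact one_le_pow₀ (by norm_num)
          _ = _ := by
              rw [← ENNReal.ofReal_mul (by positivity), mul_comm]
    _ = ∑' k : ℕ, ENNReal.ofReal (C * 2 ^ s * r ^ (β - s) * ((2:ℝ) ^ (-(β - s))) ^ k) := by
        apply tsum_congr
        intro k
        congr 1
        have h2k : (2:ℝ) ^ k = (2:ℝ) ^ (k:ℝ) := (Real.rpow_natCast 2 k).symm
        have h2k1 : (2:ℝ) ^ (k + 1) = (2:ℝ) ^ ((k:ℝ) + 1) := by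
          rw [← Real.rpow_natCast]; push_cast; rfl
        rw [h2k, h2k1, Real.div_rpow hr.le (by positivity), Real.div_rpow hr.le (by positivity),
          ← Real.rpow_mul (by norm_num), ← Real.rpow_mul (by norm_num), ← Real.rpow_natCast,
          ← Real.rpow_mul (by norm_num)]
        rw [div_eq_mul_inv, div_eq_mul_inv, ← Real.rpow_neg (by norm_num),
          ← Real.rpow_neg (by norm_num), Real.rpow_sub hr, Real.rpow_neg hr.le s]
        have e : (2:ℝ) ^ (-((k:ℝ) * β)) * 2 ^ (-(((k:ℝ) + 1) * -s)) =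
            2 ^ s * 2 ^ (-(β - s) * (k:ℝ)) := by
          rw [← Real.rpow_add (by norm_num), ← Real.rpow_add (by norm_num)]
          congr 1; ring
        calc C * (r ^ β * (2:ℝ) ^ (-((k:ℝ) * β))) * ((r ^ s)⁻¹ * 2 ^ (-(((k:ℝ) + 1) * -s)))
            = C * (r ^ β * (r ^ s)⁻¹) * ((2:ℝ) ^ (-((k:ℝ) * β)) * 2 ^ (-(((k:ℝ) + 1) * -s))) := by
              ring
          _ = _ := by rw [e]; ring
    _ = ENNReal.ofReal (∑' k : ℕ, C * 2 ^ s * r ^ (β - s) * ((2:ℝ) ^ (-(β - s))) ^ k) := by
        rw [ENNReal.ofReal_tsum_of_nonneg]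
        · intro k; positivity
        · apply Summable.mul_left
          apply summable_geometric_of_lt_one (by positivity)
          exact Real.rpow_lt_one_of_one_lt_of_neg (by norm_num) (by linarith)
    _ = _ := by
        rw [tsum_mul_left, tsum_geometric_of_lt_one (by positivity)
          (Real.rpow_lt_one_of_one_lt_of_neg (by norm_num) (by linarith))]
        congr 1
        unfold cN
        ring

end RieszRatio
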