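import Mathlib
import Pool.Agent.Lib.MP_ce24da_an.Growth

/-!
# Weak convergence of probability measures and truncated kernels
-/

open MeasureTheory Set Metric ENNReal Filter Topology
open scoped Pointwise NNReal BoundedContinuousFunction

set_option linter.style.haveILetI false

namespace RieszRatio

variable {n : ℕ}

/-- truncated Riesz kernel -/
noncomputable def kt (s r : ℝ) (z : E n × E n) : ℝ≥0 :=
  Real.toNNReal ((max (dist z.1 z.2) r) ^ (-s))

lemma kt_continuous (s : ℝ) {r : ℝ} (hr : 0 < r) : Continuous (kt s r : E n × E n → ℝ≥0) := by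
  unfold kt
  refine continuous_real_toNNReal.comp ?_
  refine Continuous.rpow_const (by fun_prop) ?_
  intro z
  left
  exact (lt_of_lt_of_le hr (le_max_right _ _)).ne'

lemma kt_bound {s : ℝ} (hs : 0 < s) {r : ℝ} (hr : 0 < r) (z : E n × E n) :
    kt s r z ≤ Real.toNNReal (r ^ (-s)) := by
  unfold kt
  apply Real.toNNReal_le_toNNReal
  exact Real.rpow_le_rpow_of_nonpos hr (le_max_right _ _) (by linarith)

/-- truncated kernel as a bounded continuous function -/
noncomputable def ktB {s : ℝ} (hs : 0 < s) {r : ℝ} (hr : 0 < r) : (E n × E n) →ᵇ ℝ≥0 :=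
  BoundedContinuousFunction.mkOfBound ⟨kt s r, kt_continuous s hr⟩ (Real.toNNReal (r ^ (-s))) (by
    intro x y
    have h1 := kt_bound hs hr x
    have h2 := kt_bound hs hr y
    rw [NNReal.dist_eq]
    have h1' : ((kt s r x : ℝ≥0) : ℝ) ≤ Real.toNNReal (r ^ (-s)) := by exact_mod_cast h1
    have h2' : ((kt s r y : ℝ≥0) : ℝ) ≤ Real.toNNReal (r ^ (-s)) := by exact_mod_cast h2
    rw [abs_le]
    constructor
    · have := (kt s r x).coe_nonneg
      change -_ ≤ ((kt s r x : ℝ≥0) : ℝ) - (kt s r y : ℝ≥0)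
      linarith
    · have := (kt s r y).coe_nonneg
      change ((kt s r x : ℝ≥0) : ℝ) - (kt s r y : ℝ≥0) ≤ _
      linarith)

@[simp] lemma ktB_apply {s : ℝ} (hs : 0 < s) {r : ℝ} (hr : 0 < r) (z : E n × E n) :
    ktB hs hr z = kt s r z := rfl

lemma kt_le_kernel {s : ℝ} (hs : 0 < s) {r : ℝ} (hr : 0 < r) (z : E n × E n) :
    (kt s r z : ℝ≥0∞) ≤ (edist z.1 z.2) ^ (-s) := by
  by_cases h : dist z.1 z.2 = 0
  · rw [edist_dist, h, ENNReal.ofReal_zero, ENNReal.zero_rpow_of_neg (by linarith)]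
    exact le_top
  · have hd : 0 < dist z.1 z.2 := lt_of_le_of_ne dist_nonneg (Ne.symm h)
    rw [edist_dist, ENNReal.ofReal_rpow_of_pos hd]
    unfold kt
    apply ENNReal.ofReal_le_ofReal
    exact Real.rpow_le_rpow_of_nonpos hd (le_max_left _ _) (by linarith)

lemma kt_eq_kernel {s : ℝ} {r : ℝ} (hr : 0 < r) (z : E n × E n)
    (hz : r ≤ dist z.1 z.2) : (kt s r z : ℝ≥0∞) = (edist z.1 z.2) ^ (-s) := by
  have hd : 0 < dist z.1 z.2 := lt_of_lt_of_le hr hz
  rw [edist_dist, ENNReal.ofReal_rpow_of_pos hd]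
  unfold kt
  rw [max_eq_left hz]
  rfl

lemma kt_anti {s : ℝ} (hs : 0 < s) {r r' : ℝ} (hr : 0 < r) (h : r ≤ r') (z : E n × E n) :
    kt s r' z ≤ kt s r z := by
  unfold kt
  apply Real.toNNReal_le_toNNReal
  apply Real.rpow_le_rpow_of_nonpos (lt_of_lt_of_le hr (le_max_right _ _)) _ (by linarith)
  exact max_le_max le_rfl h

lemma iSup_kt {s : ℝ} (hs : 0 < s) (z : E n × E n) :
    ⨆ m : ℕ, (kt s (1 / ((m:ℝ) + 1)) z : ℝ≥0∞) = (edist z.1 z.2) ^ (-s) := by
  apply le_antisymm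
  · exact iSup_le fun m => kt_le_kernel hs (by positivity) z
  · by_cases h : dist z.1 z.2 = 0
    · have h1 : ∀ m : ℕ, ((m:ℝ≥0∞)) ^ s ≤ (kt s (1 / ((m:ℝ) + 1)) z : ℝ≥0∞) := by
        intro m
        unfold kt
        rw [h, max_eq_right (by positivity)]
        change _ ≤ ENNReal.ofReal _
        rw [one_div, Real.inv_rpow (by positivity), Real.rpow_neg (by positivity), inv_inv,
          ← ENNReal.ofReal_rpow_of_pos (by positivity)]
        apply ENNReal.rpow_le_rpow _ hs.le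
        rw [← ENNReal.ofReal_natCast]
        apply ENNReal.ofReal_le_ofReal
        linarith
      rw [edist_dist, h, ENNReal.ofReal_zero, ENNReal.zero_rpow_of_neg (by linarith)]
      rw [top_le_iff, iSup_eq_top]
      intro b hb
      obtain ⟨m, hm⟩ := ENNReal.exists_nat_gt (r := b ^ (1 / s)) (by
        exact ENNReal.rpow_ne_top_of_nonneg (by positivity) hb.ne)
      refine ⟨m, lt_of_lt_of_le ?_ (h1 m)⟩
      have := ENNReal.rpow_lt_rpow hm hs
      rwa [← ENNReal.rpow_mul, one_div, inv_mul_cancel₀ hs.ne', ENNReal.rpow_one] at this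
    · have hd : 0 < dist z.1 z.2 := lt_of_le_of_ne dist_nonneg (Ne.symm h)
      obtain ⟨m, hm⟩ := exists_nat_one_div_lt hd
      rw [← kt_eq_kernel (r := 1 / ((m:ℝ) + 1)) (by positivity) z hm.le]
      exact le_iSup (fun m : ℕ => (kt s (1 / ((m:ℝ) + 1)) z : ℝ≥0∞)) m

lemma measurable_kt (s : ℝ) {r : ℝ} (hr : 0 < r) :
    Measurable (fun z : E n × E n => (kt s r z : ℝ≥0∞)) :=
  (kt_continuous s hr).measurable.coe_nnreal_ennreal

lemma En_eq_iSup {s : ℝ} (hs : 0 < s) (μ ν : Measure (E n)) :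
    En s μ ν = ⨆ m : ℕ, ∫⁻ z, (kt s (1 / ((m:ℝ) + 1)) z : ℝ≥0∞) ∂(μ.prod ν) := by
  unfold En
  rw [← lintegral_iSup]
  · simp_rw [iSup_kt hs]
  · intro m; exact measurable_kt s (by positivity)
  · intro a b hab z
    simp only
    norm_cast
    apply kt_anti hs (by positivity)
    exact one_div_le_one_div_of_le (by positivity) (by exact_mod_cast Nat.succ_le_succ hab)

/-- lower semicontinuity of the energy -/
lemma En_le_of_tendsto {s : ℝ} (hs : 0 < s) {μ ν : ℕ → ProbabilityMeasure (E n)}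
    {μ' ν' : ProbabilityMeasure (E n)} (hμ : Tendsto μ atTop (𝓝 μ')) (hν : Tendsto ν atTop (𝓝 ν'))
    {c : ℝ≥0∞} (h : ∀ᶠ j in atTop, En s (μ j : Measure (E n)) (ν j) ≤ c) :
    En s (μ' : Measure (E n)) ν' ≤ c := by
  rw [En_eq_iSup hs]
  apply iSup_le
  intro m
  have hr : (0:ℝ) < 1 / ((m:ℝ) + 1) := by positivity
  have hprod : Tendsto (fun j => (μ j).prod (ν j)) atTop (𝓝 (μ'.prod ν')) :=
    (ProbabilityMeasure.continuous_prod.tendsto (μ', ν')).comp (hμ.prodMk_nhds hν)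
  have h1 := (ProbabilityMeasure.tendsto_iff_forall_lintegral_tendsto.1 hprod) (ktB hs hr)
  apply le_of_tendsto h1
  filter_upwards [h] with j hj
  refine le_trans ?_ hj
  unfold En
  apply lintegral_mono
  intro z
  exact kt_le_kernel hs hr z

lemma null_compl_of_tendsto {μ : ℕ → ProbabilityMeasure (E n)} {μ' : ProbabilityMeasure (E n)}
    (hμ : Tendsto μ atTop (𝓝 μ')) {K : Set (E n)} (hK : IsClosed K)
    (h : ∀ᶠ j in atTop, (μ j : Measure (E n)) Kᶜ = 0) : (μ' : Measure (E n)) Kᶜ = 0 := by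
  have h1 := ProbabilityMeasure.le_liminf_measure_open_of_tendsto hμ hK.isOpen_compl
  have h2 : liminf (fun j => (μ j : Measure (E n)) Kᶜ) atTop = 0 := by
    rw [liminf_congr h]
    simp
  rw [h2] at h1
  exact le_antisymm h1 bot_le

lemma exists_subseq_of_tight (μ : ℕ → ProbabilityMeasure (E n))
    (h : ∀ ε : ℝ≥0, 0 < ε → ∃ R : ℝ, ∀ j, (μ j : Measure (E n)) (closedBall 0 R)ᶜ ≤ ε) :
    ∃ (ν : ProbabilityMeasure (E n)) (φ : ℕ → ℕ), StrictMono φ ∧ Tendsto (μ ∘ φ) atTop (𝓝 ν) := by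
  have h' : ∀ k : ℕ, ∃ R : ℝ, ∀ j, (μ j : Measure (E n)) (closedBall 0 R)ᶜ ≤ (1 / ((k:ℝ≥0) + 1) : ℝ≥0) :=
    fun k => h _ (by positivity)
  choose R hR using h'
  have hcomp := isCompact_setOfPred_probabilityMeasure_mass_eq_compl_isCompact_le
    (E := E n) (u := fun k : ℕ => 1 / ((k:ℝ≥0) + 1)) (K := fun k => closedBall 0 (R k))
    (by exact tendsto_one_div_add_atTop_nhds_zero_nat) (fun k => isCompact_closedBall _ _)
    (Or.inl inferInstance)
  have hmem : ∀ j, μ j ∈ {μ : ProbabilityMeasure (E n) |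
      ∀ k : ℕ, μ (closedBall 0 (R k))ᶜ ≤ 1 / ((k:ℝ≥0) + 1)} := by
    intro j k
    have := hR k j
    rw [← ENNReal.coe_le_coe]
    simpa using this
  obtain ⟨ν, -, φ, hφ, hlim⟩ := hcomp.tendsto_subseq hmem
  exact ⟨ν, φ, hφ, hlim⟩

end RieszRatio
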