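import Mathlib
import Pool.Agent.Lib.MP_ce24da_an.Weak

/-!
# Equilibrium measures
-/

open MeasureTheory Set Metric ENNReal Filter Topology
open scoped Pointwise NNReal BoundedContinuousFunction

set_option linter.style.haveILetI false

namespace RieszRatio

variable {n : ℕ}

lemma rpow_neg_anti {s : ℝ} (hs : 0 ≤ s) {a b : ℝ≥0∞} (h : a ≤ b) : b ^ (-s) ≤ a ^ (-s) := by
  rw [ENNReal.rpow_neg, ENNReal.rpow_neg]
  exact ENNReal.inv_le_inv.2 (ENNReal.rpow_le_rpow h hs)

/-- Borel probability measures carried by `K` -/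
def PP (K : Set (E n)) : Set (Measure (E n)) := {μ | IsProbabilityMeasure μ ∧ μ Kᶜ = 0}

/-- the least Riesz energy of a probability measure carried by `K` -/
noncomputable def VV (s : ℝ) (K : Set (E n)) : ℝ≥0∞ := ⨅ μ ∈ PP K, En s μ μ

lemma VV_le {s : ℝ} {K : Set (E n)} {μ : Measure (E n)} (h : μ ∈ PP K) : VV s K ≤ En s μ μ :=
  iInf₂_le μ h

lemma PP_mono {K K' : Set (E n)} (h : K ⊆ K') : PP K ⊆ PP K' := fun _ hμ =>
  ⟨hμ.1, measure_mono_null (compl_subset_compl.2 h) hμ.2⟩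

lemma VV_anti {s : ℝ} {K K' : Set (E n)} (h : K ⊆ K') : VV s K' ≤ VV s K :=
  biInf_mono (PP_mono h)

lemma En_comb (s : ℝ) (a b : ℝ≥0∞) (μ σ : Measure (E n)) [SFinite μ] [SFinite σ] :
    En s (a • μ + b • σ) (a • μ + b • σ) =
      a ^ 2 * En s μ μ + 2 * (a * b) * En s μ σ + b ^ 2 * En s σ σ := by
  rw [En_add_left, En_add_right, En_add_right, En_smul_left, En_smul_left, En_smul_left,
    En_smul_left, En_smul_right, En_smul_right, En_smul_right, En_smul_right, En_comm s σ μ]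
  ring

lemma comb_mem_PP {K : Set (E n)} {μ σ : Measure (E n)} (hμ : μ ∈ PP K) (hσ : σ ∈ PP K)
    {a b : ℝ≥0∞} (hab : a + b = 1) : a • μ + b • σ ∈ PP K := by
  obtain ⟨h1, h2⟩ := hμ
  obtain ⟨h3, h4⟩ := hσ
  refine ⟨⟨?_⟩, ?_⟩
  · simp [hab]
  · simp [h2, h4]

lemma En_ne_top_of_ne_top [NeZero n] {s : ℝ} (hs : 0 < s) {μ ν : Measure (E n)} [IsFiniteMeasure μ]
    [IsFiniteMeasure ν] (h1 : En s μ μ ≠ ∞) (h2 : En s ν ν ≠ ∞) : En s μ ν ≠ ∞ := by
  have h := quad1 hs μ ν
  have h3 : 2 * En s μ ν ≠ ∞ := ne_top_of_le_ne_top (ENNReal.add_ne_top.2 ⟨h1, h2⟩) h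
  intro h4
  rw [h4] at h3
  exact h3 (ENNReal.mul_top (by norm_num))

/-- existence of an equilibrium measure -/
lemma exists_equil {s : ℝ} (hs : 0 < s) {K : Set (E n)} (hK : IsCompact K) (hne : K.Nonempty) :
    ∃ μ ∈ PP K, En s μ μ = VV s K := by
  have hPne : (PP K).Nonempty := by
    obtain ⟨x, hx⟩ := hne
    refine ⟨Measure.dirac x, inferInstance, ?_⟩
    rw [Measure.dirac_apply' _ hK.measurableSet.compl]
    simp [hx]
  obtain ⟨μ₀, hμ₀⟩ := hPne
  by_cases htop : VV s K = ∞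
  · exact ⟨μ₀, hμ₀, le_antisymm (by rw [htop]; exact le_top) (VV_le hμ₀)⟩
  have h1 : ∀ j : ℕ, ∃ μ ∈ PP K, En s μ μ < VV s K + ((j:ℝ≥0∞) + 1)⁻¹ := by
    intro j
    have : VV s K < VV s K + ((j:ℝ≥0∞) + 1)⁻¹ := by
      apply ENNReal.lt_add_right htop
      simp
    unfold VV at this
    rw [iInf_lt_iff] at this
    obtain ⟨μ, hμ⟩ := this
    rw [iInf_lt_iff] at hμ
    obtain ⟨h2, h3⟩ := hμ
    exact ⟨μ, h2, h3⟩
  choose μ hμP hμE using h1
  let P : ℕ → ProbabilityMeasure (E n) := fun j => ⟨μ j, (hμP j).1⟩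
  obtain ⟨R, hR⟩ : ∃ R : ℝ, K ⊆ closedBall 0 R := hK.isBounded.subset_closedBall 0
  obtain ⟨ν, φ, hφ, hlim⟩ := exists_subseq_of_tight P (by
    intro ε _
    refine ⟨R, fun j => ?_⟩
    have : (P j : Measure (E n)) (closedBall 0 R)ᶜ = 0 :=
      measure_mono_null (compl_subset_compl.2 hR) (hμP j).2
    rw [this]
    exact bot_le)
  have hνP : (ν : Measure (E n)) ∈ PP K := by
    refine ⟨inferInstance, ?_⟩
    exact null_compl_of_tendsto hlim hK.isClosed (Eventually.of_forall fun j => (hμP (φ j)).2)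
  refine ⟨ν, hνP, le_antisymm ?_ (VV_le hνP)⟩
  apply le_of_forall_gt_imp_ge_of_dense
  intro c hc
  apply En_le_of_tendsto hs hlim hlim
  have hc' : ∀ᶠ j : ℕ in atTop, VV s K + ((j:ℝ≥0∞) + 1)⁻¹ ≤ c := by
    have ht : Tendsto (fun j : ℕ => VV s K + ((j:ℝ≥0∞) + 1)⁻¹) atTop (𝓝 (VV s K + 0)) := by
      apply Tendsto.add tendsto_const_nhds
      have h0 := ENNReal.tendsto_inv_nat_nhds_zero
      have h1 := h0.comp (tendsto_add_atTop_nat 1)
      refine h1.congr fun j => ?_
      simp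
    rw [add_zero] at ht
    exact (ht.eventually_lt_const hc).mono fun j hj => hj.le
  filter_upwards [hφ.tendsto_atTop.eventually hc'] with j hj
  exact ((hμE (φ j)).le).trans hj

/-- variational inequality for the equilibrium measure -/
lemma variation [NeZero n] {s : ℝ} (hs : 0 < s) {K : Set (E n)} {μ σ : Measure (E n)}
    (hμ : μ ∈ PP K) (hE : En s μ μ = VV s K) (hfin : VV s K ≠ ∞) (hσ : σ ∈ PP K)
    (hσE : En s σ σ ≠ ∞) : VV s K ≤ En s μ σ := by
  haveI := hμ.1
  haveI := hσ.1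
  have hmu : En s μ μ ≠ ∞ := by rw [hE]; exact hfin
  have hms : En s μ σ ≠ ∞ := En_ne_top_of_ne_top hs hmu hσE
  set V := (VV s K).toReal with hV
  set a := (En s μ σ).toReal with ha
  set b := (En s σ σ).toReal with hb
  have key : ∀ t : ℝ, 0 < t → t < 1 → V ≤ (1 - t) ^ 2 * V + 2 * ((1 - t) * t) * a + t ^ 2 * b := by
    intro t ht0 ht1
    have h1 := VV_le (s := s) (comb_mem_PP hμ hσ (a := ENNReal.ofReal (1 - t)) (b := ENNReal.ofReal t)
      (by rw [← ENNReal.ofReal_add (by linarith) ht0.le]; simp))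
    rw [En_comb, hE] at h1
    have h2 := ENNReal.toReal_mono (by
      refine ENNReal.add_ne_top.2 ⟨ENNReal.add_ne_top.2 ⟨?_, ?_⟩, ?_⟩
      · exact ENNReal.mul_ne_top (by simp) hfin
      · exact ENNReal.mul_ne_top (ENNReal.mul_ne_top (by simp)
          (ENNReal.mul_ne_top (by simp) (by simp))) hms
      · exact ENNReal.mul_ne_top (by simp) hσE) h1
    rw [ENNReal.toReal_add (ENNReal.add_ne_top.2 ⟨ENNReal.mul_ne_top (by simp) hfin,
        ENNReal.mul_ne_top (ENNReal.mul_ne_top (by simp)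
          (ENNReal.mul_ne_top (by simp) (by simp))) hms⟩) (ENNReal.mul_ne_top (by simp) hσE),
      ENNReal.toReal_add (ENNReal.mul_ne_top (by simp) hfin)
        (ENNReal.mul_ne_top (ENNReal.mul_ne_top (by simp)
          (ENNReal.mul_ne_top (by simp) (by simp))) hms)] at h2
    simp only [ENNReal.toReal_mul, ENNReal.toReal_pow, ENNReal.toReal_ofReal ht0.le,
      ENNReal.toReal_ofReal (by linarith : (0:ℝ) ≤ 1 - t), ENNReal.toReal_ofNat] at h2
    exact h2
  have hVa : V ≤ a := by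
    by_contra hlt
    push Not at hlt
    set M := max 1 |V - 2 * a + b| with hM
    have hM1 : 1 ≤ M := le_max_left _ _
    have hM2 : V - 2 * a + b ≤ M := (le_abs_self _).trans (le_max_right _ _)
    set t := min (1 / 2) ((V - a) / M) with ht
    have ht0 : 0 < t := lt_min (by norm_num) (div_pos (by linarith) (by linarith))
    have ht1 : t < 1 := lt_of_le_of_lt (min_le_left _ _) (by norm_num)
    have htM : t * M ≤ V - a := by
      have := min_le_right (1 / 2) ((V - a) / M)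
      calc t * M ≤ ((V - a) / M) * M := by gcongr
        _ = V - a := by field_simp
    have h3 := key t ht0 ht1
    have h4 : 2 * (V - a) ≤ t * (V - 2 * a + b) := by
      have : t * (2 * (V - a)) ≤ t * (t * (V - 2 * a + b)) := by nlinarith
      exact le_of_mul_le_mul_left this ht0
    have h5 : t * (V - 2 * a + b) ≤ t * M := by gcongr
    linarith
  rw [← ENNReal.ofReal_toReal hfin, ← ENNReal.ofReal_toReal hms]
  exact ENNReal.ofReal_le_ofReal hVa

lemma variation_meas [NeZero n] {s : ℝ} (hs : 0 < s) {K : Set (E n)} {μ σ : Measure (E n)}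
    (hμ : μ ∈ PP K) (hE : En s μ μ = VV s K) (hfin : VV s K ≠ ∞) [IsFiniteMeasure σ]
    (hσ : σ Kᶜ = 0) (hσE : En s σ σ ≠ ∞) : VV s K * σ univ ≤ En s μ σ := by
  haveI := hμ.1
  by_cases h0 : σ univ = 0
  · rw [h0, mul_zero]; exact bot_le
  have htop : σ univ ≠ ∞ := measure_ne_top _ _
  have hprob : ((σ univ)⁻¹ • σ) ∈ PP K := by
    refine ⟨⟨?_⟩, ?_⟩
    · rw [Measure.smul_apply, smul_eq_mul, ENNReal.inv_mul_cancel h0 htop]
    · rw [Measure.smul_apply, hσ, smul_zero]
  have h1 := variation hs hμ hE hfin hprob (by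
    rw [En_smul_left, En_smul_right]
    exact ENNReal.mul_ne_top (ENNReal.inv_ne_top.2 h0) (ENNReal.mul_ne_top
      (ENNReal.inv_ne_top.2 h0) hσE))
  rw [En_smul_right] at h1
  calc VV s K * σ univ ≤ ((σ univ)⁻¹ * En s μ σ) * σ univ := by gcongr
    _ = ((σ univ)⁻¹ * σ univ) * En s μ σ := by ring
    _ = En s μ σ := by rw [ENNReal.inv_mul_cancel h0 htop, one_mul]

/-- energy of a part of the equilibrium measure -/
lemma En_restrict_le [NeZero n] {s : ℝ} (hs : 0 < s) {K : Set (E n)} {μ : Measure (E n)}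
    (hμ : μ ∈ PP K) (hE : En s μ μ = VV s K) (hfin : VV s K ≠ ∞) {A : Set (E n)}
    (hA : MeasurableSet A) : En s μ (μ.restrict A) ≤ VV s K * μ A := by
  haveI := hμ.1
  have hmu : En s μ μ ≠ ∞ := by rw [hE]; exact hfin
  have h1 : En s μ μ = En s μ (μ.restrict A) + En s μ (μ.restrict Aᶜ) := by
    rw [← En_add_right, Measure.restrict_add_restrict_compl hA]
  have h2 : VV s K * μ Aᶜ ≤ En s μ (μ.restrict Aᶜ) := by
    have := variation_meas hs hμ hE hfin (σ := μ.restrict Aᶜ)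
      (by exact le_antisymm ((Measure.restrict_apply_le _ _).trans hμ.2.le) bot_le)
      (ne_top_of_le_ne_top hmu (En_mono s Measure.restrict_le_self Measure.restrict_le_self))
    rwa [Measure.restrict_apply_univ] at this
  have h3 : μ A + μ Aᶜ = 1 := by rw [measure_add_measure_compl hA, measure_univ]
  have h4 : VV s K = VV s K * μ A + VV s K * μ Aᶜ := by rw [← mul_add, h3, mul_one]
  have h5 : En s μ (μ.restrict A) + VV s K * μ Aᶜ ≤ VV s K * μ A + VV s K * μ Aᶜ := by
    rw [← h4]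
    calc En s μ (μ.restrict A) + VV s K * μ Aᶜ
        ≤ En s μ (μ.restrict A) + En s μ (μ.restrict Aᶜ) := by gcongr
      _ = En s μ μ := h1.symm
      _ = VV s K := hE
  exact (ENNReal.add_le_add_iff_right (ENNReal.mul_ne_top hfin (measure_ne_top _ _))).1 h5

lemma VV_inter_le [NeZero n] {s : ℝ} (hs : 0 < s) {K : Set (E n)} {μ : Measure (E n)}
    (hμ : μ ∈ PP K) (hE : En s μ μ = VV s K) (hfin : VV s K ≠ ∞) {A : Set (E n)}
    (hA : MeasurableSet A) (hpos : μ A ≠ 0) : VV s (K ∩ A) ≤ VV s K * (μ A)⁻¹ := by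
  haveI := hμ.1
  have htop : μ A ≠ ∞ := measure_ne_top _ _
  have hprob : ((μ A)⁻¹ • μ.restrict A) ∈ PP (K ∩ A) := by
    refine ⟨⟨?_⟩, ?_⟩
    · rw [Measure.smul_apply, smul_eq_mul, Measure.restrict_apply_univ,
        ENNReal.inv_mul_cancel hpos htop]
    · rw [Measure.smul_apply, compl_inter]
      have : (μ.restrict A) (Kᶜ ∪ Aᶜ) = 0 := by
        apply measure_union_null
        · exact le_antisymm ((Measure.restrict_apply_le _ _).trans hμ.2.le) bot_le
        · rw [Measure.restrict_apply hA.compl]; simp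
      rw [this, smul_zero]
  refine (VV_le hprob).trans ?_
  rw [En_smul_left, En_smul_right]
  calc (μ A)⁻¹ * ((μ A)⁻¹ * En s (μ.restrict A) (μ.restrict A))
      ≤ (μ A)⁻¹ * ((μ A)⁻¹ * (VV s K * μ A)) := by
        gcongr
        exact (En_mono s Measure.restrict_le_self le_rfl).trans (En_restrict_le hs hμ hE hfin hA)
    _ = VV s K * (μ A)⁻¹ * ((μ A)⁻¹ * μ A) := by ring
    _ = _ := by rw [ENNReal.inv_mul_cancel hpos htop, mul_one]

/-- mass growth of the equilibrium measure -/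
lemma equil_growth [NeZero n] {s : ℝ} (hs : 0 < s) {K : Set (E n)} {μ : Measure (E n)}
    (hμ : μ ∈ PP K) (hE : En s μ μ = VV s K) (h1 : VV s K = 1) (x : E n) {r : ℝ} (hr : 0 < r) :
    μ (closedBall x r) ≤ ENNReal.ofReal ((2 * r) ^ s) := by
  haveI := hμ.1
  set A := closedBall x r with hA
  by_cases h0 : μ A = 0
  · rw [h0]; exact bot_le
  have htop : μ A ≠ ∞ := measure_ne_top _ _
  have hup : En s (μ.restrict A) (μ.restrict A) ≤ μ A := by
    have h2 := En_restrict_le hs hμ hE (by rw [h1]; simp) (A := A) measurableSet_closedBall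
    rw [h1, one_mul] at h2
    exact (En_mono s Measure.restrict_le_self le_rfl).trans h2
  have hlow : ENNReal.ofReal ((2 * r) ^ (-s)) * (μ A * μ A) ≤
      En s (μ.restrict A) (μ.restrict A) := by
    unfold En
    have hp : (μ.restrict A).prod (μ.restrict A) = (μ.prod μ).restrict (A ×ˢ A) :=
      Measure.prod_restrict _ _
    rw [hp, ← Measure.prod_prod, ← setLIntegral_const]
    apply setLIntegral_mono' (measurableSet_closedBall.prod measurableSet_closedBall)
    intro z hz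
    have hd : dist z.1 z.2 ≤ 2 * r := by
      calc dist z.1 z.2 ≤ dist z.1 x + dist z.2 x := dist_triangle_right _ _ _
        _ ≤ r + r := add_le_add hz.1 hz.2
        _ = 2 * r := by ring
    rw [← ENNReal.ofReal_rpow_of_pos (by positivity)]
    apply rpow_neg_anti hs.le
    rw [edist_dist]
    exact ENNReal.ofReal_le_ofReal hd
  have h2 : ENNReal.ofReal ((2 * r) ^ (-s)) * μ A ≤ 1 := by
    have h3 : (ENNReal.ofReal ((2 * r) ^ (-s)) * μ A) * μ A ≤ 1 * μ A := by
      rw [one_mul, mul_assoc]; exact hlow.trans hup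
    exact (ENNReal.mul_le_mul_iff_left h0 htop).1 h3
  calc μ A = ENNReal.ofReal ((2 * r) ^ s) * (ENNReal.ofReal ((2 * r) ^ (-s)) * μ A) := by
        rw [← mul_assoc, ← ENNReal.ofReal_mul (by positivity), ← Real.rpow_add (by positivity)]
        simp
    _ ≤ ENNReal.ofReal ((2 * r) ^ s) * 1 := by gcongr
    _ = _ := mul_one _

end RieszRatio
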