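import Mathlib
import Pool.Agent.Lib.MP_ce24da_an.Equil

/-!
# Similarities, Jensen inequality, positivity and finiteness
-/

open MeasureTheory Set Metric ENNReal Filter Topology
open scoped Pointwise NNReal BoundedContinuousFunction

set_option linter.style.haveILetI false

namespace RieszRatio

variable {n : ℕ}

lemma En_map {s : ℝ} (hs : 0 < s) {f : E n → E n} (hf : Continuous f) {c : ℝ} (hc : 0 < c)
    (h : ∀ x y, dist (f x) (f y) = c * dist x y) (μ ν : Measure (E n)) [SFinite μ] [SFinite ν] :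
    En s (μ.map f) (ν.map f) = ENNReal.ofReal (c ^ (-s)) * En s μ ν := by
  unfold En
  rw [Measure.map_prod_map _ _ hf.measurable hf.measurable,
    lintegral_map (measurable_kernel s) (by fun_prop),
    ← lintegral_const_mul' _ _ ENNReal.ofReal_ne_top]
  apply lintegral_congr
  intro z
  have h1 : edist (f z.1) (f z.2) = ENNReal.ofReal c * edist z.1 z.2 := by
    rw [edist_dist, edist_dist, h, ENNReal.ofReal_mul hc.le]
  change (edist (f z.1) (f z.2)) ^ (-s) = _
  rw [h1, ENNReal.rpow_neg, ENNReal.mul_rpow_of_nonneg _ _ hs.le, ENNReal.mul_inv,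
    ← ENNReal.rpow_neg, ← ENNReal.rpow_neg, ENNReal.ofReal_rpow_of_pos hc]
  · left
    rw [ENNReal.ofReal_rpow_of_pos hc]
    simp only [ne_eq, ENNReal.ofReal_eq_zero, not_le]
    positivity
  · left
    rw [ENNReal.ofReal_rpow_of_pos hc]
    exact ENNReal.ofReal_ne_top

lemma map_mem_PP {K K' : Set (E n)} {f : E n → E n} (hf : Continuous f)
    (hK' : MeasurableSet K') (hm : MapsTo f K K') {μ : Measure (E n)} (hμ : μ ∈ PP K) :
    μ.map f ∈ PP K' := by
  haveI := hμ.1
  refine ⟨Measure.isProbabilityMeasure_map hf.aemeasurable, ?_⟩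
  rw [Measure.map_apply hf.measurable hK'.compl]
  refine measure_mono_null ?_ hμ.2
  intro x hx hxK
  exact hx (hm hxK)

lemma VV_map_le {s : ℝ} (hs : 0 < s) {K K' : Set (E n)} {f : E n → E n} (hf : Continuous f)
    {c : ℝ} (hc : 0 < c) (h : ∀ x y, dist (f x) (f y) = c * dist x y)
    (hK' : MeasurableSet K') (hm : MapsTo f K K') :
    VV s K' ≤ ENNReal.ofReal (c ^ (-s)) * VV s K := by
  have : ENNReal.ofReal (c ^ (-s)) * VV s K =
      ⨅ μ ∈ PP K, ENNReal.ofReal (c ^ (-s)) * En s μ μ := by
    unfold VV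
    have h0 : ENNReal.ofReal (c ^ (-s)) ≠ 0 := by
      simp only [ne_eq, ENNReal.ofReal_eq_zero, not_le]; positivity
    rw [ENNReal.mul_iInf_of_ne h0 ENNReal.ofReal_ne_top]
    congr 1
    ext μ
    rw [ENNReal.mul_iInf_of_ne h0 ENNReal.ofReal_ne_top]
  rw [this]
  apply le_iInf₂
  intro μ hμ
  haveI := hμ.1
  rw [← En_map hs hf hc h]
  exact VV_le (map_mem_PP hf hK' hm hμ)

/-- image of a set under `x ↦ c • (x - a)` -/
def simil (c : ℝ) (a : E n) (K : Set (E n)) : Set (E n) := (fun x => c • (x - a)) '' K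

lemma simil_compact {c : ℝ} {a : E n} {K : Set (E n)} (hK : IsCompact K) :
    IsCompact (simil c a K) := hK.image (by fun_prop)

lemma dist_simil {c : ℝ} (hc : 0 < c) (a x y : E n) :
    dist (c • (x - a)) (c • (y - a)) = c * dist x y := by
  rw [dist_smul₀, Real.norm_of_nonneg hc.le, dist_sub_right]

lemma VV_simil {s : ℝ} (hs : 0 < s) {c : ℝ} (hc : 0 < c) (a : E n) {K : Set (E n)}
    (hK : IsCompact K) : VV s (simil c a K) = ENNReal.ofReal (c ^ (-s)) * VV s K := by
  apply le_antisymm
  · exact VV_map_le hs (by fun_prop) hc (dist_simil hc a) (simil_compact hK).measurableSet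
      (mapsTo_image _ _)
  · have h := VV_map_le (K := simil c a K) (K' := K) (f := fun x => c⁻¹ • x + a) (c := c⁻¹) hs
      (by fun_prop) (by positivity) (by
        intro x y
        rw [dist_add_right, dist_smul₀, Real.norm_of_nonneg (by positivity)]) hK.measurableSet (by
        rintro _ ⟨x, hx, rfl⟩
        simp only [smul_smul, inv_mul_cancel₀ hc.ne', one_smul, sub_add_cancel]
        exact hx)
    calc ENNReal.ofReal (c ^ (-s)) * VV s K
        ≤ ENNReal.ofReal (c ^ (-s)) * (ENNReal.ofReal ((c⁻¹) ^ (-s)) * VV s (simil c a K)) := by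
          gcongr
      _ = VV s (simil c a K) := by
          rw [← mul_assoc, ← ENNReal.ofReal_mul (by positivity), ← Real.mul_rpow hc.le
            (by positivity), mul_inv_cancel₀ hc.ne', Real.one_rpow]
          simp

/-- Jensen -/
lemma En_jensen {p q : ℝ} (hp : 0 < p) (hpq : p < q) (μ : Measure (E n)) [IsProbabilityMeasure μ] :
    En p μ μ ≤ (En q μ μ) ^ (p / q) := by
  have hq : 0 < q := hp.trans hpq
  have hconj : (q / p).HolderConjugate (q / (q - p)) := by
    rw [Real.holderConjugate_iff]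
    constructor
    · rw [lt_div_iff₀ hp]; linarith
    · have h1 : q - p ≠ 0 := by linarith
      field_simp
      ring
  have h := ENNReal.lintegral_mul_le_Lp_mul_Lq (μ.prod μ) hconj
    (f := fun z : E n × E n => (edist z.1 z.2) ^ (-p)) (g := fun _ => 1)
    (measurable_kernel p).aemeasurable aemeasurable_const
  simp only [Pi.mul_apply, mul_one, ENNReal.one_rpow, lintegral_one, measure_univ] at h
  have h2 : ∀ z : E n × E n, ((edist z.1 z.2) ^ (-p)) ^ (q / p) = (edist z.1 z.2) ^ (-q) := by
    intro z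
    rw [← ENNReal.rpow_mul]
    congr 1
    field_simp
  simp_rw [h2] at h
  rw [one_div_div] at h
  exact h

lemma VV_jensen {p q : ℝ} (hp : 0 < p) (hpq : p < q) {K : Set (E n)} (hK : IsCompact K)
    (hne : K.Nonempty) : VV p K ≤ (VV q K) ^ (p / q) := by
  obtain ⟨μ, hμ, hE⟩ := exists_equil (hp.trans hpq) hK hne
  haveI := hμ.1
  rw [← hE]
  exact (VV_le hμ).trans (En_jensen hp hpq μ)

lemma VV_pos {s : ℝ} (hs : 0 < s) {K : Set (E n)} (hK : IsCompact K) : VV s K ≠ 0 := by
  obtain ⟨R, hR⟩ : ∃ R : ℝ, K ⊆ closedBall 0 R := hK.isBounded.subset_closedBall 0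
  set D := 2 * max R 1 with hD
  have hD0 : 0 < D := by
    have := le_max_right R 1
    positivity
  have h1 : ENNReal.ofReal (D ^ (-s)) ≤ VV s K := by
    apply le_iInf₂
    intro μ hμ
    haveI := hμ.1
    unfold En
    have h2 : ENNReal.ofReal (D ^ (-s)) =
        ∫⁻ z : E n × E n, ENNReal.ofReal (D ^ (-s)) ∂(μ.prod μ) := by
      rw [lintegral_const, measure_univ, mul_one]
    rw [h2]
    apply lintegral_mono_ae
    have hae : ∀ᵐ x ∂μ, x ∈ K := by
      rw [ae_iff]; exact hμ.2
    have hae1 : ∀ᵐ z ∂(μ.prod μ), z.1 ∈ K := Measure.quasiMeasurePreserving_fst.ae hae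
    have hae2 : ∀ᵐ z ∂(μ.prod μ), z.2 ∈ K := Measure.quasiMeasurePreserving_snd.ae hae
    filter_upwards [hae1, hae2] with z h1 h2
    rw [← ENNReal.ofReal_rpow_of_pos hD0]
    apply rpow_neg_anti hs.le
    rw [edist_dist]
    apply ENNReal.ofReal_le_ofReal
    have h3 := hR h1
    have h4 := hR h2
    have : R ≤ max R 1 := le_max_left _ _
    calc dist z.1 z.2 ≤ dist z.1 0 + dist z.2 0 := dist_triangle_right _ _ _
      _ ≤ R + R := add_le_add h3 h4
      _ ≤ D := by rw [hD]; linarith
  intro h0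
  rw [h0] at h1
  have : 0 < D ^ (-s) := by positivity
  rw [nonpos_iff_eq_zero, ENNReal.ofReal_eq_zero] at h1
  linarith

/-- the unit ball has finite energy -/
lemma VV_ball_ne_top [NeZero n] {s : ℝ} (hs : 0 < s) (hsn : s < n) :
    VV s (closedBall (0 : E n) 1) ≠ ∞ := by
  have hvol : volume (closedBall (0 : E n) 1) ≠ 0 := by
    have := measure_closedBall_pos volume (0 : E n) one_pos
    exact this.ne'
  have hvolt : volume (closedBall (0 : E n) 1) ≠ ∞ := measure_closedBall_lt_top.ne
  set B := closedBall (0 : E n) 1 with hB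
  set μ : Measure (E n) := volume.restrict B with hμ
  haveI : IsFiniteMeasure μ := ⟨by rw [hμ, Measure.restrict_apply_univ]; exact hvolt.lt_top⟩
  have hEn : En s μ μ ≠ ∞ := by
    unfold En
    rw [lintegral_prod _ (measurable_kernel s).aemeasurable]
    have hC : ∀ x ∈ B, ∫⁻ y, (edist x y) ^ (-s) ∂μ ≤
        ENNReal.ofReal ((volume (ball (0 : E n) 1)).toReal * cN s n * 2 ^ ((n:ℝ) - s)) := by
      intro x hx
      have h1 : ∫⁻ y, (edist x y) ^ (-s) ∂μ ≤ ∫⁻ y in closedBall x 2, (edist x y) ^ (-s) := by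
        rw [hμ]
        apply lintegral_mono_set
        intro y hy
        have h1 : dist x 0 ≤ 1 := hx
        have h2 : dist y 0 ≤ 1 := hy
        rw [mem_closedBall]
        linarith [dist_triangle_right y x 0]
      refine h1.trans ?_
      apply near_bound hs hsn ENNReal.toReal_nonneg (by norm_num : (0:ℝ) < 2)
      intro t ht _
      have h3 : volume (closedBall x t) = volume (ball x t) := by
        rcases Nat.eq_zero_or_pos n with h | h
        · exact absurd h (NeZero.ne n)
        · haveI : Nontrivial (E n) := by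
            haveI : Nonempty (Fin n) := ⟨⟨0, h⟩⟩
            infer_instance
          exact Measure.addHaar_closedBall_eq_addHaar_ball volume x t
      rw [h3, volume_ball_eq x ht.le, ENNReal.ofReal_mul ENNReal.toReal_nonneg,
        ENNReal.ofReal_toReal measure_ball_lt_top.ne, mul_comm, Real.rpow_natCast]
    have h2 : ∫⁻ x, ∫⁻ y, (edist x y) ^ (-s) ∂μ ∂μ ≤
        ∫⁻ x, ENNReal.ofReal ((volume (ball (0 : E n) 1)).toReal * cN s n * 2 ^ ((n:ℝ) - s)) ∂μ := by
      apply lintegral_mono_ae
      rw [hμ]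
      filter_upwards [ae_restrict_mem measurableSet_closedBall] with x hx
      exact hC x hx
    refine ne_top_of_le_ne_top ?_ h2
    rw [lintegral_const]
    exact ENNReal.mul_ne_top ENNReal.ofReal_ne_top (measure_ne_top _ _)
  have hprob : ((volume B)⁻¹ • μ) ∈ PP B := by
    refine ⟨⟨?_⟩, ?_⟩
    · rw [Measure.smul_apply, smul_eq_mul, hμ, Measure.restrict_apply_univ,
        ENNReal.inv_mul_cancel hvol hvolt]
    · have h0 : (closedBall (0 : E n) 1)ᶜ ∩ B = ∅ := by rw [hB]; exact compl_inter_self _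
      rw [Measure.smul_apply, hμ, Measure.restrict_apply measurableSet_closedBall.compl, h0]
      simp
  refine ne_top_of_le_ne_top ?_ (VV_le hprob)
  rw [En_smul_left, En_smul_right]
  exact ENNReal.mul_ne_top (ENNReal.inv_ne_top.2 hvol) (ENNReal.mul_ne_top
    (ENNReal.inv_ne_top.2 hvol) hEn)

end RieszRatio
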