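import Mathlib
import Pool.Agent.Lib.MP_ce24da_an.Scale

/-!
# Near-optimal configurations: non-vanishing and absence of dichotomy
-/

open MeasureTheory Set Metric ENNReal Filter Topology
open scoped Pointwise NNReal BoundedContinuousFunction

set_option linter.style.haveILetI false

namespace RieszRatio

variable {n : ℕ}

/-- `Θ` bounds `V_p / V_q^{p/q}` over all compact sets -/
def Opt (n : ℕ) (p q Θ : ℝ) : Prop :=
  ∀ K : Set (E n), IsCompact K → VV q K ≠ ∞ → VV p K ≤ ENNReal.ofReal Θ * (VV q K) ^ (p / q)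

/-- a near optimal normalised configuration -/
structure Near (p q Θ δ : ℝ) (K : Set (E n)) (μ : Measure (E n)) : Prop where
  compact : IsCompact K
  mem : μ ∈ PP K
  equil : En q μ μ = VV q K
  one : VV q K = 1
  near : ENNReal.ofReal Θ ≤ VV p K + ENNReal.ofReal δ

lemma kernel_split {p q T ρ : ℝ} (hp : 0 < p) (hpq : p < q) (hT : 0 < T) (hρ : 0 < ρ)
    (z : E n × E n) :
    (edist z.1 z.2) ^ (-p) ≤ ENNReal.ofReal (T ^ (p - q)) * (edist z.1 z.2) ^ (-q) +
      {z : E n × E n | dist z.1 z.2 ≤ ρ}.indicator (fun _ => ENNReal.ofReal (T ^ p)) z +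
      ENNReal.ofReal (ρ ^ (-p)) := by
  by_cases h : dist z.1 z.2 = 0
  · have h1 : (edist z.1 z.2) ^ (-q) = ∞ := by
      rw [edist_dist, h, ENNReal.ofReal_zero, ENNReal.zero_rpow_of_neg (by linarith)]
    have h2 : ENNReal.ofReal (T ^ (p - q)) ≠ 0 := by
      simp only [ne_eq, ENNReal.ofReal_eq_zero, not_le]; positivity
    rw [h1, ENNReal.mul_top h2]
    simp
  have hd : 0 < dist z.1 z.2 := lt_of_le_of_ne dist_nonneg (Ne.symm h)
  by_cases h1 : dist z.1 z.2 ≤ ρ
  · rw [indicator_of_mem (by exact h1)]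
    rw [edist_dist, ENNReal.ofReal_rpow_of_pos hd, ENNReal.ofReal_rpow_of_pos hd,
      ← ENNReal.ofReal_mul (by positivity)]
    refine le_add_right ?_
    rw [← ENNReal.ofReal_add (by positivity) (by positivity)]
    apply ENNReal.ofReal_le_ofReal
    set t := (dist z.1 z.2)⁻¹ with ht
    have ht0 : 0 < t := by positivity
    have e1 : (dist z.1 z.2) ^ (-p) = t ^ p := by
      rw [ht, Real.inv_rpow hd.le, Real.rpow_neg hd.le]
    have e2 : (dist z.1 z.2) ^ (-q) = t ^ q := by
      rw [ht, Real.inv_rpow hd.le, Real.rpow_neg hd.le]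
    rw [e1, e2]
    by_cases htT : t ≤ T
    · have : t ^ p ≤ T ^ p := Real.rpow_le_rpow ht0.le htT hp.le
      have h3 : 0 ≤ T ^ (p - q) * t ^ q := by positivity
      linarith
    · push Not at htT
      have h3 : t ^ p = t ^ (p - q) * t ^ q := by
        rw [← Real.rpow_add ht0]; congr 1; ring
      have h4 : t ^ (p - q) ≤ T ^ (p - q) :=
        Real.rpow_le_rpow_of_nonpos hT htT.le (by linarith)
      have h5 : t ^ p ≤ T ^ (p - q) * t ^ q := by
        rw [h3]; gcongr
      have h6 : 0 ≤ T ^ p := by positivity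
      linarith
  · push Not at h1
    have h2 : (edist z.1 z.2) ^ (-p) ≤ ENNReal.ofReal (ρ ^ (-p)) := by
      rw [← ENNReal.ofReal_rpow_of_pos hρ]
      apply rpow_neg_anti hp.le
      rw [edist_dist]
      exact ENNReal.ofReal_le_ofReal h1.le
    exact h2.trans le_add_self

lemma nonvanish {p q Θ : ℝ} (hp : 0 < p) (hpq : p < q) (hΘ : 0 < Θ) :
    ∃ ρ : ℝ, 0 < ρ ∧ ∃ c : ℝ, 0 < c ∧ ∀ (K : Set (E n)) (μ : Measure (E n)) (δ : ℝ), δ ≤ Θ / 2 →
      Near p q Θ δ K μ → ∃ x, ENNReal.ofReal c ≤ μ (closedBall x ρ) := by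
  set T : ℝ := (Θ / 16) ^ (1 / (p - q)) with hT
  have hT0 : 0 < T := by positivity
  have hTe : T ^ (p - q) = Θ / 16 := by
    rw [hT, ← Real.rpow_mul (by positivity), one_div, inv_mul_cancel₀ (by linarith), Real.rpow_one]
  set ρ : ℝ := (Θ / 16) ^ (-(1 / p)) with hρ
  have hρ0 : 0 < ρ := by positivity
  have hρe : ρ ^ (-p) = Θ / 16 := by
    rw [hρ, ← Real.rpow_mul (by positivity)]
    rw [show -(1 / p) * -p = 1 by field_simp, Real.rpow_one]
  set c : ℝ := Θ / 16 / T ^ p with hc
  have hc0 : 0 < c := by positivity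
  refine ⟨ρ, hρ0, c, hc0, ?_⟩
  intro K μ δ hδ hN
  haveI := hN.mem.1
  by_contra hcon
  push Not at hcon
  have hTc : T ^ p * c = Θ / 16 := by rw [hc]; field_simp
  clear_value T ρ c
  have hms : MeasurableSet {z : E n × E n | dist z.1 z.2 ≤ ρ} :=
    (isClosed_le (by fun_prop) (by fun_prop)).measurableSet
  have hprod : (μ.prod μ) {z : E n × E n | dist z.1 z.2 ≤ ρ} ≤ ENNReal.ofReal c := by
    rw [Measure.prod_apply hms]
    have h0 : ∀ x, μ (Prod.mk x ⁻¹' {z : E n × E n | dist z.1 z.2 ≤ ρ}) ≤ ENNReal.ofReal c := by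
      intro x
      have h1 : Prod.mk x ⁻¹' {z : E n × E n | dist z.1 z.2 ≤ ρ} = closedBall x ρ := by
        ext y
        simp only [mem_preimage, mem_ofPred_eq, mem_closedBall]
        rw [dist_comm]
      rw [h1]
      exact (hcon x).le
    calc ∫⁻ x, μ (Prod.mk x ⁻¹' {z : E n × E n | dist z.1 z.2 ≤ ρ}) ∂μ
        ≤ ∫⁻ _, ENNReal.ofReal c ∂μ := lintegral_mono h0
      _ = ENNReal.ofReal c := by rw [lintegral_const, measure_univ, mul_one]
  have h1 : En p μ μ ≤ ENNReal.ofReal (3 * (Θ / 16)) := by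
    calc En p μ μ
        ≤ ∫⁻ z, (ENNReal.ofReal (T ^ (p - q)) * (edist z.1 z.2) ^ (-q) +
      {z : E n × E n | dist z.1 z.2 ≤ ρ}.indicator (fun _ => ENNReal.ofReal (T ^ p)) z +
      ENNReal.ofReal (ρ ^ (-p))) ∂(μ.prod μ) := lintegral_mono fun z => kernel_split hp hpq hT0 hρ0 z
      _ = ENNReal.ofReal (T ^ (p - q)) * En q μ μ +
          ENNReal.ofReal (T ^ p) * (μ.prod μ) {z : E n × E n | dist z.1 z.2 ≤ ρ} +
          ENNReal.ofReal (ρ ^ (-p)) := by
          rw [lintegral_add_right _ measurable_const, lintegral_add_right _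
            (measurable_const.indicator hms), lintegral_const, measure_univ, mul_one,
            lintegral_indicator hms, setLIntegral_const, lintegral_const_mul' _ _
            ENNReal.ofReal_ne_top]
          rfl
      _ ≤ ENNReal.ofReal (Θ / 16) * 1 + ENNReal.ofReal (T ^ p) * ENNReal.ofReal c +
          ENNReal.ofReal (Θ / 16) := by
          rw [hTe, hρe, hN.equil, hN.one]
          gcongr
      _ = ENNReal.ofReal (3 * (Θ / 16)) := by
          rw [mul_one, ← ENNReal.ofReal_mul (by positivity), ← ENNReal.ofReal_add (by positivity)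
            (by positivity), ← ENNReal.ofReal_add (by positivity) (by positivity)]
          congr 1
          rw [hTc]
          ring
  have h2 : ENNReal.ofReal Θ ≤ ENNReal.ofReal (3 * (Θ / 16) + Θ / 2) := by
    calc ENNReal.ofReal Θ ≤ VV p K + ENNReal.ofReal δ := hN.near
      _ ≤ ENNReal.ofReal (3 * (Θ / 16)) + ENNReal.ofReal (Θ / 2) := by
        gcongr
        exact (VV_le hN.mem).trans h1
      _ = _ := by rw [← ENNReal.ofReal_add (by positivity) (by positivity)]
  rw [ENNReal.ofReal_le_ofReal_iff (by positivity)] at h2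
  linarith

lemma En_far {p D : ℝ} (hp : 0 < p) (hD : 0 < D) {K₁ K₂ : Set (E n)} {ν₁ ν₂ : Measure (E n)}
    [IsFiniteMeasure ν₁] [IsFiniteMeasure ν₂] (h1 : ν₁ K₁ᶜ = 0) (h2 : ν₂ K₂ᶜ = 0)
    (hd : ∀ x ∈ K₁, ∀ y ∈ K₂, D ≤ dist x y) :
    En p ν₁ ν₂ ≤ ENNReal.ofReal (D ^ (-p)) * (ν₁ univ * ν₂ univ) := by
  unfold En
  have h3 : ENNReal.ofReal (D ^ (-p)) * (ν₁ univ * ν₂ univ) =
      ∫⁻ z : E n × E n, ENNReal.ofReal (D ^ (-p)) ∂(ν₁.prod ν₂) := by
    rw [lintegral_const, ← Measure.prod_prod, univ_prod_univ]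
  rw [h3]
  apply lintegral_mono_ae
  have hae1 : ∀ᵐ z ∂(ν₁.prod ν₂), z.1 ∈ K₁ :=
    Measure.quasiMeasurePreserving_fst.ae (by rw [ae_iff]; exact h1)
  have hae2 : ∀ᵐ z ∂(ν₁.prod ν₂), z.2 ∈ K₂ :=
    Measure.quasiMeasurePreserving_snd.ae (by rw [ae_iff]; exact h2)
  filter_upwards [hae1, hae2] with z h1 h2
  rw [← ENNReal.ofReal_rpow_of_pos hD]
  apply rpow_neg_anti hp.le
  rw [edist_dist]
  exact ENNReal.ofReal_le_ofReal (hd _ h1 _ h2)

lemma dichotomy [NeZero n] {p q Θ δ : ℝ} (hp : 0 < p) (hpq : p < q) (hΘ : 0 < Θ) (hδ : 0 ≤ δ)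
    (H : Opt n p q Θ) {K : Set (E n)} {μ : Measure (E n)} (hN : Near p q Θ δ K μ) (x : E n)
    {R D : ℝ} (hD : 0 < D) (ha : μ (closedBall x R) ≠ 0) (hb : μ (ball x (R + D))ᶜ ≠ 0) :
    Θ ≤ Θ / ((μ (closedBall x R)).toReal ^ (p / q) + (μ (ball x (R + D))ᶜ).toReal ^ (p / q)) +
      D ^ (-p) + δ := by
  have hq : 0 < q := hp.trans hpq
  haveI := hN.mem.1
  have hone : VV q K ≠ ∞ := by rw [hN.one]; simp
  set a := (μ (closedBall x R)).toReal with hadef
  set b := (μ (ball x (R + D))ᶜ).toReal with hbdef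
  have ha' : 0 < a := ENNReal.toReal_pos ha (measure_ne_top _ _)
  have hb' : 0 < b := ENNReal.toReal_pos hb (measure_ne_top _ _)
  have hae : μ (closedBall x R) = ENNReal.ofReal a := (ENNReal.ofReal_toReal (measure_ne_top _ _)).symm
  have hbe : μ (ball x (R + D))ᶜ = ENNReal.ofReal b := (ENNReal.ofReal_toReal (measure_ne_top _ _)).symm
  set s := p / q with hs
  -- general piece estimate
  have piece : ∀ (A : Set (E n)) (c : ℝ), IsClosed A → 0 < c → μ A = ENNReal.ofReal c →
      ∃ ν ∈ PP (K ∩ A), En p ν ν ≤ ENNReal.ofReal (Θ * c ^ (-s)) := by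
    intro A c hA hc hAc
    have hcomp : IsCompact (K ∩ A) := hN.compact.inter_right hA
    have hA0 : μ A ≠ 0 := by rw [hAc]; simpa using hc
    have hVq := VV_inter_le hq hN.mem hN.equil hone hA.measurableSet hA0
    rw [hN.one, one_mul] at hVq
    have hVq' : VV q (K ∩ A) ≠ ∞ := ne_top_of_le_ne_top (ENNReal.inv_ne_top.2 hA0) hVq
    have hne : (K ∩ A).Nonempty := by
      rw [nonempty_iff_ne_empty]
      intro h0
      apply hA0
      have : A ⊆ Kᶜ := by
        intro y hy hyK
        have : y ∈ K ∩ A := ⟨hyK, hy⟩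
        rw [h0] at this
        exact this
      exact measure_mono_null this hN.mem.2
    obtain ⟨ν, hν, hνE⟩ := exists_equil hp hcomp hne
    refine ⟨ν, hν, ?_⟩
    rw [hνE]
    refine (H _ hcomp hVq').trans ?_
    rw [ENNReal.ofReal_mul hΘ.le]
    gcongr
    calc (VV q (K ∩ A)) ^ s ≤ ((μ A)⁻¹) ^ s := by
          apply ENNReal.rpow_le_rpow hVq
          positivity
      _ = ENNReal.ofReal (c ^ (-s)) := by
          rw [hAc, ← ENNReal.rpow_neg_one, ← ENNReal.rpow_mul, neg_one_mul,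
            ENNReal.ofReal_rpow_of_pos hc]
  obtain ⟨ν₁, hν₁, hE₁⟩ := piece (closedBall x R) a isClosed_closedBall ha' hae
  obtain ⟨ν₂, hν₂, hE₂⟩ := piece (ball x (R + D))ᶜ b isOpen_ball.isClosed_compl hb' hbe
  haveI := hν₁.1
  haveI := hν₂.1
  set A₁ := Θ * a ^ (-s) with hA₁
  set A₂ := Θ * b ^ (-s) with hA₂
  have hA₁0 : 0 < A₁ := by positivity
  have hA₂0 : 0 < A₂ := by positivity
  set α := A₂ / (A₁ + A₂) with hα
  set β := A₁ / (A₁ + A₂) with hβ
  have hα0 : 0 ≤ α := by positivity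
  have hβ0 : 0 ≤ β := by positivity
  have hαβ : α + β = 1 := by rw [hα, hβ]; field_simp; ring
  clear_value A₁ A₂ α β
  have hcross : En p ν₁ ν₂ ≤ ENNReal.ofReal (D ^ (-p)) := by
    have := En_far hp hD hν₁.2 hν₂.2 (by
      intro y hy z hz
      have h1 : dist y x ≤ R := hy.2
      have h2 : R + D ≤ dist z x := by
        have := hz.2
        simpa using this
      linarith [dist_triangle_left z x y])
    simpa using this
  have hmix := VV_le (s := p) (comb_mem_PP (PP_mono inter_subset_left hν₁)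
    (PP_mono inter_subset_left hν₂) (a := ENNReal.ofReal α) (b := ENNReal.ofReal β)
    (by rw [← ENNReal.ofReal_add hα0 hβ0, hαβ, ENNReal.ofReal_one]))
  rw [En_comb] at hmix
  have hmix2 : VV p K ≤ ENNReal.ofReal (α ^ 2 * A₁ + 2 * (α * β) * D ^ (-p) + β ^ 2 * A₂) := by
    refine hmix.trans ?_
    have e : ENNReal.ofReal (α ^ 2 * A₁ + 2 * (α * β) * D ^ (-p) + β ^ 2 * A₂) =
        ENNReal.ofReal α ^ 2 * ENNReal.ofReal A₁ +
        2 * (ENNReal.ofReal α * ENNReal.ofReal β) * ENNReal.ofReal (D ^ (-p)) +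
        ENNReal.ofReal β ^ 2 * ENNReal.ofReal A₂ := by
      rw [ENNReal.ofReal_add (by positivity) (by positivity), ENNReal.ofReal_add (by positivity)
        (by positivity), ENNReal.ofReal_mul (p := α ^ 2) (by positivity),
        ENNReal.ofReal_mul (p := 2 * (α * β)) (by positivity),
        ENNReal.ofReal_mul (p := 2) (by positivity),
        ENNReal.ofReal_mul (p := α) (by positivity),
        ENNReal.ofReal_mul (p := β ^ 2) (by positivity), ENNReal.ofReal_pow hα0,
        ENNReal.ofReal_pow hβ0, ENNReal.ofReal_ofNat]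
    rw [e]
    gcongr
  have h3 : ENNReal.ofReal Θ ≤
      ENNReal.ofReal (α ^ 2 * A₁ + 2 * (α * β) * D ^ (-p) + β ^ 2 * A₂ + δ) := by
    rw [ENNReal.ofReal_add (by positivity) hδ]
    exact hN.near.trans (by gcongr)
  rw [ENNReal.ofReal_le_ofReal_iff (by positivity)] at h3
  have h4 : α ^ 2 * A₁ + β ^ 2 * A₂ = Θ / (a ^ s + b ^ s) := by
    have e1 : a ^ (-s) = (a ^ s)⁻¹ := Real.rpow_neg ha'.le s
    have e2 : b ^ (-s) = (b ^ s)⁻¹ := Real.rpow_neg hb'.le s
    have hx : 0 < a ^ s := by positivity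
    have hy : 0 < b ^ s := by positivity
    rw [hα, hβ, hA₁, hA₂, e1, e2]
    field_simp
    ring
  have h5 : 2 * (α * β) ≤ 1 := by nlinarith [sq_nonneg (α - β)]
  have h6 : 2 * (α * β) * D ^ (-p) ≤ 1 * D ^ (-p) := by gcongr
  linarith

lemma uniform_tight [NeZero n] {p q Θ : ℝ} (hp : 0 < p) (hpq : p < q) (hΘ : 0 < Θ)
    (H : Opt n p q Θ) {c ρ : ℝ} (hc : 0 < c) {ε : ℝ} (hε : 0 < ε) :
    ∃ δ₀ : ℝ, 0 < δ₀ ∧ ∃ R : ℝ, ∀ (K : Set (E n)) (μ : Measure (E n)) (δ : ℝ), 0 ≤ δ → δ ≤ δ₀ →
      Near p q Θ δ K μ → ENNReal.ofReal c ≤ μ (closedBall 0 ρ) →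
      μ (closedBall 0 R)ᶜ ≤ ENNReal.ofReal ε := by
  have hq : 0 < q := hp.trans hpq
  set s := p / q with hs
  have hs0 : 0 < s := by positivity
  have hs1 : s < 1 := by rw [hs, div_lt_one hq]; exact hpq
  set m₀ := min (min c ε) (1 / 2) with hm₀
  have hm0 : 0 < m₀ := lt_min (lt_min hc hε) (by norm_num)
  have hm1 : m₀ ≤ 1 / 2 := min_le_right _ _
  have hmc : m₀ ≤ c := (min_le_left _ _).trans (min_le_left _ _)
  have hme : m₀ ≤ ε := (min_le_left _ _).trans (min_le_right _ _)
  set g := (1 - m₀) ^ (s - 1) with hg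
  have hg1 : 1 < g := by
    rw [hg]
    exact Real.one_lt_rpow_of_pos_of_lt_one_of_neg (by linarith) (by linarith) (by linarith)
  set δ' := (1 - 1 / g) / 2 with hδ'
  have hginv : 1 / g < 1 := by rw [div_lt_one (by linarith)]; exact hg1
  have hδ'0 : 0 < δ' := by rw [hδ']; linarith
  set κ := (1 - δ') * g with hκ
  have hκ1 : 1 < κ := by
    have : κ = (g + 1) / 2 := by rw [hκ, hδ']; field_simp; ring
    rw [this]; linarith
  set η := Θ * (1 - 1 / κ) / 3 with hη
  have hκinv : 1 / κ < 1 := by rw [div_lt_one (by linarith)]; exact hκ1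
  have hη0 : 0 < η := by
    rw [hη]
    have : 0 < 1 - 1 / κ := by linarith
    positivity
  set D := η ^ (-(1 / p)) with hD
  have hD0 : 0 < D := by positivity
  have hDe : D ^ (-p) = η := by
    rw [hD, ← Real.rpow_mul hη0.le, show -(1 / p) * -p = 1 by field_simp, Real.rpow_one]
  obtain ⟨N, hN⟩ : ∃ N : ℕ, 1 < N * δ' := by
    obtain ⟨N, hN⟩ := exists_nat_gt (1 / δ')
    exact ⟨N, by rwa [div_lt_iff₀ hδ'0] at hN⟩
  refine ⟨η, hη0, ρ + N * D, ?_⟩
  intro K μ δ hδ0 hδ hNear hcμ
  haveI := hNear.mem.1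
  by_contra hcon
  push Not at hcon
  have hfar : ∀ k : ℕ, k ≤ N → ENNReal.ofReal ε < μ (ball 0 (ρ + k * D))ᶜ := by
    intro k hk
    refine hcon.trans_le (measure_mono (compl_subset_compl.2 ?_))
    refine ball_subset_closedBall.trans (closedBall_subset_closedBall ?_)
    have : (k:ℝ) ≤ N := by exact_mod_cast hk
    gcongr
  have hgrow : ∀ k : ℕ, k ≤ N → c + k * δ' ≤ (μ (closedBall 0 (ρ + k * D))).toReal := by
    intro k
    induction k with
    | zero =>
      intro _
      simp only [Nat.cast_zero, zero_mul, add_zero]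
      rw [← ENNReal.ofReal_le_iff_le_toReal (measure_ne_top _ _)]
      exact hcμ
    | succ k ih =>
      intro hk
      have ih' := ih (by omega)
      set a := (μ (closedBall 0 (ρ + k * D))).toReal with ha
      have hk0 : (0:ℝ) ≤ k * δ' := by positivity
      have hac : c ≤ a := by linarith
      have heq : ρ + ((k + 1 : ℕ) : ℝ) * D = ρ + k * D + D := by push_cast; ring
      have hb1 := hfar (k + 1) hk
      rw [heq] at hb1 ⊢
      set b := (μ (ball 0 (ρ + k * D + D))ᶜ).toReal with hb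
      have hbε : ε < b := by
        rw [hb, ← ENNReal.ofReal_lt_iff_lt_toReal hε.le (measure_ne_top _ _)]
        exact hb1
      have hsum : (μ (ball 0 (ρ + k * D + D))).toReal + b = 1 := by
        rw [hb, ← ENNReal.toReal_add (measure_ne_top _ _) (measure_ne_top _ _),
          measure_add_measure_compl measurableSet_ball, measure_univ, ENNReal.toReal_one]
      have hab : a ≤ (μ (ball 0 (ρ + k * D + D))).toReal := by
        apply ENNReal.toReal_mono (measure_ne_top _ _)
        apply measure_mono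
        apply closedBall_subset_ball
        linarith
      have hclosed : (μ (ball 0 (ρ + k * D + D))).toReal ≤
          (μ (closedBall 0 (ρ + k * D + D))).toReal :=
        ENNReal.toReal_mono (measure_ne_top _ _) (measure_mono ball_subset_closedBall)
      have hkey : a + b ≤ 1 - δ' := by
        by_contra hlt
        push Not at hlt
        have ha1 : a ≤ 1 - m₀ := by linarith
        have hb1' : b ≤ 1 - m₀ := by linarith
        have ha0 : 0 < a := by linarith
        have hb0 : 0 < b := by linarith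
        have hpow : ∀ y : ℝ, 0 < y → y ≤ 1 - m₀ → y * g ≤ y ^ s := by
          intro y hy hy1
          have : y ^ s = y * y ^ (s - 1) := by
            nth_rw 2 [← Real.rpow_one y]
            rw [← Real.rpow_add hy]; congr 1; ring
          rw [this]
          gcongr
          exact Real.rpow_le_rpow_of_nonpos hy hy1 (by linarith)
        have h1 := hpow a ha0 ha1
        have h2 := hpow b hb0 hb1'
        have h3 : κ ≤ a ^ s + b ^ s := by
          have : κ ≤ (a + b) * g := by
            rw [hκ]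
            gcongr
          linarith
        have hdich := dichotomy hp hpq hΘ hδ0 H hNear 0 hD0 (R := ρ + k * D) (by
          intro h0
          rw [ha, h0] at ha0
          simp at ha0) (by
          intro h0
          rw [hb, h0] at hb0
          simp at hb0)
        rw [hDe] at hdich
        have h4 : Θ / (a ^ s + b ^ s) ≤ Θ / κ := by
          apply div_le_div_of_nonneg_left hΘ.le (by linarith) h3
        have h5 : Θ / κ + 3 * η = Θ := by
          rw [hη]; field_simp; ring
        linarith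
      push_cast
      linarith
  have h1 := hgrow N le_rfl
  have h2 : (μ (closedBall 0 (ρ + N * D))).toReal ≤ 1 := by
    have : μ (closedBall 0 (ρ + N * D)) ≤ 1 := prob_le_one
    exact ENNReal.toReal_le_of_le_ofReal zero_le_one (by simpa using this)
  linarith

end RieszRatio
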