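import Mathlib
import Pool.Agent.Lib.MP_ce24da_an.Tight

/-!
# Bounds for the `p`-equilibrium measure of a near-optimal configuration
-/

open MeasureTheory Set Metric ENNReal Filter Topology
open scoped Pointwise NNReal BoundedContinuousFunction

set_option linter.style.haveILetI false

namespace RieszRatio

variable {n : ℕ}

lemma piece [NeZero n] {p q Θ δ : ℝ} (hp : 0 < p) (hpq : p < q) (hΘ : 0 < Θ)
    (H : Opt n p q Θ) {K : Set (E n)} {μ : Measure (E n)} (hN : Near p q Θ δ K μ)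
    {A : Set (E n)} (hA : IsClosed A) (hA0 : μ A ≠ 0) :
    ∃ ν ∈ PP (K ∩ A), En p ν ν ≤ ENNReal.ofReal (Θ * (μ A).toReal ^ (-(p / q))) := by
  have hq : 0 < q := hp.trans hpq
  haveI := hN.mem.1
  have hone : VV q K ≠ ∞ := by rw [hN.one]; simp
  have hc : 0 < (μ A).toReal := ENNReal.toReal_pos hA0 (measure_ne_top _ _)
  have hcomp : IsCompact (K ∩ A) := hN.compact.inter_right hA
  have hVq := VV_inter_le hq hN.mem hN.equil hone hA.measurableSet hA0
  rw [hN.one, one_mul] at hVq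
  have hVq' : VV q (K ∩ A) ≠ ∞ := ne_top_of_le_ne_top (ENNReal.inv_ne_top.2 hA0) hVq
  have hne : (K ∩ A).Nonempty := by
    rw [nonempty_iff_ne_empty]
    intro h0
    apply hA0
    have : A ⊆ Kᶜ := by
      intro y hy hyK
      have : y ∈ K ∩ A := ⟨hyK, hy⟩
      rw [h0] at this
      exact this
    exact measure_mono_null this hN.mem.2
  obtain ⟨ν, hν, hνE⟩ := exists_equil hp hcomp hne
  refine ⟨ν, hν, ?_⟩
  rw [hνE]
  refine (H _ hcomp hVq').trans ?_
  rw [ENNReal.ofReal_mul hΘ.le]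
  gcongr
  calc (VV q (K ∩ A)) ^ (p / q) ≤ ((μ A)⁻¹) ^ (p / q) := by
        apply ENNReal.rpow_le_rpow hVq
        positivity
    _ = ENNReal.ofReal ((μ A).toReal ^ (-(p / q))) := by
        rw [← ENNReal.ofReal_rpow_of_pos hc, ENNReal.ofReal_toReal (measure_ne_top _ _),
          ← ENNReal.rpow_neg_one, ← ENNReal.rpow_mul, neg_one_mul]

lemma Near.VV_le {p q Θ δ : ℝ} {K : Set (E n)} {μ : Measure (E n)} (hN : Near p q Θ δ K μ)
    (H : Opt n p q Θ) : VV p K ≤ ENNReal.ofReal Θ := by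
  have := H K hN.compact (by rw [hN.one]; simp)
  rwa [hN.one, ENNReal.one_rpow, mul_one] at this

/-- replacing a compact part -/
lemma energy_gap [NeZero n] {p q Θ δ : ℝ} (hp : 0 < p)
    (H : Opt n p q Θ) {K : Set (E n)} {μ ν : Measure (E n)} (hN : Near p q Θ δ K μ)
    (hν : ν ∈ PP K) (hE : En p ν ν = VV p K) {K' : Set (E n)} (hK' : K' ⊆ K)
    {ν' : Measure (E n)} (hν' : ν' ∈ PP K') (hfin : En p ν' ν' ≠ ∞) :
    VV p K ≤ En p ν ν' ∧ VV p K ≠ ∞ := by
  have h1 : VV p K ≠ ∞ := ne_top_of_le_ne_top ENNReal.ofReal_ne_top (hN.VV_le H)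
  exact ⟨variation hp hν hE h1 (PP_mono hK' hν') hfin, h1⟩

lemma nu_tight [NeZero n] {p q Θ δ : ℝ} (hp : 0 < p) (hpq : p < q) (hΘ : 0 < Θ) (hΘ1 : Θ ≤ 1)
    (hδ0 : 0 ≤ δ) (hδ : δ ≤ Θ / 4)
    (H : Opt n p q Θ) {K : Set (E n)} {μ ν : Measure (E n)} (hN : Near p q Θ δ K μ)
    (hν : ν ∈ PP K) (hE : En p ν ν = VV p K) {R R' : ℝ} (hRR : R < R')
    (hfar : (R' - R) ^ (-p) ≤ Θ / 4) (hpos : μ (closedBall 0 R) ≠ 0) :
    (ν (closedBall 0 R')ᶜ).toReal ^ 2 ≤
      4 / Θ ^ 2 * (Θ * (μ (closedBall 0 R)).toReal ^ (-(p / q)) - Θ + δ) := by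
  haveI := hN.mem.1
  haveI := hν.1
  obtain ⟨ν', hν', hE'⟩ := piece hp hpq hΘ H hN isClosed_closedBall hpos
  haveI := hν'.1
  have hfin' : En p ν' ν' ≠ ∞ := ne_top_of_le_ne_top ENNReal.ofReal_ne_top hE'
  obtain ⟨hvar, htop⟩ := energy_gap hp H hN hν hE inter_subset_left hν' hfin'
  set F := (closedBall (0 : E n) R')ᶜ with hF
  set β := ν.restrict F with hβ
  set k := (ν F).toReal with hk
  have hk0 : 0 ≤ k := ENNReal.toReal_nonneg
  have hkE : ν F = ENNReal.ofReal k := (ENNReal.ofReal_toReal (measure_ne_top _ _)).symm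
  set V := (VV p K).toReal with hV
  have hVE : VV p K = ENNReal.ofReal V := (ENNReal.ofReal_toReal htop).symm
  have hV0 : 0 ≤ V := ENNReal.toReal_nonneg
  have hVΘ : V ≤ Θ := by
    have := hN.VV_le H
    rw [hVE, ENNReal.ofReal_le_ofReal_iff hΘ.le] at this
    exact this
  have hVlow : Θ ≤ V + δ := by
    have := hN.near
    rw [hVE, ← ENNReal.ofReal_add hV0 hδ0, ENNReal.ofReal_le_ofReal_iff (by positivity)] at this
    exact this
  set B := Θ * (μ (closedBall 0 R)).toReal ^ (-(p / q)) with hB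
  have hB0 : 0 ≤ B := by positivity
  -- the four energies
  have h1 : ENNReal.ofReal V * ENNReal.ofReal k ≤ En p ν β := by
    have := variation_meas hp hν hE htop (σ := β)
      (by exact le_antisymm ((Measure.restrict_apply_le _ _).trans hν.2.le) bot_le)
      (ne_top_of_le_ne_top (by rw [hE]; exact htop)
        (En_mono p Measure.restrict_le_self Measure.restrict_le_self))
    rwa [hβ, Measure.restrict_apply_univ, hVE, hkE] at this
  have h2 : En p ν' β ≤ ENNReal.ofReal (Θ / 4) * ENNReal.ofReal k := by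
    have := En_far (K₁ := closedBall (0 : E n) R) (K₂ := F) (ν₁ := ν') (ν₂ := β) hp
      (sub_pos.2 hRR) (measure_mono_null (compl_subset_compl.2 inter_subset_right) hν'.2)
      (by rw [hβ, hF, Measure.restrict_apply measurableSet_closedBall.compl.compl]; simp)
      (by
        intro x hx y hy
        have h1 : dist x 0 ≤ R := hx
        have h2 : R' < dist y 0 := by
          rw [hF] at hy
          simpa using hy
        linarith [dist_triangle_left y 0 x])
    rw [measure_univ, one_mul, hβ, Measure.restrict_apply_univ, hkE] at this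
    refine this.trans ?_
    gcongr
  have h3 : En p β β ≤ 1 := by
    calc En p β β ≤ En p ν ν := En_mono p Measure.restrict_le_self Measure.restrict_le_self
      _ = VV p K := hE
      _ ≤ ENNReal.ofReal Θ := hN.VV_le H
      _ ≤ 1 := by rw [← ENNReal.ofReal_one]; exact ENNReal.ofReal_le_ofReal hΘ1
  set t := Θ * k / 2 with ht
  have ht0 : 0 ≤ t := by positivity
  have hq2 := quad2 hp ν ν' β (Real.toNNReal t)
  have htE : ((Real.toNNReal t : ℝ≥0) : ℝ≥0∞) = ENNReal.ofReal t := rfl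
  rw [htE] at hq2
  have h4 : ENNReal.ofReal (2 * t * (V * k) + 2 * V) ≤
      ENNReal.ofReal (V + B + 2 * t * (Θ / 4 * k) + t ^ 2) := by
    calc ENNReal.ofReal (2 * t * (V * k) + 2 * V)
        = 2 * ENNReal.ofReal t * (ENNReal.ofReal V * ENNReal.ofReal k) + 2 * ENNReal.ofReal V := by
          rw [ENNReal.ofReal_add (by positivity) (by positivity), ENNReal.ofReal_mul
            (p := 2 * t) (by positivity), ENNReal.ofReal_mul (p := 2) (q := t) (by positivity),
            ENNReal.ofReal_mul (p := V) (by positivity),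
            ENNReal.ofReal_mul (p := 2) (q := V) (by positivity),
            ENNReal.ofReal_ofNat]
      _ ≤ 2 * ENNReal.ofReal t * En p ν β + 2 * En p ν ν' := by
          rw [← hVE] at *
          gcongr
      _ ≤ En p ν ν + En p ν' ν' + 2 * ENNReal.ofReal t * En p ν' β +
          ENNReal.ofReal t ^ 2 * En p β β := hq2
      _ ≤ ENNReal.ofReal V + ENNReal.ofReal B +
          2 * ENNReal.ofReal t * (ENNReal.ofReal (Θ / 4) * ENNReal.ofReal k) +
          ENNReal.ofReal t ^ 2 * 1 := by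
          rw [hE, hVE]
          gcongr
      _ = _ := by
          rw [ENNReal.ofReal_add (by positivity) (by positivity), ENNReal.ofReal_add (by positivity)
            (by positivity), ENNReal.ofReal_add (by positivity) (by positivity),
            ENNReal.ofReal_mul (p := 2 * t) (by positivity),
            ENNReal.ofReal_mul (p := 2) (q := t) (by positivity),
            ENNReal.ofReal_mul (p := Θ / 4) (by positivity), ENNReal.ofReal_pow ht0,
            ENNReal.ofReal_ofNat, mul_one]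
  rw [ENNReal.ofReal_le_ofReal_iff (by positivity)] at h4
  have h5 : Θ * k * t ≤ B - V + t ^ 2 := by
    have h6 : 2 * t * (V - Θ / 4) * k ≤ B - V + t ^ 2 := by nlinarith
    have h7 : Θ / 2 ≤ V - Θ / 4 := by linarith
    have h8 : 2 * t * (Θ / 2) * k ≤ 2 * t * (V - Θ / 4) * k := by gcongr
    nlinarith
  have h9 : Θ ^ 2 * k ^ 2 / 4 ≤ B - V := by
    rw [ht] at h5
    nlinarith
  have h10 : Θ ^ 2 * k ^ 2 ≤ 4 * (B - Θ + δ) := by linarith
  calc k ^ 2 = (Θ ^ 2 * k ^ 2) / Θ ^ 2 := by field_simp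
    _ ≤ (4 * (B - Θ + δ)) / Θ ^ 2 := by gcongr
    _ = _ := by ring

lemma one_sub_rpow_le {a m : ℝ} (ha0 : 0 ≤ a) (ha1 : a ≤ 1) (hm0 : 0 ≤ m) (hm : m ≤ 1 / 2) :
    (1 - m) ^ (-a) ≤ 1 + 4 * a * m := by
  have h1 : 0 < 1 - m := by linarith
  have h2 : -Real.log (1 - m) ≤ 2 * m := by
    have := Real.one_sub_inv_le_log_of_pos h1
    have h3 : (1 - m)⁻¹ - 1 ≤ 2 * m := by
      rw [sub_le_iff_le_add, inv_le_comm₀ h1 (by linarith), inv_le_iff_one_le_mul₀ (by linarith)]
      nlinarith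
    linarith
  rw [Real.rpow_def_of_pos h1]
  have h4 : Real.log (1 - m) * -a ≤ 2 * a * m := by nlinarith
  have h5 : 2 * a * m ≤ 1 := by nlinarith
  have h6 : 0 ≤ 2 * a * m := by positivity
  calc Real.exp (Real.log (1 - m) * -a) ≤ Real.exp (2 * a * m) := Real.exp_le_exp.2 h4
    _ ≤ 1 + 2 * (2 * a * m) := by
      have := Real.abs_exp_sub_one_le (x := 2 * a * m) (by rw [abs_of_nonneg h6]; exact h5)
      rw [abs_of_nonneg h6] at this
      linarith [le_abs_self (Real.exp (2 * a * m) - 1)]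
    _ = 1 + 4 * a * m := by ring

lemma nu_growth [NeZero n] {p q Θ δ : ℝ} (hp : 0 < p) (hpq : p < q) (hΘ : 0 < Θ)
    (hδ0 : 0 ≤ δ)
    (H : Opt n p q Θ) {K : Set (E n)} {μ ν : Measure (E n)} (hN : Near p q Θ δ K μ)
    (hν : ν ∈ PP K) (hE : En p ν ν = VV p K) (x : E n) {r : ℝ} (hr : 0 < r)
    (hr8 : (8 * r) ^ q ≤ 1 / 2) :
    cMG n p r * (ν (ball x r)).toReal ^ 2 ≤ 4 * (p / q) * Θ * (8 * r) ^ q + δ := by
  have hq : 0 < q := hp.trans hpq
  haveI := hN.mem.1
  haveI := hν.1
  have hone : VV q K = 1 := hN.one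
  set m := (μ (ball x (4 * r))).toReal with hm
  have hm0 : 0 ≤ m := ENNReal.toReal_nonneg
  have hmle : m ≤ (8 * r) ^ q := by
    have h1 := equil_growth hq hN.mem hN.equil hone x (r := 4 * r) (by positivity)
    have h2 : μ (ball x (4 * r)) ≤ ENNReal.ofReal ((8 * r) ^ q) := by
      refine (measure_mono ball_subset_closedBall).trans (h1.trans (le_of_eq ?_))
      congr 2; ring
    exact ENNReal.toReal_le_of_le_ofReal (by positivity) h2
  have hm2 : m ≤ 1 / 2 := hmle.trans hr8
  have hcompl : (μ (ball x (4 * r))ᶜ).toReal = 1 - m := by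
    have h1 : (μ (ball x (4 * r))).toReal + (μ (ball x (4 * r))ᶜ).toReal = 1 := by
      rw [← ENNReal.toReal_add (measure_ne_top _ _) (measure_ne_top _ _),
        measure_add_measure_compl measurableSet_ball, measure_univ, ENNReal.toReal_one]
    linarith
  have hpos : μ (ball x (4 * r))ᶜ ≠ 0 := by
    intro h0
    rw [h0] at hcompl
    simp only [ENNReal.toReal_zero] at hcompl
    linarith
  obtain ⟨ν', hν', hE'⟩ := piece hp hpq hΘ H hN isOpen_ball.isClosed_compl hpos
  haveI := hν'.1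
  rw [hcompl] at hE'
  have hfin' : En p ν' ν' ≠ ∞ := ne_top_of_le_ne_top ENNReal.ofReal_ne_top hE'
  obtain ⟨hvar, htop⟩ := energy_gap hp H hN hν hE inter_subset_left hν' hfin'
  set V := (VV p K).toReal with hV
  have hVE : VV p K = ENNReal.ofReal V := (ENNReal.ofReal_toReal htop).symm
  have hV0 : 0 ≤ V := ENNReal.toReal_nonneg
  have hVlow : Θ ≤ V + δ := by
    have := hN.near
    rw [hVE, ← ENNReal.ofReal_add hV0 hδ0, ENNReal.ofReal_le_ofReal_iff (by positivity)] at this
    exact this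
  have h0 : ν' (ball x (4 * r)) = 0 := by
    refine measure_mono_null ?_ hν'.2
    intro y hy hy2
    exact hy2.2 hy
  have hMG := MG hp ν ν' x hr h0
  have hc0 : 0 ≤ cMG n p r := by unfold cMG; positivity
  set B := Θ * (1 - m) ^ (-(p / q)) with hB
  have h1m : 0 < 1 - m := by linarith
  have hB0 : 0 ≤ B := by positivity
  set k := (ν (ball x r)).toReal with hk
  have hkE : ν (ball x r) = ENNReal.ofReal k := (ENNReal.ofReal_toReal (measure_ne_top _ _)).symm
  have hk0 : 0 ≤ k := ENNReal.toReal_nonneg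
  have h4 : ENNReal.ofReal (cMG n p r * k ^ 2 + 2 * V) ≤ ENNReal.ofReal (V + B) := by
    calc ENNReal.ofReal (cMG n p r * k ^ 2 + 2 * V)
        = ENNReal.ofReal (cMG n p r) * ν (ball x r) ^ 2 + 2 * VV p K := by
          rw [ENNReal.ofReal_add (by positivity) (by positivity), ENNReal.ofReal_mul hc0,
            ENNReal.ofReal_mul (by positivity), ENNReal.ofReal_pow hk0, hkE, hVE,
            ENNReal.ofReal_ofNat]
      _ ≤ ENNReal.ofReal (cMG n p r) * ν (ball x r) ^ 2 + 2 * En p ν ν' := by gcongr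
      _ ≤ En p ν ν + En p ν' ν' := hMG
      _ ≤ ENNReal.ofReal V + ENNReal.ofReal B := by
          rw [hE, hVE]
          gcongr
      _ = _ := by rw [ENNReal.ofReal_add hV0 hB0]
  rw [ENNReal.ofReal_le_ofReal_iff (by positivity)] at h4
  have hpq1 : p / q ≤ 1 := by rw [div_le_one hq]; exact hpq.le
  have h5 := one_sub_rpow_le (a := p / q) (by positivity) hpq1 hm0 hm2
  have h6 : B ≤ Θ * (1 + 4 * (p / q) * m) := by rw [hB]; gcongr
  have h7 : 4 * (p / q) * Θ * m ≤ 4 * (p / q) * Θ * (8 * r) ^ q := by gcongr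
  nlinarith

end RieszRatio
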