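import Mathlib
import Pool.Agent.Lib.MP_ce24da_an.NuBounds

/-!
# Potentials of measures of polynomial growth: pointwise lower bounds on the support
-/

open MeasureTheory Set Metric ENNReal Filter Topology
open scoped Pointwise NNReal BoundedContinuousFunction

set_option linter.style.haveILetI false

namespace RieszRatio

variable {n : ℕ}

/-- the Riesz potential -/
noncomputable def UU (p : ℝ) (ν : Measure (E n)) (x : E n) : ℝ≥0∞ := ∫⁻ y, (edist x y) ^ (-p) ∂ν

/-- the truncated Riesz potential -/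
noncomputable def Ur (p r : ℝ) (ν : Measure (E n)) (x : E n) : ℝ≥0∞ :=
  ∫⁻ y, (kt p r (x, y) : ℝ≥0∞) ∂ν

/-- growth condition -/
def Growth (C β r₀ : ℝ) (ν : Measure (E n)) : Prop :=
  ∀ x : E n, ∀ r : ℝ, 0 < r → r ≤ r₀ → ν (closedBall x r) ≤ ENNReal.ofReal (C * r ^ β)

lemma Ur_le_UU {p : ℝ} (hp : 0 < p) {r : ℝ} (hr : 0 < r) (ν : Measure (E n)) (x : E n) :
    Ur p r ν x ≤ UU p ν x := lintegral_mono fun y => kt_le_kernel hp hr (x, y)

lemma UU_le {p : ℝ} {r : ℝ} (hr : 0 < r) (ν : Measure (E n)) (x : E n) :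
    UU p ν x ≤ Ur p r ν x + ∫⁻ y in closedBall x r, (edist x y) ^ (-p) ∂ν := by
  unfold UU Ur
  rw [← lintegral_indicator measurableSet_closedBall, ← lintegral_add_right _ (by
    exact Measurable.indicator (by fun_prop) measurableSet_closedBall)]
  apply lintegral_mono
  intro y
  by_cases hy : y ∈ closedBall x r
  · simp only [indicator_of_mem hy]
    exact le_add_self
  · rw [mem_closedBall, not_le, dist_comm] at hy
    have := kt_eq_kernel (s := p) hr (x, y) hy.le
    simp only at this ⊢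
    rw [this]
    exact le_self_add

lemma near_le {p C β r₀ r : ℝ} (hp : 0 < p) (hβ : p < β) (hC : 0 ≤ C) (hr : 0 < r) (hrr : r ≤ r₀)
    {ν : Measure (E n)} (hg : Growth C β r₀ ν) (x : E n) :
    ∫⁻ y in closedBall x r, (edist x y) ^ (-p) ∂ν ≤ ENNReal.ofReal (C * cN p β * r ^ (β - p)) :=
  near_bound hp hβ hC hr fun t ht htr => hg x t ht (htr.trans hrr)

lemma Ur_continuous {p : ℝ} (hp : 0 < p) {r : ℝ} (hr : 0 < r) (ν : Measure (E n))
    [IsFiniteMeasure ν] : Continuous (Ur p r ν) := by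
  rw [continuous_iff_continuousAt]
  intro x
  unfold ContinuousAt Ur
  apply tendsto_lintegral_filter_of_dominated_convergence
    (fun _ => (Real.toNNReal (r ^ (-p)) : ℝ≥0∞))
  · exact Eventually.of_forall fun z => by
      exact ((kt_continuous p hr).comp (by fun_prop : Continuous fun y : E n => (z, y))
        ).measurable.coe_nnreal_ennreal
  · refine Eventually.of_forall fun z => Eventually.of_forall fun y => ?_
    exact_mod_cast kt_bound hp hr (z, y)
  · rw [lintegral_const]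
    exact ENNReal.mul_ne_top ENNReal.coe_ne_top (measure_ne_top _ _)
  · refine Eventually.of_forall fun y => ?_
    have : Continuous fun z : E n => kt p r (z, y) :=
      (kt_continuous p hr).comp (by fun_prop)
    exact (ENNReal.continuous_coe.comp this).tendsto x

lemma tendsto_near (p C β : ℝ) (hβ : p < β) :
    Tendsto (fun r : ℝ => ENNReal.ofReal (C * cN p β * r ^ (β - p))) (𝓝[>] 0) (𝓝 0) := by
  have h1 : Tendsto (fun r : ℝ => C * cN p β * r ^ (β - p)) (𝓝[>] 0) (𝓝 (C * cN p β * 0)) := by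
    refine Filter.Tendsto.const_mul _ ?_
    have := ((Real.continuousAt_rpow_const 0 (β - p) (Or.inr (by linarith))).tendsto).mono_left
      (nhdsWithin_le_nhds (s := Ioi (0:ℝ)))
    rwa [Real.zero_rpow (by linarith)] at this
  rw [mul_zero] at h1
  have := ENNReal.tendsto_ofReal h1
  simpa using this

/-- small radius with small near part -/
lemma exists_small_near {p C β r₀ : ℝ} (hp : 0 < p) (hβ : p < β) (hC : 0 ≤ C) (hr₀ : 0 < r₀)
    {ε : ℝ≥0∞} (hε : 0 < ε) :
    ∃ r : ℝ, 0 < r ∧ r ≤ r₀ ∧ ∀ ν : Measure (E n), Growth C β r₀ ν → ∀ x,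
      ∫⁻ y in closedBall x r, (edist x y) ^ (-p) ∂ν ≤ ε := by
  have h1 := (tendsto_near p C β hβ).eventually_lt_const hε
  have h2 : ∀ᶠ r in 𝓝[>] (0:ℝ), r ∈ Ioc 0 r₀ := Ioc_mem_nhdsGT hr₀
  obtain ⟨r, hr1, hr2⟩ := (h1.and h2).exists
  exact ⟨r, hr2.1, hr2.2, fun ν hν x => (near_le hp hβ hC hr2.1 hr2.2 hν x).trans hr1.le⟩

lemma exists_bump (x : E n) {τ : ℝ} (hτ : 0 < τ) : ∃ g : E n →ᵇ ℝ≥0,
    (∀ y ∈ closedBall x (τ / 2), g y = 1) ∧ (∀ y, y ∉ ball x τ → g y = 0) := by
  refine ⟨thickenedIndicator (half_pos hτ) (closedBall x (τ / 2)), ?_, ?_⟩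
  · intro y hy
    exact thickenedIndicator_one _ _ hy
  · intro y hy
    apply thickenedIndicator_zero
    intro h
    rw [mem_thickening_iff] at h
    obtain ⟨z, hz, hyz⟩ := h
    apply hy
    rw [mem_ball]
    have : dist z x ≤ τ / 2 := hz
    linarith [dist_triangle y z x]

theorem UU_ge_of_support {p C β r₀ : ℝ} (hp : 0 < p) (hβ : p < β) (hC : 0 ≤ C) (hr₀ : 0 < r₀)
    {μ ν : Measure (E n)} [IsFiniteMeasure μ] [IsFiniteMeasure ν] (hg : Growth C β r₀ ν)
    {Θe : ℝ≥0∞} (h4 : ∀ g : E n →ᵇ ℝ≥0, Θe * ∫⁻ y, g y ∂μ ≤ ∫⁻ y, g y * UU p ν y ∂μ)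
    {x : E n} (hx : x ∈ μ.support) : Θe ≤ UU p ν x := by
  by_contra hlt
  push Not at hlt
  obtain ⟨c, hc1, hc2⟩ := exists_between hlt
  obtain ⟨c', hc'1, hc'2⟩ := exists_between hc2
  have hε : 0 < c' - c := tsub_pos_of_lt hc'1
  obtain ⟨r, hr0, hrr, hnear⟩ := exists_small_near hp hβ hC hr₀ hε
  have hopen : IsOpen {y | Ur p r ν y < c} := isOpen_lt (Ur_continuous hp hr0 ν) continuous_const
  have hxmem : x ∈ {y | Ur p r ν y < c} := lt_of_le_of_lt (Ur_le_UU hp hr0 ν x) hc1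
  obtain ⟨τ, hτ, hball⟩ := Metric.isOpen_iff.1 hopen x hxmem
  have hUU : ∀ y ∈ ball x τ, UU p ν y ≤ c' := by
    intro y hy
    calc UU p ν y ≤ Ur p r ν y + ∫⁻ z in closedBall y r, (edist y z) ^ (-p) ∂ν := UU_le hr0 ν y
      _ ≤ c + (c' - c) := add_le_add (le_of_lt (hball hy)) (hnear ν hg y)
      _ = c' := add_tsub_cancel_of_le hc'1.le
  obtain ⟨g, hg1, hg0⟩ := exists_bump x hτ
  have hgpos : (∫⁻ y, g y ∂μ) ≠ 0 := by
    have h1 : μ (closedBall x (τ / 2)) ≤ ∫⁻ y, g y ∂μ := by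
      rw [← lintegral_indicator_one measurableSet_closedBall]
      apply lintegral_mono
      intro y
      by_cases hy : y ∈ closedBall x (τ / 2)
      · rw [indicator_of_mem hy]
        simp only [hg1 y hy]
        simp
      · rw [indicator_of_notMem hy]; exact bot_le
    have h2 : 0 < μ (closedBall x (τ / 2)) := by
      rw [Measure.mem_support_iff_forall] at hx
      exact hx _ (closedBall_mem_nhds x (half_pos hτ))
    exact (h2.trans_le h1).ne'
  have hgtop : (∫⁻ y, g y ∂μ) ≠ ∞ :=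
    (BoundedContinuousFunction.lintegral_lt_top_of_nnreal μ g).ne
  have h5 : Θe * ∫⁻ y, g y ∂μ ≤ c' * ∫⁻ y, g y ∂μ := by
    refine (h4 g).trans ?_
    rw [← lintegral_const_mul' _ _ (ne_top_of_lt hc'2)]
    apply lintegral_mono
    intro y
    by_cases hy : y ∈ ball x τ
    · simp only
      rw [mul_comm]
      gcongr
      exact hUU y hy
    · simp only
      rw [hg0 y hy]
      simp
  have h6 := (ENNReal.mul_le_mul_iff_left hgpos hgtop).1 h5
  exact absurd hc'2 (not_lt.2 h6)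

theorem UU_bounded {p C β r₀ : ℝ} (hp : 0 < p) (hβ : p < β) (hC : 0 ≤ C) (hr₀ : 0 < r₀)
    {ν : Measure (E n)} [IsProbabilityMeasure ν] (hg : Growth C β r₀ ν)
    {Θ : ℝ} (hΘ : 0 < Θ) : ∃ R : ℝ, ∀ x, ENNReal.ofReal Θ ≤ UU p ν x → x ∈ closedBall (0 : E n) R := by
  obtain ⟨r, hr0, hrr, hnear⟩ := exists_small_near (n := n) hp hβ hC hr₀ (ε := ENNReal.ofReal (Θ / 4))
    (by simpa using hΘ)
  set L : ℝ := (Θ / 4) ^ (-(1 / p)) with hL
  have hL0 : 0 < L := by positivity
  have hLe : L ^ (-p) = Θ / 4 := by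
    rw [hL, ← Real.rpow_mul (by positivity), show -(1 / p) * -p = 1 by field_simp, Real.rpow_one]
  have hrp : 0 < r ^ (-p) := by positivity
  obtain ⟨K, hK, hKν⟩ := (isTightMeasureSet_iff_exists_isCompact_measure_compl_le.1
    (isTightMeasureSet_singleton (μ := ν))) (ENNReal.ofReal (Θ / 4 / r ^ (-p))) (by
      simp only [ENNReal.ofReal_pos]; positivity)
  obtain ⟨R₁, hR₁⟩ : ∃ R : ℝ, K ⊆ closedBall 0 R := hK.isBounded.subset_closedBall 0
  have hν1 : ν (closedBall 0 R₁)ᶜ ≤ ENNReal.ofReal (Θ / 4 / r ^ (-p)) :=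
    (measure_mono (compl_subset_compl.2 hR₁)).trans (hKν ν rfl)
  refine ⟨R₁ + L, ?_⟩
  intro x hx
  by_contra hxR
  rw [mem_closedBall, not_le] at hxR
  have h1 : Ur p r ν x ≤ ENNReal.ofReal (Θ / 4) + ENNReal.ofReal (Θ / 4) := by
    unfold Ur
    rw [← lintegral_add_compl _ (measurableSet_closedBall (x := (0 : E n)) (ε := R₁))]
    gcongr
    · calc ∫⁻ y in closedBall 0 R₁, (kt p r (x, y) : ℝ≥0∞) ∂ν
          ≤ ∫⁻ y in closedBall 0 R₁, ENNReal.ofReal (Θ / 4) ∂ν := by
            apply setLIntegral_mono' measurableSet_closedBall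
            intro y hy
            refine (kt_le_kernel hp hr0 (x, y)).trans ?_
            rw [← hLe, ← ENNReal.ofReal_rpow_of_pos hL0]
            apply rpow_neg_anti hp.le
            rw [edist_dist]
            apply ENNReal.ofReal_le_ofReal
            have h1 : dist y 0 ≤ R₁ := hy
            simp only
            linarith [dist_triangle x y 0]
        _ = ENNReal.ofReal (Θ / 4) * ν (closedBall 0 R₁) := by rw [setLIntegral_const]
        _ ≤ ENNReal.ofReal (Θ / 4) * 1 := by gcongr; exact prob_le_one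
        _ = _ := mul_one _
    · calc ∫⁻ y in (closedBall 0 R₁)ᶜ, (kt p r (x, y) : ℝ≥0∞) ∂ν
          ≤ ∫⁻ y in (closedBall 0 R₁)ᶜ, ENNReal.ofReal (r ^ (-p)) ∂ν := by
            apply setLIntegral_mono' measurableSet_closedBall.compl
            intro y hy
            exact ENNReal.coe_le_coe.2 (kt_bound hp hr0 (x, y))
        _ = ENNReal.ofReal (r ^ (-p)) * ν (closedBall 0 R₁)ᶜ := by rw [setLIntegral_const]
        _ ≤ ENNReal.ofReal (r ^ (-p)) * ENNReal.ofReal (Θ / 4 / r ^ (-p)) := by gcongr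
        _ = _ := by
            rw [← ENNReal.ofReal_mul hrp.le]
            congr 1
            field_simp
  have h2 : ENNReal.ofReal Θ ≤ ENNReal.ofReal (Θ / 4 + Θ / 4 + Θ / 4) := by
    calc ENNReal.ofReal Θ ≤ UU p ν x := hx
      _ ≤ Ur p r ν x + ∫⁻ z in closedBall x r, (edist x z) ^ (-p) ∂ν := UU_le hr0 ν x
      _ ≤ (ENNReal.ofReal (Θ / 4) + ENNReal.ofReal (Θ / 4)) + ENNReal.ofReal (Θ / 4) :=
        add_le_add h1 (hnear ν hg x)
      _ = _ := by rw [← ENNReal.ofReal_add (by positivity) (by positivity),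
        ← ENNReal.ofReal_add (by positivity) (by positivity)]
  rw [ENNReal.ofReal_le_ofReal_iff (by positivity)] at h2
  linarith

/-- a lower bound for the least energy from a lower bound for a potential -/
theorem VV_ge_of_UU [NeZero n] {p : ℝ} (hp : 0 < p) {ν : Measure (E n)} [IsFiniteMeasure ν] {Θ : ℝ}
    (hΘ : 0 ≤ Θ) (hν : En p ν ν ≤ ENNReal.ofReal Θ) {K : Set (E n)}
    (hU : ∀ x ∈ K, ENNReal.ofReal Θ ≤ UU p ν x) : ENNReal.ofReal Θ ≤ VV p K := by
  apply le_iInf₂
  intro σ hσ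
  haveI := hσ.1
  have h1 : ENNReal.ofReal Θ ≤ En p σ ν := by
    unfold En
    rw [lintegral_prod _ (measurable_kernel p).aemeasurable]
    calc ENNReal.ofReal Θ = ∫⁻ _, ENNReal.ofReal Θ ∂σ := by
          rw [lintegral_const, measure_univ, mul_one]
      _ ≤ ∫⁻ x, ∫⁻ y, (edist x y) ^ (-p) ∂ν ∂σ := by
          apply lintegral_mono_ae
          have : ∀ᵐ x ∂σ, x ∈ K := by rw [ae_iff]; exact hσ.2
          filter_upwards [this] with x hx
          exact hU x hx
  have h2 := quad1 hp σ ν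
  by_cases htop : En p σ σ = ∞
  · rw [htop]; exact le_top
  set b := (En p σ σ).toReal with hb
  have hbE : En p σ σ = ENNReal.ofReal b := (ENNReal.ofReal_toReal htop).symm
  have hb0 : 0 ≤ b := ENNReal.toReal_nonneg
  have h3 : ENNReal.ofReal (2 * Θ) ≤ ENNReal.ofReal (b + Θ) := by
    calc ENNReal.ofReal (2 * Θ) = 2 * ENNReal.ofReal Θ := by
          rw [ENNReal.ofReal_mul (by norm_num), ENNReal.ofReal_ofNat]
      _ ≤ 2 * En p σ ν := by gcongr
      _ ≤ En p σ σ + En p ν ν := h2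
      _ ≤ ENNReal.ofReal b + ENNReal.ofReal Θ := by rw [hbE]; gcongr
      _ = _ := by rw [ENNReal.ofReal_add hb0 hΘ]
  rw [ENNReal.ofReal_le_ofReal_iff (by positivity)] at h3
  rw [hbE]
  exact ENNReal.ofReal_le_ofReal (by linarith)

end RieszRatio
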