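import Mathlib
import Pool.Agent.Lib.MP_ce24da_an.PotLim

/-!
# The optimal constant and near-optimal sequences
-/

open MeasureTheory Set Metric ENNReal Filter Topology
open scoped Pointwise NNReal BoundedContinuousFunction

set_option linter.style.haveILetI false

namespace RieszRatio

variable {n : ℕ}

lemma VV_empty (s : ℝ) : VV s (∅ : Set (E n)) = ∞ := by
  unfold VV
  simp only [iInf_eq_top]
  intro μ hμ
  exfalso
  haveI := hμ.1
  have h1 := hμ.2
  rw [compl_empty, measure_univ] at h1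
  exact one_ne_zero h1

lemma nonempty_of_VV {s : ℝ} {K : Set (E n)} (h : VV s K ≠ ∞) : K.Nonempty := by
  rw [nonempty_iff_ne_empty]
  rintro rfl
  exact h (VV_empty s)

/-- the optimal constant -/
noncomputable def ThE (n : ℕ) (p q : ℝ) : ℝ≥0∞ :=
  ⨆ (K : Set (E n)) (_ : IsCompact K) (_ : VV q K ≠ ∞), VV p K / (VV q K) ^ (p / q)

theorem opt_exists [NeZero n] {p q : ℝ} (hp : 0 < p) (hpq : p < q) (hqn : q < n) :
    ∃ Θ : ℝ, 0 < Θ ∧ Θ ≤ 1 ∧ Opt n p q Θ ∧
      ∀ δ : ℝ, 0 < δ → ∃ (K : Set (E n)) (μ : Measure (E n)), Near p q Θ δ K μ := by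
  have hq : 0 < q := hp.trans hpq
  have hs : 0 < p / q := by positivity
  have hle1 : ThE n p q ≤ 1 := by
    refine iSup_le fun K => iSup_le fun hK => iSup_le fun hV => ?_
    have h1 := VV_jensen hp hpq hK (nonempty_of_VV hV)
    exact ENNReal.div_le_of_le_mul (by rw [one_mul]; exact h1)
  have htop : ThE n p q ≠ ∞ := ne_top_of_le_ne_top ENNReal.one_ne_top hle1
  have hball : VV q (closedBall (0 : E n) 1) ≠ ∞ := VV_ball_ne_top hq hqn
  have hpos : ThE n p q ≠ 0 := by
    have h1 : VV p (closedBall (0 : E n) 1) / (VV q (closedBall (0 : E n) 1)) ^ (p / q) ≤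
        ThE n p q := by
      unfold ThE
      exact le_iSup_of_le _ (le_iSup_of_le (isCompact_closedBall _ _) (le_iSup_of_le hball le_rfl))
    intro h0
    rw [h0] at h1
    have h2 := le_antisymm h1 bot_le
    rw [ENNReal.div_eq_zero_iff] at h2
    rcases h2 with h2 | h2
    · exact VV_pos hp (isCompact_closedBall _ _) h2
    · exact ENNReal.rpow_ne_top_of_nonneg hs.le hball h2
  set Θ := (ThE n p q).toReal with hΘ
  have hΘE : ThE n p q = ENNReal.ofReal Θ := (ENNReal.ofReal_toReal htop).symm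
  have hΘ0 : 0 < Θ := ENNReal.toReal_pos hpos htop
  refine ⟨Θ, hΘ0, ?_, ?_, ?_⟩
  · have := ENNReal.toReal_mono ENNReal.one_ne_top hle1
    simpa using this
  · intro K hK hV
    have h1 : VV p K / (VV q K) ^ (p / q) ≤ ThE n p q := by
      unfold ThE
      exact le_iSup_of_le _ (le_iSup_of_le hK (le_iSup_of_le hV le_rfl))
    rw [← hΘE]
    rw [ENNReal.div_le_iff_le_mul] at h1
    · exact h1
    · left
      rw [Ne, ENNReal.rpow_eq_zero_iff]
      push Not
      exact ⟨fun h => absurd h (VV_pos hq hK), fun h => absurd h hV⟩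
    · left
      exact ENNReal.rpow_ne_top_of_nonneg hs.le hV
  · intro δ hδ
    have h1 : ThE n p q - ENNReal.ofReal δ < ThE n p q :=
      ENNReal.sub_lt_self htop hpos (by simpa using hδ)
    nth_rw 2 [ThE] at h1
    simp only [lt_iSup_iff] at h1
    obtain ⟨K, hK, hV, h1⟩ := h1
    have h2 : ThE n p q ≤ VV p K / (VV q K) ^ (p / q) + ENNReal.ofReal δ :=
      tsub_le_iff_right.1 h1.le
    set v := (VV q K).toReal with hv
    have hv0 : 0 < v := ENNReal.toReal_pos (VV_pos hq hK) hV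
    have hvE : VV q K = ENNReal.ofReal v := (ENNReal.ofReal_toReal hV).symm
    set c := v ^ (1 / q) with hc
    have hc0 : 0 < c := by positivity
    have hcq : c ^ (-q) = v⁻¹ := by
      rw [hc, ← Real.rpow_mul hv0.le, show 1 / q * -q = -1 by field_simp, Real.rpow_neg_one]
    have hcp : c ^ (-p) = v ^ (-(p / q)) := by
      rw [hc, ← Real.rpow_mul hv0.le]; congr 1; field_simp
    have hK' : IsCompact (simil c 0 K) := simil_compact hK
    have hVq : VV q (simil c 0 K) = 1 := by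
      rw [VV_simil hq hc0 0 hK, hcq, hvE, ← ENNReal.ofReal_mul (by positivity),
        inv_mul_cancel₀ hv0.ne', ENNReal.ofReal_one]
    have hVp : VV p (simil c 0 K) = VV p K / (VV q K) ^ (p / q) := by
      rw [VV_simil hp hc0 0 hK, hcp, hvE, ENNReal.ofReal_rpow_of_pos hv0,
        Real.rpow_neg hv0.le, ENNReal.ofReal_inv_of_pos (by positivity), mul_comm,
        ENNReal.div_eq_inv_mul, mul_comm]
    obtain ⟨μ, hμ, hE⟩ := exists_equil hq hK' (nonempty_of_VV (s := q) (by rw [hVq]; simp))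
    refine ⟨simil c 0 K, μ, hK', hμ, hE, hVq, ?_⟩
    rw [← hΘE, hVp]
    exact h2

lemma near_translate {p q Θ δ : ℝ} (hp : 0 < p) (hq : 0 < q) {K : Set (E n)} {μ : Measure (E n)}
    (hN : Near p q Θ δ K μ) (x : E n) {c : ℝ≥0∞} {ρ : ℝ} (h : c ≤ μ (closedBall x ρ)) :
    ∃ (K' : Set (E n)) (μ' : Measure (E n)), Near p q Θ δ K' μ' ∧ c ≤ μ' (closedBall 0 ρ) := by
  haveI := hN.mem.1
  have hcont : Continuous (fun y : E n => (1:ℝ) • (y - x)) := by fun_prop
  refine ⟨simil 1 x K, μ.map (fun y => (1:ℝ) • (y - x)), ?_, ?_⟩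
  · have hVq : VV q (simil 1 x K) = VV q K := by
      rw [VV_simil hq one_pos x hN.compact]; simp
    have hVp : VV p (simil 1 x K) = VV p K := by
      rw [VV_simil hp one_pos x hN.compact]; simp
    refine ⟨simil_compact hN.compact, ?_, ?_, ?_, ?_⟩
    · exact map_mem_PP hcont (simil_compact hN.compact).measurableSet (mapsTo_image _ _) hN.mem
    · rw [En_map hq hcont one_pos (dist_simil one_pos x), hVq]
      simp [hN.equil]
    · rw [hVq, hN.one]
    · rw [hVp]; exact hN.near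
  · rw [Measure.map_apply hcont.measurable measurableSet_closedBall]
    refine h.trans (measure_mono ?_)
    intro y hy
    simp only [mem_preimage, mem_closedBall, one_smul, dist_zero_right]
    rw [← dist_eq_norm]
    exact hy

/-- well centred near-optimal sequence -/
theorem exists_seq [NeZero n] {p q : ℝ} (hp : 0 < p) (hpq : p < q) (hqn : q < n) :
    ∃ Θ : ℝ, 0 < Θ ∧ Θ ≤ 1 ∧ Opt n p q Θ ∧ ∃ ρ c : ℝ, 0 < ρ ∧ 0 < c ∧
      ∃ (K : ℕ → Set (E n)) (μ : ℕ → Measure (E n)),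
        ∀ j : ℕ, Near p q Θ (Θ / 4 / ((j:ℝ) + 1)) (K j) (μ j) ∧
          ENNReal.ofReal c ≤ μ j (closedBall 0 ρ) := by
  obtain ⟨Θ, hΘ0, hΘ1, hOpt, hex⟩ := opt_exists (n := n) hp hpq hqn
  obtain ⟨ρ, hρ, c, hc, hnv⟩ := nonvanish (n := n) hp hpq hΘ0
  refine ⟨Θ, hΘ0, hΘ1, hOpt, ρ, c, hρ, hc, ?_⟩
  have h1 : ∀ j : ℕ, ∃ (K : Set (E n)) (μ : Measure (E n)),
      Near p q Θ (Θ / 4 / ((j:ℝ) + 1)) K μ ∧ ENNReal.ofReal c ≤ μ (closedBall 0 ρ) := by
    intro j
    obtain ⟨K, μ, hN⟩ := hex (Θ / 4 / ((j:ℝ) + 1)) (by positivity)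
    obtain ⟨x, hx⟩ := hnv K μ _ (by
      have : Θ / 4 / ((j:ℝ) + 1) ≤ Θ / 4 := by
        apply div_le_self (by positivity)
        have : (0:ℝ) ≤ j := Nat.cast_nonneg j
        linarith
      linarith) hN
    exact near_translate hp (hp.trans hpq) hN x hx
  choose K μ h using h1
  exact ⟨K, μ, h⟩

end RieszRatio
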