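import Mathlib
import Pool.Agent.Lib.MP_ce24da_an.OptSeq

/-!
# Passing to the limit in near-optimal configurations
-/

open MeasureTheory Set Metric ENNReal Filter Topology
open scoped Pointwise NNReal BoundedContinuousFunction

set_option linter.style.haveILetI false

namespace RieszRatio

variable {n : ℕ}

/-- growth constant for the `p`-equilibrium measures -/
noncomputable def Cst (n : ℕ) (q : ℝ) : ℝ := Real.sqrt (4 / q * 16 ^ q * 4 ^ q * 3 ^ ((n:ℝ) + q + 1))

/-- growth radius for the `p`-equilibrium measures -/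
noncomputable def rst (q : ℝ) : ℝ := (1 / 2) ^ (1 / q) / 16

lemma rst_pos (q : ℝ) : 0 < rst q := by unfold rst; positivity

lemma Cst_nonneg (n : ℕ) (q : ℝ) : 0 ≤ Cst n q := Real.sqrt_nonneg _

lemma growth_of_bound {p q Θ : ℝ} (hp : 0 < p) (hpq : p < q) (hΘ1 : Θ ≤ 1)
    {ν : Measure (E n)} [IsFiniteMeasure ν]
    (h : ∀ x : E n, ∀ r : ℝ, 0 < r → (8 * r) ^ q ≤ 1 / 2 →
      cMG n p r * (ν (ball x r)).toReal ^ 2 ≤ 4 * (p / q) * Θ * (8 * r) ^ q) :
    Growth (Cst n q) ((p + q) / 2) (rst q) ν := by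
  have hq : 0 < q := hp.trans hpq
  intro x r hr hrr
  have h16 : (8 * (2 * r)) ^ q ≤ 1 / 2 := by
    have h1 : 8 * (2 * r) ≤ (1 / 2) ^ (1 / q) := by
      unfold rst at hrr
      rw [le_div_iff₀ (by norm_num)] at hrr
      linarith
    calc (8 * (2 * r)) ^ q ≤ ((1 / 2 : ℝ) ^ (1 / q)) ^ q :=
          Real.rpow_le_rpow (by positivity) h1 hq.le
      _ = 1 / 2 := by
          rw [← Real.rpow_mul (by norm_num), one_div_mul_cancel hq.ne', Real.rpow_one]
  have h1 := h x (2 * r) (by positivity) h16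
  set k := (ν (ball x (2 * r))).toReal with hk
  have hk0 : 0 ≤ k := ENNReal.toReal_nonneg
  have hc : 0 < cMG n p (2 * r) := by unfold cMG; positivity
  have h2 : k ^ 2 ≤ (Cst n q * r ^ ((p + q) / 2)) ^ 2 := by
    have e1 : (Cst n q * r ^ ((p + q) / 2)) ^ 2 =
        4 / q * 16 ^ q * 4 ^ q * 3 ^ ((n:ℝ) + q + 1) * r ^ (p + q) := by
      rw [mul_pow]
      unfold Cst
      rw [Real.sq_sqrt (by positivity), ← Real.rpow_natCast (r ^ ((p + q) / 2)),
        ← Real.rpow_mul hr.le]
      congr 2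
      push_cast; ring
    rw [e1]
    have h3 : k ^ 2 ≤ 4 * (p / q) * Θ * (8 * (2 * r)) ^ q / cMG n p (2 * r) := by
      rw [le_div_iff₀ hc]; linarith
    refine h3.trans ?_
    rw [div_le_iff₀ hc]
    unfold cMG
    have e2 : (8 * (2 * r)) ^ q = 16 ^ q * r ^ q := by
      rw [← Real.mul_rpow (by norm_num) hr.le]; congr 1; ring
    have e3 : (2 * r) ^ (-p) = 2 ^ (-p) * r ^ (-p) := Real.mul_rpow (by norm_num) hr.le
    have e4 : r ^ (p + q) * r ^ (-p) = r ^ q := by
      rw [← Real.rpow_add hr]; congr 1; ring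
    have e5 : (1:ℝ) ≤ 4 ^ q * (2 ^ (-p) * 2 ^ (-p)) := by
      have h4 : (4:ℝ) ^ q = 2 ^ q * 2 ^ q := by
        rw [← Real.mul_rpow (by norm_num) (by norm_num)]; norm_num
      have h5 : (1:ℝ) ≤ 2 ^ q * 2 ^ (-p) := by
        rw [← Real.rpow_add (by norm_num)]
        exact Real.one_le_rpow (by norm_num) (by linarith)
      calc (1:ℝ) = 1 * 1 := by ring
        _ ≤ (2 ^ q * 2 ^ (-p)) * (2 ^ q * 2 ^ (-p)) := by gcongr
        _ = _ := by rw [h4]; ring
    have e6 : (1:ℝ) ≤ 3 ^ ((n:ℝ) + q + 1) * 3 ^ (-((n:ℝ) + p + 1)) := by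
      rw [← Real.rpow_add (by norm_num)]
      exact Real.one_le_rpow (by norm_num) (by linarith)
    rw [e2, e3]
    calc 4 * (p / q) * Θ * (16 ^ q * r ^ q) ≤ 4 * (p / q) * 1 * (16 ^ q * r ^ q) := by gcongr
      _ = (4 / q * 16 ^ q * p * r ^ q) * (1 * 1) := by field_simp
      _ ≤ (4 / q * 16 ^ q * p * r ^ q) * ((4 ^ q * (2 ^ (-p) * 2 ^ (-p))) *
          (3 ^ ((n:ℝ) + q + 1) * 3 ^ (-((n:ℝ) + p + 1)))) := by gcongr
      _ = _ := by rw [← e4]; ring
  have h3 : k ≤ Cst n q * r ^ ((p + q) / 2) := by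
    have h4 : 0 ≤ Cst n q * r ^ ((p + q) / 2) := by
      have := Cst_nonneg n q
      positivity
    exact le_of_sq_le_sq h2 h4
  calc ν (closedBall x r) ≤ ν (ball x (2 * r)) :=
        measure_mono (closedBall_subset_ball (by linarith))
    _ = ENNReal.ofReal k := (ENNReal.ofReal_toReal (measure_ne_top _ _)).symm
    _ ≤ _ := ENNReal.ofReal_le_ofReal h3

lemma growth_mu [NeZero n] {p q Θ δ : ℝ} (hq : 0 < q) {K : Set (E n)} {μ : Measure (E n)}
    (hN : Near p q Θ δ K μ) (r₀ : ℝ) : Growth (2 ^ q) q r₀ μ := by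
  intro x r hr _
  have := equil_growth hq hN.mem hN.equil hN.one x hr
  rwa [Real.mul_rpow (by norm_num) hr.le] at this

/-- the variational inequality tested with a density -/
lemma test_density [NeZero n] {p q Θ δ : ℝ} (hp : 0 < p) (hpq : p < q)
    (H : Opt n p q Θ) {K : Set (E n)} {μ ν : Measure (E n)} (hN : Near p q Θ δ K μ)
    (hν : ν ∈ PP K) (hE : En p ν ν = VV p K) (g : E n →ᵇ ℝ≥0) :
    VV p K * ∫⁻ y, g y ∂μ ≤ ∫⁻ z, (edist z.1 z.2) ^ (-p) * g z.2 ∂(ν.prod μ) := by
  have hq : 0 < q := hp.trans hpq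
  haveI := hN.mem.1
  haveI := hν.1
  have hgm : Measurable (fun y => (g y : ℝ≥0∞)) := g.continuous.measurable.coe_nnreal_ennreal
  set σ := μ.withDensity (fun y => (g y : ℝ≥0∞)) with hσ
  haveI : IsFiniteMeasure σ := isFiniteMeasure_withDensity
    (BoundedContinuousFunction.lintegral_lt_top_of_nnreal μ g).ne
  have htop : VV p K ≠ ∞ := ne_top_of_le_ne_top ENNReal.ofReal_ne_top (hN.VV_le H)
  set M : ℝ≥0∞ := ((nndist g 0 : ℝ≥0) : ℝ≥0∞) with hM
  have hle : σ ≤ M • μ := by
    rw [← withDensity_const]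
    apply withDensity_mono
    refine Eventually.of_forall fun y => ?_
    exact ENNReal.coe_le_coe.2 (BoundedContinuousFunction.NNReal.upper_bound g y)
  have hmu : En p μ μ ≠ ∞ := by
    refine ne_top_of_le_ne_top ?_ (En_jensen hp hpq μ)
    rw [hN.equil, hN.one]; simp
  have hσE : En p σ σ ≠ ∞ := by
    refine ne_top_of_le_ne_top ?_ (En_mono p hle hle)
    rw [En_smul_left, En_smul_right]
    exact ENNReal.mul_ne_top ENNReal.coe_ne_top (ENNReal.mul_ne_top ENNReal.coe_ne_top hmu)
  have hσK : σ Kᶜ = 0 := withDensity_absolutelyContinuous _ _ hN.mem.2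
  have h1 := variation_meas hp hν hE htop hσK hσE
  rw [hσ, withDensity_apply _ MeasurableSet.univ, Measure.restrict_univ] at h1
  refine h1.trans (le_of_eq ?_)
  unfold En
  rw [prod_withDensity_right hgm, lintegral_withDensity_eq_lintegral_mul _ (by fun_prop)
    (measurable_kernel p)]
  apply lintegral_congr
  intro z
  simp only [Pi.mul_apply]
  ring

/-- splitting of the tested mutual energy -/
lemma test_split {p C β r₀ r : ℝ} (hp : 0 < p) (hβ : p < β) (hC : 0 ≤ C) (hr : 0 < r)
    (hrr : r ≤ r₀) {μ ν : Measure (E n)} [IsProbabilityMeasure ν] [IsFiniteMeasure μ]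
    (hg : Growth C β r₀ μ) (g : E n →ᵇ ℝ≥0) :
    ∫⁻ z, (edist z.1 z.2) ^ (-p) * g z.2 ∂(ν.prod μ) ≤
      ∫⁻ z, (kt p r z : ℝ≥0∞) * g z.2 ∂(ν.prod μ) +
      ENNReal.ofReal (C * cN p β * r ^ (β - p)) * ((nndist g 0 : ℝ≥0) : ℝ≥0∞) := by
  have hgm : Measurable (fun y => (g y : ℝ≥0∞)) := g.continuous.measurable.coe_nnreal_ennreal
  set M : ℝ≥0∞ := ((nndist g 0 : ℝ≥0) : ℝ≥0∞) with hM
  have hm : MeasurableSet {z : E n × E n | dist z.2 z.1 ≤ r} :=
    (isClosed_le (by fun_prop) (by fun_prop)).measurableSet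
  have hmk : Measurable (fun z : E n × E n =>
      {z : E n × E n | dist z.2 z.1 ≤ r}.indicator (fun z => (edist z.1 z.2) ^ (-p) * M) z) :=
    Measurable.indicator (by fun_prop) hm
  calc ∫⁻ z, (edist z.1 z.2) ^ (-p) * g z.2 ∂(ν.prod μ)
      ≤ ∫⁻ z, ((kt p r z : ℝ≥0∞) * g z.2 +
        {z : E n × E n | dist z.2 z.1 ≤ r}.indicator (fun z => (edist z.1 z.2) ^ (-p) * M) z)
          ∂(ν.prod μ) := by
        apply lintegral_mono
        intro z
        have hgz : (g z.2 : ℝ≥0∞) ≤ M := by
          exact ENNReal.coe_le_coe.2 (BoundedContinuousFunction.NNReal.upper_bound g z.2)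
        by_cases hz : dist z.2 z.1 ≤ r
        · simp only
          rw [indicator_of_mem (by exact hz)]
          refine le_trans ?_ le_add_self
          gcongr
        · simp only
          rw [indicator_of_notMem (by exact hz), add_zero]
          push Not at hz
          rw [kt_eq_kernel hr z (by rw [dist_comm]; exact hz.le)]
    _ = ∫⁻ z, (kt p r z : ℝ≥0∞) * g z.2 ∂(ν.prod μ) +
        ∫⁻ z, {z : E n × E n | dist z.2 z.1 ≤ r}.indicator
          (fun z => (edist z.1 z.2) ^ (-p) * M) z ∂(ν.prod μ) := lintegral_add_right _ hmk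
    _ ≤ _ := by
        gcongr
        rw [lintegral_prod _ hmk.aemeasurable]
        calc ∫⁻ x, ∫⁻ y, {z : E n × E n | dist z.2 z.1 ≤ r}.indicator
              (fun z => (edist z.1 z.2) ^ (-p) * M) (x, y) ∂μ ∂ν
            ≤ ∫⁻ _, ENNReal.ofReal (C * cN p β * r ^ (β - p)) * M ∂ν := by
              apply lintegral_mono
              intro x
              have e : ∀ y, {z : E n × E n | dist z.2 z.1 ≤ r}.indicator
                  (fun z => (edist z.1 z.2) ^ (-p) * M) (x, y) =
                  (closedBall x r).indicator (fun y => (edist x y) ^ (-p) * M) y := by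
                intro y
                by_cases hy : dist y x ≤ r
                · rw [indicator_of_mem (by exact hy), indicator_of_mem (by exact hy)]
                · rw [indicator_of_notMem (by exact hy), indicator_of_notMem (by exact hy)]
              simp_rw [e]
              rw [lintegral_indicator measurableSet_closedBall, lintegral_mul_const _ (by fun_prop)]
              gcongr
              exact near_le hp hβ hC hr hrr hg x
          _ = _ := by rw [lintegral_const, measure_univ, mul_one]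


lemma sup_bound_ne_top (g : E n →ᵇ ℝ≥0) : ((nndist g 0 : ℝ≥0) : ℝ≥0∞) ≠ ∞ := ENNReal.coe_ne_top

/-- limits of near-optimal configurations are optimal -/
theorem limit_facts [NeZero n] {p q Θ : ℝ} (hp : 0 < p) (hpq : p < q) (hΘ : 0 < Θ) (hΘ1 : Θ ≤ 1)
    (H : Opt n p q Θ) {K : ℕ → Set (E n)} {P N : ℕ → ProbabilityMeasure (E n)} {δ : ℕ → ℝ}
    (hδ0 : ∀ j, 0 ≤ δ j) (hδ : Tendsto δ atTop (𝓝 0))
    (hN : ∀ j, Near p q Θ (δ j) (K j) (P j)) (hν : ∀ j, (N j : Measure (E n)) ∈ PP (K j))
    (hE : ∀ j, En p (N j : Measure (E n)) (N j) = VV p (K j))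
    {μ' ν' : ProbabilityMeasure (E n)} (hμ' : Tendsto P atTop (𝓝 μ'))
    (hν' : Tendsto N atTop (𝓝 ν')) :
    Near p q Θ 0 (μ' : Measure (E n)).support μ' := by
  have hq : 0 < q := hp.trans hpq
  have hβ : p < (p + q) / 2 := by linarith
  -- energies
  have hqE : En q (μ' : Measure (E n)) μ' ≤ 1 := by
    apply En_le_of_tendsto hq hμ' hμ'
    exact Eventually.of_forall fun j => by rw [(hN j).equil, (hN j).one]
  have hpE : En p (ν' : Measure (E n)) ν' ≤ ENNReal.ofReal Θ := by
    apply En_le_of_tendsto hp hν' hν'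
    exact Eventually.of_forall fun j => by rw [hE j]; exact (hN j).VV_le H
  -- growth of the limit
  have hgrowth : Growth (Cst n q) ((p + q) / 2) (rst q) (ν' : Measure (E n)) := by
    apply growth_of_bound hp hpq hΘ1
    intro x r hr hr8
    have hc : 0 < cMG n p r := by unfold cMG; positivity
    have h1 : ∀ j, ((N j : Measure (E n)) (ball x r)) ≤
        ENNReal.ofReal (Real.sqrt ((4 * (p / q) * Θ * (8 * r) ^ q + δ j) / cMG n p r)) := by
      intro j
      have h2 := nu_growth hp hpq hΘ (hδ0 j) H (hN j) (hν j) (hE j) x hr hr8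
      rw [← ENNReal.ofReal_toReal (measure_ne_top (N j : Measure (E n)) (ball x r))]
      apply ENNReal.ofReal_le_ofReal
      apply Real.le_sqrt_of_sq_le
      rw [le_div_iff₀ hc]
      linarith
    have h3 : Tendsto (fun j => ENNReal.ofReal
        (Real.sqrt ((4 * (p / q) * Θ * (8 * r) ^ q + δ j) / cMG n p r))) atTop
        (𝓝 (ENNReal.ofReal (Real.sqrt ((4 * (p / q) * Θ * (8 * r) ^ q + 0) / cMG n p r)))) := by
      apply ENNReal.tendsto_ofReal
      apply (Real.continuous_sqrt.tendsto _).comp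
      exact (tendsto_const_nhds.add hδ).div_const _
    have h4 := ProbabilityMeasure.le_liminf_measure_open_of_tendsto hν'
      (isOpen_ball (x := x) (ε := r))
    have h5 : (ν' : Measure (E n)) (ball x r) ≤
        ENNReal.ofReal (Real.sqrt ((4 * (p / q) * Θ * (8 * r) ^ q + 0) / cMG n p r)) := by
      refine h4.trans ?_
      rw [← h3.liminf_eq]
      exact liminf_le_liminf (Eventually.of_forall h1)
    rw [add_zero] at h5
    have h6 := ENNReal.toReal_le_of_le_ofReal (Real.sqrt_nonneg _) h5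
    have h7 : ((ν' : Measure (E n)) (ball x r)).toReal ^ 2 ≤
        4 * (p / q) * Θ * (8 * r) ^ q / cMG n p r := by
      calc _ ≤ (Real.sqrt (4 * (p / q) * Θ * (8 * r) ^ q / cMG n p r)) ^ 2 := by
            gcongr
        _ = _ := Real.sq_sqrt (by positivity)
    rw [le_div_iff₀ hc] at h7
    linarith
  -- the potential inequality
  have htest : ∀ g : E n →ᵇ ℝ≥0, ENNReal.ofReal Θ * ∫⁻ y, g y ∂(μ' : Measure (E n)) ≤
      ∫⁻ y, g y * UU p (ν' : Measure (E n)) y ∂(μ' : Measure (E n)) := by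
    intro g
    have hgm : Measurable (fun y => (g y : ℝ≥0∞)) := g.continuous.measurable.coe_nnreal_ennreal
    set M : ℝ≥0∞ := ((nndist g 0 : ℝ≥0) : ℝ≥0∞) with hM
    have hMt : M ≠ ∞ := sup_bound_ne_top g
    have hprod : Tendsto (fun j => (N j).prod (P j)) atTop (𝓝 (ν'.prod μ')) :=
      (ProbabilityMeasure.continuous_prod.tendsto (ν', μ')).comp (hν'.prodMk_nhds hμ')
    have hstep : ∀ r : ℝ, 0 < r →
        ENNReal.ofReal Θ * ∫⁻ y, g y ∂(μ' : Measure (E n)) ≤
          ∫⁻ y, g y * UU p (ν' : Measure (E n)) y ∂(μ' : Measure (E n)) +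
          ENNReal.ofReal (2 ^ q * cN p q * r ^ (q - p)) * M := by
      intro r hr
      have hleft : Tendsto (fun j => ENNReal.ofReal Θ * ∫⁻ y, g y ∂(P j : Measure (E n))) atTop
          (𝓝 (ENNReal.ofReal Θ * ∫⁻ y, g y ∂(μ' : Measure (E n)))) := by
        apply ENNReal.Tendsto.const_mul
        · exact ProbabilityMeasure.tendsto_iff_forall_lintegral_tendsto.1 hμ' g
        · right; exact ENNReal.ofReal_ne_top
      set G : (E n × E n) →ᵇ ℝ≥0 := (ktB hp hr) * (g.compContinuous ⟨Prod.snd, continuous_snd⟩)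
        with hG
      have hGe : ∀ z, (G z : ℝ≥0∞) = (kt p r z : ℝ≥0∞) * g z.2 := by
        intro z
        rw [hG, BoundedContinuousFunction.coe_mul, Pi.mul_apply, ENNReal.coe_mul]
        rfl
      have hright : Tendsto (fun j => ∫⁻ z, (kt p r z : ℝ≥0∞) * g z.2
          ∂((N j : Measure (E n)).prod (P j)) +
          ENNReal.ofReal (2 ^ q * cN p q * r ^ (q - p)) * M + ENNReal.ofReal (δ j) * M) atTop
          (𝓝 (∫⁻ z, (kt p r z : ℝ≥0∞) * g z.2 ∂((ν' : Measure (E n)).prod μ') +
          ENNReal.ofReal (2 ^ q * cN p q * r ^ (q - p)) * M + 0)) := by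
        apply Tendsto.add
        · apply Tendsto.add _ tendsto_const_nhds
          have h1 := ProbabilityMeasure.tendsto_iff_forall_lintegral_tendsto.1 hprod G
          simp_rw [hGe] at h1
          exact h1
        · have h2 : Tendsto (fun j => ENNReal.ofReal (δ j)) atTop (𝓝 0) := by
            have := ENNReal.tendsto_ofReal hδ
            simpa using this
          have h3 := ENNReal.Tendsto.mul_const (b := M) h2 (Or.inr hMt)
          simpa using h3
      have hle : ∀ j, ENNReal.ofReal Θ * ∫⁻ y, g y ∂(P j : Measure (E n)) ≤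
          ∫⁻ z, (kt p r z : ℝ≥0∞) * g z.2 ∂((N j : Measure (E n)).prod (P j)) +
          ENNReal.ofReal (2 ^ q * cN p q * r ^ (q - p)) * M + ENNReal.ofReal (δ j) * M := by
        intro j
        have hgM : ∫⁻ y, g y ∂(P j : Measure (E n)) ≤ M := by
          calc ∫⁻ y, g y ∂(P j : Measure (E n)) ≤ ∫⁻ _, M ∂(P j : Measure (E n)) :=
                lintegral_mono fun y =>
                  ENNReal.coe_le_coe.2 (BoundedContinuousFunction.NNReal.upper_bound g y)
            _ = M := by rw [lintegral_const, measure_univ, mul_one]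
        calc ENNReal.ofReal Θ * ∫⁻ y, g y ∂(P j : Measure (E n))
            ≤ (VV p (K j) + ENNReal.ofReal (δ j)) * ∫⁻ y, g y ∂(P j : Measure (E n)) := by
              gcongr; exact (hN j).near
          _ = VV p (K j) * ∫⁻ y, g y ∂(P j : Measure (E n)) +
              ENNReal.ofReal (δ j) * ∫⁻ y, g y ∂(P j : Measure (E n)) := by rw [add_mul]
          _ ≤ _ := by
              gcongr
              exact (test_density hp hpq H (hN j) (hν j) (hE j) g).trans
                (test_split hp hpq (by positivity) hr (le_refl r) (growth_mu hq (hN j) r) g)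
      have h1 := le_of_tendsto_of_tendsto' hleft hright hle
      rw [add_zero] at h1
      refine h1.trans ?_
      gcongr
      calc ∫⁻ z, (kt p r z : ℝ≥0∞) * g z.2 ∂((ν' : Measure (E n)).prod μ')
          ≤ ∫⁻ z, (edist z.1 z.2) ^ (-p) * g z.2 ∂((ν' : Measure (E n)).prod μ') := by
            apply lintegral_mono
            intro z
            simp only
            gcongr
            exact kt_le_kernel hp hr z
        _ = ∫⁻ y, ∫⁻ x, (edist x y) ^ (-p) * g y ∂(ν' : Measure (E n)) ∂(μ' : Measure (E n)) := by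
            rw [lintegral_prod_symm _ (by fun_prop)]
        _ = _ := by
            apply lintegral_congr
            intro y
            rw [lintegral_mul_const _ (by fun_prop), mul_comm]
            unfold UU
            simp_rw [edist_comm y]
    have hlim : Tendsto (fun r : ℝ => ∫⁻ y, g y * UU p (ν' : Measure (E n)) y
        ∂(μ' : Measure (E n)) + ENNReal.ofReal (2 ^ q * cN p q * r ^ (q - p)) * M) (𝓝[>] 0)
        (𝓝 (∫⁻ y, g y * UU p (ν' : Measure (E n)) y ∂(μ' : Measure (E n)) + 0)) := by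
      apply Tendsto.add tendsto_const_nhds
      have h3 := ENNReal.Tendsto.mul_const (b := M) (tendsto_near p (2 ^ q) q hpq) (Or.inr hMt)
      simpa using h3
    rw [add_zero] at hlim
    apply ge_of_tendsto hlim
    filter_upwards [self_mem_nhdsWithin] with r hr
    exact hstep r hr
  -- the support
  set S := (μ' : Measure (E n)).support with hS
  have hU : ∀ x ∈ S, ENNReal.ofReal Θ ≤ UU p (ν' : Measure (E n)) x := fun x hx =>
    UU_ge_of_support hp hβ (Cst_nonneg n q) (rst_pos q) hgrowth htest hx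
  obtain ⟨R, hR⟩ := UU_bounded hp hβ (Cst_nonneg n q) (rst_pos q) hgrowth hΘ
  have hScomp : IsCompact S := by
    refine (isCompact_closedBall (0 : E n) R).of_isClosed_subset Measure.isClosed_support ?_
    intro x hx
    exact hR x (hU x hx)
  have hSmem : (μ' : Measure (E n)) ∈ PP S := ⟨inferInstance, Measure.measure_compl_support⟩
  have hVq1 : VV q S ≤ 1 := (VV_le hSmem).trans hqE
  have hVp : ENNReal.ofReal Θ ≤ VV p S := VV_ge_of_UU hp hΘ.le hpE hU
  have hVq : VV q S = 1 := by
    apply le_antisymm hVq1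
    have h1 := H S hScomp (ne_top_of_le_ne_top ENNReal.one_ne_top hVq1)
    have h2 : ENNReal.ofReal Θ * 1 ≤ ENNReal.ofReal Θ * (VV q S) ^ (p / q) := by
      rw [mul_one]; exact hVp.trans h1
    have h3 : 1 ≤ (VV q S) ^ (p / q) :=
      (ENNReal.mul_le_mul_iff_right (by simpa using hΘ) ENNReal.ofReal_ne_top).1 h2
    by_contra hlt
    push Not at hlt
    have h4 : (VV q S) ^ (p / q) < 1 := ENNReal.rpow_lt_one hlt (by positivity)
    exact absurd h3 (not_le.2 h4)
  refine ⟨hScomp, hSmem, le_antisymm ?_ (VV_le hSmem), hVq, ?_⟩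
  · rw [hVq]; exact hqE
  · rw [ENNReal.ofReal_zero, add_zero]; exact hVp

end RieszRatio
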