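import Mathlib
import Pool.Agent.Lib.MP_ce24da_an.LimitFacts

/-!
# Existence of exact maximisers for `0 < p < q < n`
-/

open MeasureTheory Set Metric ENNReal Filter Topology
open scoped Pointwise NNReal BoundedContinuousFunction

set_option linter.style.haveILetI false

namespace RieszRatio

variable {n : ℕ}

/-- from eventual uniform tightness to uniform tightness -/
lemma tight_of_eventually {P : ℕ → ProbabilityMeasure (E n)} {K : ℕ → Set (E n)}
    (hK : ∀ j, IsCompact (K j)) (hP : ∀ j, (P j : Measure (E n)) (K j)ᶜ = 0) {ε : ℝ≥0∞} {J : ℕ}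
    {R₀ : ℝ} (h : ∀ j, J ≤ j → (P j : Measure (E n)) (closedBall 0 R₀)ᶜ ≤ ε) :
    ∃ R : ℝ, ∀ j, (P j : Measure (E n)) (closedBall 0 R)ᶜ ≤ ε := by
  have h1 : ∀ j, ∃ R : ℝ, K j ⊆ closedBall 0 R := fun j => (hK j).isBounded.subset_closedBall 0
  choose R hR using h1
  refine ⟨|R₀| + ∑ i ∈ Finset.range J, |R i|, fun j => ?_⟩
  have hsum : 0 ≤ ∑ i ∈ Finset.range J, |R i| := Finset.sum_nonneg fun i _ => abs_nonneg _
  by_cases hj : J ≤ j
  · refine (measure_mono (compl_subset_compl.2 (closedBall_subset_closedBall ?_))).trans (h j hj)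
    have := le_abs_self R₀
    linarith
  · have hj' : j ∈ Finset.range J := by simp at hj ⊢; exact hj
    have h2 : |R j| ≤ ∑ i ∈ Finset.range J, |R i| :=
      Finset.single_le_sum (f := fun i => |R i|) (fun i _ => abs_nonneg _) hj'
    have h3 : K j ⊆ closedBall 0 (|R₀| + ∑ i ∈ Finset.range J, |R i|) := by
      refine (hR j).trans (closedBall_subset_closedBall ?_)
      have := le_abs_self (R j)
      have := abs_nonneg R₀
      linarith
    have h4 : (P j : Measure (E n)) (closedBall 0 (|R₀| + ∑ i ∈ Finset.range J, |R i|))ᶜ = 0 :=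
      measure_mono_null (compl_subset_compl.2 h3) (hP j)
    rw [h4]
    exact bot_le

theorem partA [NeZero n] {p q : ℝ} (hp : 0 < p) (hpq : p < q) (hqn : q < n) :
    ∃ Θ : ℝ, 0 < Θ ∧ Θ ≤ 1 ∧ Opt n p q Θ ∧
      ∃ μ : ProbabilityMeasure (E n), Near p q Θ 0 (μ : Measure (E n)).support μ := by
  have hq : 0 < q := hp.trans hpq
  obtain ⟨Θ, hΘ, hΘ1, H, ρ, c, hρ, hc, K, μ, hall⟩ := exists_seq (n := n) hp hpq hqn
  set δ : ℕ → ℝ := fun j => Θ / 4 / ((j:ℝ) + 1) with hδdef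
  have hδ0 : ∀ j, 0 ≤ δ j := fun j => by rw [hδdef]; positivity
  have hδlim : Tendsto δ atTop (𝓝 0) := by
    have h1 := (tendsto_one_div_add_atTop_nhds_zero_nat (𝕜 := ℝ)).const_mul (Θ / 4)
    rw [mul_zero] at h1
    refine h1.congr fun j => ?_
    rw [hδdef]; ring
  have hδ4 : ∀ j, δ j ≤ Θ / 4 := by
    intro j
    rw [hδdef]
    apply div_le_self (by positivity)
    have : (0:ℝ) ≤ j := Nat.cast_nonneg j
    linarith
  have hN : ∀ j, Near p q Θ (δ j) (K j) (μ j) := fun j => (hall j).1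
  have hcen : ∀ j, ENNReal.ofReal c ≤ μ j (closedBall 0 ρ) := fun j => (hall j).2
  have hprob : ∀ j, IsProbabilityMeasure (μ j) := fun j => (hN j).mem.1
  have hνex : ∀ j, ∃ ν ∈ PP (K j), En p ν ν = VV p (K j) := fun j =>
    exists_equil hp (hN j).compact (nonempty_of_VV (s := q) (by rw [(hN j).one]; simp))
  choose ν hνP hνE using hνex
  let P : ℕ → ProbabilityMeasure (E n) := fun j => ⟨μ j, hprob j⟩
  let N : ℕ → ProbabilityMeasure (E n) := fun j => ⟨ν j, (hνP j).1⟩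
  -- tightness of `P`
  have htightP : ∀ ε : ℝ, 0 < ε → ∃ R : ℝ, ∀ j, (P j : Measure (E n)) (closedBall 0 R)ᶜ ≤
      ENNReal.ofReal ε := by
    intro ε hε
    obtain ⟨δ₀, hδ₀, R, hR⟩ := uniform_tight hp hpq hΘ H (c := c) (ρ := ρ) hc hε
    obtain ⟨J, hJ⟩ := eventually_atTop.1 (hδlim.eventually_le_const hδ₀)
    exact tight_of_eventually (P := P) (K := K) (fun j => (hN j).compact) (fun j => (hN j).mem.2)
      (J := J) (R₀ := R) fun j hj => hR (K j) (μ j) (δ j) (hδ0 j) (hJ j hj) (hN j) (hcen j)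
  -- tightness of `N`
  have htightN : ∀ ε : ℝ, 0 < ε → ∃ R : ℝ, ∀ j, (N j : Measure (E n)) (closedBall 0 R)ᶜ ≤
      ENNReal.ofReal ε := by
    intro ε hε
    set m₀ := min (1 / 2) (Θ * ε ^ 2 / 32) with hm₀
    have hm₀0 : 0 < m₀ := lt_min (by norm_num) (by positivity)
    obtain ⟨R, hR⟩ := htightP m₀ hm₀0
    set L : ℝ := (Θ / 4) ^ (-(1 / p)) with hL
    have hL0 : 0 < L := by positivity
    have hLe : L ^ (-p) = Θ / 4 := by
      rw [hL, ← Real.rpow_mul (by positivity), show -(1 / p) * -p = 1 by field_simp, Real.rpow_one]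
    have hδ₁ : 0 < Θ ^ 2 * ε ^ 2 / 8 := by positivity
    obtain ⟨J, hJ⟩ := eventually_atTop.1 (hδlim.eventually_le_const hδ₁)
    refine tight_of_eventually (P := N) (K := K) (fun j => (hN j).compact) (fun j => (hνP j).2)
      (J := J) (R₀ := R + L) fun j hj => ?_
    haveI := hprob j
    haveI := (hνP j).1
    set m := (μ j (closedBall 0 R)ᶜ).toReal with hm
    have hm0 : 0 ≤ m := ENNReal.toReal_nonneg
    have hmle : m ≤ m₀ := ENNReal.toReal_le_of_le_ofReal hm₀0.le (hR j)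
    have hm2 : m ≤ 1 / 2 := hmle.trans (min_le_left _ _)
    have hm3 : m ≤ Θ * ε ^ 2 / 32 := hmle.trans (min_le_right _ _)
    have hcompl : (μ j (closedBall 0 R)).toReal = 1 - m := by
      have h1 : (μ j (closedBall 0 R)).toReal + (μ j (closedBall 0 R)ᶜ).toReal = 1 := by
        rw [← ENNReal.toReal_add (measure_ne_top _ _) (measure_ne_top _ _),
          measure_add_measure_compl measurableSet_closedBall, measure_univ, ENNReal.toReal_one]
      linarith
    have hpos : μ j (closedBall 0 R) ≠ 0 := by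
      intro h0
      rw [h0] at hcompl
      simp only [ENNReal.toReal_zero] at hcompl
      linarith
    have h1 := nu_tight hp hpq hΘ hΘ1 (hδ0 j) (hδ4 j) H (hN j) (hνP j) (hνE j)
      (R := R) (R' := R + L) (by linarith) (by rw [add_sub_cancel_left, hLe]) hpos
    rw [hcompl] at h1
    have hpq1 : p / q ≤ 1 := by rw [div_le_one hq]; exact hpq.le
    have h2 := one_sub_rpow_le (a := p / q) (by positivity) hpq1 hm0 hm2
    have h3 : 4 * (p / q) * m ≤ 4 * m := by nlinarith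
    have h4 : δ j ≤ Θ ^ 2 * ε ^ 2 / 8 := hJ j hj
    have h5 : ((ν j) (closedBall 0 (R + L))ᶜ).toReal ^ 2 ≤ ε ^ 2 := by
      refine h1.trans ?_
      calc 4 / Θ ^ 2 * (Θ * (1 - m) ^ (-(p / q)) - Θ + δ j)
          ≤ 4 / Θ ^ 2 * (Θ * (1 + 4 * (Θ * ε ^ 2 / 32)) - Θ + Θ ^ 2 * ε ^ 2 / 8) := by
            gcongr
            linarith
        _ = ε ^ 2 := by field_simp; ring
    have h6 : ((ν j) (closedBall 0 (R + L))ᶜ).toReal ≤ ε := le_of_sq_le_sq h5 hε.le
    change (ν j) (closedBall 0 (R + L))ᶜ ≤ _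
    rw [← ENNReal.ofReal_toReal (measure_ne_top (ν j) (closedBall 0 (R + L))ᶜ)]
    exact ENNReal.ofReal_le_ofReal h6
  -- subsequences
  obtain ⟨μ', φ₁, hφ₁, hlim₁⟩ := exists_subseq_of_tight P (by
    intro ε hε
    obtain ⟨R, hR⟩ := htightP ε hε
    exact ⟨R, fun j => by simpa using hR j⟩)
  obtain ⟨ν', φ₂, hφ₂, hlim₂⟩ := exists_subseq_of_tight (N ∘ φ₁) (by
    intro ε hε
    obtain ⟨R, hR⟩ := htightN ε hε
    exact ⟨R, fun j => by simpa using hR (φ₁ j)⟩)
  refine ⟨Θ, hΘ, hΘ1, H, μ', ?_⟩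
  have hφ : Tendsto (φ₁ ∘ φ₂) atTop atTop := hφ₁.tendsto_atTop.comp hφ₂.tendsto_atTop
  exact limit_facts hp hpq hΘ hΘ1 H (K := fun j => K (φ₁ (φ₂ j))) (P := (P ∘ φ₁) ∘ φ₂)
    (N := (N ∘ φ₁) ∘ φ₂) (δ := δ ∘ (φ₁ ∘ φ₂)) (fun j => hδ0 _) (hδlim.comp hφ) (fun j => hN _)
    (fun j => hνP _) (fun j => hνE _) (hlim₁.comp hφ₂.tendsto_atTop) hlim₂

end RieszRatio
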