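import Mathlib
import Pool.Agent.Lib.MP_ce24da_an.PartA

/-!
# Conditional positive definiteness of the logarithmic kernel
-/

open MeasureTheory Set Metric ENNReal Filter Topology
open scoped Pointwise NNReal BoundedContinuousFunction

set_option linter.style.haveILetI false

namespace RieszRatio

variable {n : ℕ}

/-- the nonnegative logarithmic kernel `log (D / |x-y|)` -/
noncomputable def lk (D : ℝ) (z : E n × E n) : ℝ≥0∞ :=
  if z.1 = z.2 then ∞ else ENNReal.ofReal (Real.log (D / dist z.1 z.2))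

/-- near part -/
noncomputable def Nk (T : ℝ) (x y : E n) : ℝ≥0∞ := ∫⁻ t in Iio T, vv t x y ∂(wt n 0)

/-- far part -/
noncomputable def Fk (T : ℝ) (x y : E n) : ℝ≥0∞ :=
  ∫⁻ t in Ici T, volume (ball x t \ ball y t) ∂(wt n 0)

/-- far part, beginning at `d/2`-/
noncomputable def Ck (a : ℝ) (x y : E n) : ℝ≥0∞ :=
  ∫⁻ t in Ici a, volume (ball x t \ ball y t) ∂(wt n 0)

lemma vol_sdiff_add (t : ℝ) (x y : E n) :
    volume (ball x t \ ball y t) + vv t x y = volume (ball x t) := by
  unfold vv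
  exact measure_sdiff_add_inter _ measurableSet_ball

lemma measurable_vol_sdiff (x y : E n) : Measurable (fun t : ℝ => volume (ball x t \ ball y t)) := by
  have h : MeasurableSet {w : ℝ × (E n) | w.2 ∈ ball x w.1 ∧ w.2 ∉ ball y w.1} := by
    have h1 : MeasurableSet {w : ℝ × (E n) | w.2 ∈ ball x w.1} := by
      simp only [mem_ball]
      exact (isOpen_lt (by fun_prop) (by fun_prop)).measurableSet
    have h2 : MeasurableSet {w : ℝ × (E n) | w.2 ∉ ball y w.1} := by
      simp only [mem_ball, not_lt]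
      exact (isClosed_le (by fun_prop) (by fun_prop)).measurableSet
    exact h1.inter h2
  exact measurable_measure_prodMk_left h

lemma lintegral_wt_on (s : ℝ) {f : ℝ → ℝ≥0∞} (hf : Measurable f) {A : Set ℝ} (hA : MeasurableSet A)
    (hA0 : A ⊆ Ioi 0) : ∫⁻ t in A, f t ∂(wt n s) =
      ∫⁻ t in A, ENNReal.ofReal (t ^ (-((n:ℝ) + s + 1))) * f t := by
  rw [← lintegral_indicator hA, lintegral_wt s (hf.indicator hA), ← lintegral_indicator hA,
    ← lintegral_indicator measurableSet_Ioi]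
  apply lintegral_congr
  intro t
  by_cases ht : t ∈ A
  · rw [indicator_of_mem (hA0 ht), indicator_of_mem ht, indicator_of_mem ht]
  · rw [indicator_of_notMem ht]
    by_cases ht0 : t ∈ Ioi (0:ℝ)
    · rw [indicator_of_mem ht0, indicator_of_notMem ht, mul_zero]
    · rw [indicator_of_notMem ht0]

lemma vol_sdiff_congr {x y x' y' : E n} (h : dist x y = dist x' y') (t : ℝ) :
    volume (ball x t \ ball y t) = volume (ball x' t \ ball y' t) := by
  have h1 := vol_sdiff_add t x y
  have h2 := vol_sdiff_add t x' y'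
  have h3 : volume (ball x t) = volume (ball x' t) := by
    rw [← vv_self t x, ← vv_self t x']
    exact vv_congr (by simp) t
  rw [← h3, ← h1, vv_congr h t] at h2
  have hfin : vv t x' y' ≠ ∞ := ne_top_of_le_ne_top measure_ball_lt_top.ne (vv_le _ _ _)
  exact ((ENNReal.add_left_inj hfin).1 h2).symm

lemma vol_sdiff_smul {c : ℝ} (hc : 0 < c) (t : ℝ) (x y : E n) :
    volume (ball (c • x) (c * t) \ ball (c • y) (c * t)) =
      ENNReal.ofReal (c ^ n) * volume (ball x t \ ball y t) := by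
  have h1 : ball (c • x) (c * t) = c • ball x t := by
    rw [_root_.smul_ball hc.ne', Real.norm_of_nonneg hc.le]
  have h2 : ball (c • y) (c * t) = c • ball y t := by
    rw [_root_.smul_ball hc.ne', Real.norm_of_nonneg hc.le]
  rw [h1, h2, ← Set.smul_set_sdiff₀ hc.ne', Measure.addHaar_smul]
  simp [abs_of_pos (pow_pos hc n)]

lemma Ck_smul {a : ℝ} (ha : 0 < a) {c : ℝ} (hc : 0 < c) (x y : E n) :
    Ck (c * a) (c • x) (c • y) = Ck a x y := by
  unfold Ck
  have hsub : ∀ b : ℝ, 0 < b → Ici b ⊆ Ioi 0 := fun b hb t ht => lt_of_lt_of_le hb ht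
  rw [lintegral_wt_on 0 (measurable_vol_sdiff _ _) measurableSet_Ici (hsub _ (by positivity)),
    lintegral_wt_on 0 (measurable_vol_sdiff _ _) measurableSet_Ici (hsub _ ha)]
  have hm : ∀ u v : E n, Measurable fun t : ℝ => ENNReal.ofReal (t ^ (-((n:ℝ) + 0 + 1))) *
      volume (ball u t \ ball v t) := fun u v =>
    (by fun_prop : Measurable fun t : ℝ => ENNReal.ofReal (t ^ (-((n:ℝ) + 0 + 1)))).mul
      (measurable_vol_sdiff _ _)
  have e : ∀ (b : ℝ), 0 < b → ∀ f : ℝ → ℝ≥0∞, ∫⁻ t in Ici b, f t =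
      ∫⁻ t in Ioi (0:ℝ), (Ici b).indicator f t := by
    intro b hb f
    rw [lintegral_indicator measurableSet_Ici, Measure.restrict_restrict measurableSet_Ici,
      inter_eq_left.2 (hsub b hb)]
  rw [e _ (by positivity), e _ ha, lintegral_scale hc ((hm _ _).indicator measurableSet_Ici),
    ← lintegral_const_mul' _ _ ENNReal.ofReal_ne_top]
  apply setLIntegral_congr_fun measurableSet_Ioi
  intro u hu
  have hu' : (0:ℝ) < u := hu
  simp only
  by_cases h : a ≤ u
  · rw [indicator_of_mem (by exact mul_le_mul_of_nonneg_left h hc.le), indicator_of_mem (by exact h),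
      vol_sdiff_smul hc, Real.mul_rpow hc.le hu'.le, ENNReal.ofReal_mul (by positivity)]
    have : ENNReal.ofReal c * (ENNReal.ofReal (c ^ (-((n:ℝ) + 0 + 1))) * ENNReal.ofReal (c ^ n))
        = 1 := by
      rw [← ENNReal.ofReal_mul (by positivity), ← ENNReal.ofReal_mul (by positivity),
        ← ENNReal.ofReal_one]
      congr 1
      rw [← Real.rpow_natCast c n, ← Real.rpow_add hc]
      nth_rw 1 [← Real.rpow_one c]
      rw [← Real.rpow_add hc]
      rw [show (1 + (-((n:ℝ) + 0 + 1) + (n:ℝ))) = 0 by ring, Real.rpow_zero]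
    calc _ = (ENNReal.ofReal c * (ENNReal.ofReal (c ^ (-((n:ℝ) + 0 + 1))) * ENNReal.ofReal (c ^ n)))
          * (ENNReal.ofReal (u ^ (-((n:ℝ) + 0 + 1))) * volume (ball x u \ ball y u)) := by ring
      _ = _ := by rw [this, one_mul]
  · rw [indicator_of_notMem, indicator_of_notMem (by exact h), mul_zero]
    intro h2
    exact h (le_of_mul_le_mul_left h2 hc)

/-- the constant `C₀` -/
noncomputable def C0 (n : ℕ) [NeZero n] : ℝ≥0∞ := Ck (1 / 2) (exists_unit (n := n)).choose 0

lemma Ck_eq [NeZero n] {x y : E n} (hxy : x ≠ y) : Ck (dist x y / 2) x y = C0 n := by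
  have hd : 0 < dist x y := dist_pos.2 hxy
  set e := (exists_unit (n := n)).choose with he
  have hen : ‖e‖ = 1 := (exists_unit (n := n)).choose_spec
  have h1 : Ck (dist x y / 2) x y = Ck (dist x y / 2) (dist x y • e) 0 := by
    unfold Ck
    apply lintegral_congr
    intro t
    apply vol_sdiff_congr
    rw [dist_zero_right, norm_smul, hen, mul_one, Real.norm_of_nonneg hd.le]
  rw [h1]
  have h2 := Ck_smul (a := 1 / 2) (by norm_num) hd e (0 : E n)
  rw [smul_zero] at h2
  rw [show dist x y / 2 = dist x y * (1 / 2) by ring, h2]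
  rfl


lemma vol_sdiff_le [NeZero n] {e : E n} (he : ‖e‖ = 1) {t : ℝ} (ht : 1 / 2 ≤ t) :
    volume (ball e t \ ball (0 : E n) t) ≤
      ENNReal.ofReal (n / 2 * t ^ ((n:ℝ) - 1)) * volume (ball (0 : E n) 1) := by
  have ht0 : 0 < t := by linarith
  have h1 : ball ((1 / 2 : ℝ) • e) (t - 1 / 2) ⊆ ball e t ∩ ball 0 t := by
    intro z hz
    rw [mem_ball, dist_eq_norm] at hz
    have hne : ‖(1 / 2 : ℝ) • e‖ = 1 / 2 := by
      rw [norm_smul, he, mul_one, Real.norm_of_nonneg (by norm_num)]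
    constructor
    · rw [mem_ball, dist_eq_norm]
      have : z - e = (z - (1 / 2 : ℝ) • e) - (1 / 2 : ℝ) • e := by module
      rw [this]
      calc _ ≤ ‖z - (1 / 2 : ℝ) • e‖ + ‖(1 / 2 : ℝ) • e‖ := norm_sub_le _ _
        _ < t := by rw [hne]; linarith
    · rw [mem_ball, dist_zero_right]
      have : z = (z - (1 / 2 : ℝ) • e) + (1 / 2 : ℝ) • e := by module
      rw [this]
      calc _ ≤ ‖z - (1 / 2 : ℝ) • e‖ + ‖(1 / 2 : ℝ) • e‖ := norm_add_le _ _
        _ < t := by rw [hne]; linarith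
  have h2 : ENNReal.ofReal ((t - 1 / 2) ^ n) * volume (ball (0 : E n) 1) ≤ vv t e 0 := by
    rw [← volume_ball_eq ((1 / 2 : ℝ) • e) (by linarith)]
    exact measure_mono h1
  have h3 := vol_sdiff_add t e (0 : E n)
  rw [volume_ball_eq e ht0.le] at h3
  have h4 : t ^ n ≤ n / 2 * t ^ ((n:ℝ) - 1) + (t - 1 / 2) ^ n := by
    have hb := one_add_mul_le_pow (a := -(1 / (2 * t))) (by
      have : 1 / (2 * t) ≤ 1 := by rw [div_le_one (by positivity)]; linarith
      linarith) n
    have e1 : (t - 1 / 2) ^ n = t ^ n * (1 + -(1 / (2 * t))) ^ n := by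
      rw [← mul_pow]; congr 1; field_simp; ring
    have e2 : t ^ ((n:ℝ) - 1) = t ^ n / t := by
      rw [Real.rpow_sub_one ht0.ne', Real.rpow_natCast]
    rw [e1, e2]
    have htn : 0 < t ^ n := by positivity
    have h5 : t ^ n * (1 + (n:ℝ) * -(1 / (2 * t))) ≤ t ^ n * (1 + -(1 / (2 * t))) ^ n := by
      gcongr
    have e3 : t ^ n * (1 + (n:ℝ) * -(1 / (2 * t))) = t ^ n - n / 2 * (t ^ n / t) := by
      field_simp
      ring
    linarith
  have hfin : ENNReal.ofReal ((t - 1 / 2) ^ n) * volume (ball (0 : E n) 1) ≠ ∞ :=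
    ENNReal.mul_ne_top ENNReal.ofReal_ne_top measure_ball_lt_top.ne
  have h6 : volume (ball e t \ ball (0 : E n) t) +
      ENNReal.ofReal ((t - 1 / 2) ^ n) * volume (ball (0 : E n) 1) ≤
      ENNReal.ofReal (n / 2 * t ^ ((n:ℝ) - 1)) * volume (ball (0 : E n) 1) +
      ENNReal.ofReal ((t - 1 / 2) ^ n) * volume (ball (0 : E n) 1) := by
    calc _ ≤ volume (ball e t \ ball (0 : E n) t) + vv t e 0 := by gcongr
      _ = ENNReal.ofReal (t ^ n) * volume (ball (0 : E n) 1) := h3
      _ ≤ ENNReal.ofReal (n / 2 * t ^ ((n:ℝ) - 1) + (t - 1 / 2) ^ n) * volume (ball (0 : E n) 1) := by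
          gcongr
      _ = _ := by
          rw [ENNReal.ofReal_add (by positivity) (by
            have : 0 ≤ t - 1 / 2 := by linarith
            positivity), add_mul]
  exact (ENNReal.add_le_add_iff_right hfin).1 h6

lemma C0_ne_top [NeZero n] : C0 n ≠ ∞ := by
  set e := (exists_unit (n := n)).choose with he
  have hen : ‖e‖ = 1 := (exists_unit (n := n)).choose_spec
  unfold C0 Ck
  rw [lintegral_wt_on 0 (measurable_vol_sdiff _ _) measurableSet_Ici
    (fun t ht => lt_of_lt_of_le (by norm_num : (0:ℝ) < 1 / 2) ht)]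
  have hint : IntegrableOn (fun t : ℝ => t ^ (-2 : ℝ)) (Ioi (1/2:ℝ)) :=
    integrableOn_Ioi_rpow_of_lt (by norm_num) (by norm_num)
  have hfin : ∫⁻ t in Ici (1/2:ℝ), ENNReal.ofReal (t ^ (-2 : ℝ)) ≠ ∞ := by
    rw [setLIntegral_congr Ioi_ae_eq_Ici.symm]
    have := hint.lintegral_lt_top
    exact this.ne
  have hle : ∫⁻ t in Ici (1/2:ℝ), ENNReal.ofReal (t ^ (-((n:ℝ) + 0 + 1))) *
      volume (ball e t \ ball (0 : E n) t) ≤
      ∫⁻ t in Ici (1/2:ℝ), (ENNReal.ofReal (n / 2) * volume (ball (0 : E n) 1)) *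
        ENNReal.ofReal (t ^ (-2 : ℝ)) := by
    apply setLIntegral_mono' measurableSet_Ici
    intro t ht
    have ht1 : (1/2:ℝ) ≤ t := ht
    have ht0 : 0 < t := by linarith
    calc _ ≤ ENNReal.ofReal (t ^ (-((n:ℝ) + 0 + 1))) *
          (ENNReal.ofReal (n / 2 * t ^ ((n:ℝ) - 1)) * volume (ball (0 : E n) 1)) := by
          gcongr; exact vol_sdiff_le hen ht1
      _ = _ := by
          rw [ENNReal.ofReal_mul (by positivity)]
          have : ENNReal.ofReal (t ^ (-((n:ℝ) + 0 + 1))) * ENNReal.ofReal (t ^ ((n:ℝ) - 1)) =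
              ENNReal.ofReal (t ^ (-2 : ℝ)) := by
            rw [← ENNReal.ofReal_mul (by positivity), ← Real.rpow_add ht0]
            congr 2; ring
          rw [← this]
          ring
  refine ne_top_of_le_ne_top ?_ hle
  rw [lintegral_const_mul _ (by fun_prop)]
  exact ENNReal.mul_ne_top (ENNReal.mul_ne_top ENNReal.ofReal_ne_top measure_ball_lt_top.ne) hfin

lemma lintegral_vol_Ico [NeZero n] (x : E n) {a b : ℝ} (ha : 0 < a) (hab : a ≤ b) :
    ∫⁻ t in Ico a b, volume (ball x t) ∂(wt n 0) =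
      volume (ball (0 : E n) 1) * ENNReal.ofReal (Real.log (b / a)) := by
  have hm : Measurable (fun t : ℝ => volume (ball x t)) := by
    have := measurable_vv x x
    simpa only [vv_self] using this
  rw [lintegral_wt_on 0 hm measurableSet_Ico (fun t ht => lt_of_lt_of_le ha ht.1)]
  have h1 : ∫⁻ t in Ico a b, ENNReal.ofReal (t ^ (-((n:ℝ) + 0 + 1))) * volume (ball x t) =
      ∫⁻ t in Ico a b, volume (ball (0 : E n) 1) * ENNReal.ofReal (t⁻¹) := by
    apply setLIntegral_congr_fun measurableSet_Ico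
    intro t ht
    have ht0 : 0 < t := lt_of_lt_of_le ha ht.1
    simp only
    rw [volume_ball_eq x ht0.le, ← mul_assoc, ← ENNReal.ofReal_mul (by positivity), mul_comm]
    congr 2
    rw [← Real.rpow_natCast t n, ← Real.rpow_add ht0, ← Real.rpow_neg_one]
    congr 1; ring
  rw [h1, lintegral_const_mul _ (by fun_prop)]
  congr 1
  rw [← integral_inv_of_pos ha (lt_of_lt_of_le ha hab), intervalIntegral.integral_of_le hab,
    ← integral_Ico_eq_integral_Ioc]
  rw [ofReal_integral_eq_lintegral_ofReal]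
  · have : IntegrableOn (fun t : ℝ => t⁻¹) (Icc a b) := by
      apply ContinuousOn.integrableOn_Icc
      intro t ht
      exact (continuousAt_inv₀ (lt_of_lt_of_le ha ht.1).ne').continuousWithinAt
    exact this.mono_set Ico_subset_Icc_self
  · filter_upwards [ae_restrict_mem measurableSet_Ico] with t ht
    have : 0 < t := lt_of_lt_of_le ha ht.1
    positivity

lemma Nk_self [NeZero n] {T : ℝ} (hT : 0 < T) (x : E n) : Nk T x x = ∞ := by
  have hφ0 : volume (ball (0 : E n) 1) ≠ 0 := (measure_ball_pos volume _ one_pos).ne'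
  have h1 : ∀ m : ℕ, volume (ball (0 : E n) 1) * (m : ℝ≥0∞) ≤ Nk T x x := by
    intro m
    have ha : 0 < T * Real.exp (-(m:ℝ)) := by positivity
    have hab : T * Real.exp (-(m:ℝ)) ≤ T := by
      have : Real.exp (-(m:ℝ)) ≤ 1 := Real.exp_le_one_iff.2 (by simp)
      nlinarith
    have h2 := lintegral_vol_Ico x ha hab
    have e : Real.log (T / (T * Real.exp (-(m:ℝ)))) = m := by
      have : T / (T * Real.exp (-(m:ℝ))) = Real.exp m := by
        rw [Real.exp_neg]; field_simp
      rw [this, Real.log_exp]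
    rw [e, ENNReal.ofReal_natCast] at h2
    rw [← h2]
    unfold Nk
    simp_rw [vv_self]
    exact lintegral_mono_set (fun t ht => ht.2)
  by_contra hne
  have h2 : Tendsto (fun m : ℕ => volume (ball (0 : E n) 1) * (m : ℝ≥0∞)) atTop
      (𝓝 (volume (ball (0 : E n) 1) * ∞)) :=
    ENNReal.Tendsto.const_mul ENNReal.tendsto_nat_nhds_top (Or.inl (by simp))
  rw [ENNReal.mul_top hφ0] at h2
  have h3 := le_of_tendsto' h2 h1
  exact hne (top_le_iff.1 h3)

lemma kernel_identity [NeZero n] {T : ℝ} (hT : 0 < T) (z : E n × E n) (hz : dist z.1 z.2 ≤ 2 * T) :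
    Nk T z.1 z.2 + C0 n = volume (ball (0 : E n) 1) * lk (2 * T) z + Fk T z.1 z.2 := by
  have hφ0 : volume (ball (0 : E n) 1) ≠ 0 := (measure_ball_pos volume _ one_pos).ne'
  by_cases hxy : z.1 = z.2
  · unfold lk
    rw [if_pos hxy, ← hxy, Nk_self hT, ENNReal.mul_top hφ0]
    simp
  · have hd : 0 < dist z.1 z.2 := dist_pos.2 hxy
    set d := dist z.1 z.2 with hddef
    have hd2 : d / 2 ≤ T := by linarith
    have hC : C0 n = ∫⁻ t in Ico (d / 2) T, volume (ball z.1 t \ ball z.2 t) ∂(wt n 0) +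
        Fk T z.1 z.2 := by
      rw [← Ck_eq hxy]
      unfold Ck Fk
      rw [← Ico_union_Ici_eq_Ici hd2, lintegral_union measurableSet_Ici]
      rw [Set.disjoint_left]
      intro t ht1 ht2
      exact absurd ht1.2 (not_lt.2 ht2)
    have hN : Nk T z.1 z.2 = ∫⁻ t in Ico (d / 2) T, vv t z.1 z.2 ∂(wt n 0) := by
      unfold Nk
      rw [← lintegral_indicator measurableSet_Iio, ← lintegral_indicator measurableSet_Ico]
      apply lintegral_congr
      intro t
      by_cases h1 : t < T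
      · rw [indicator_of_mem (by exact h1)]
        by_cases h2 : d / 2 ≤ t
        · rw [indicator_of_mem (by exact ⟨h2, h1⟩)]
        · rw [indicator_of_notMem (fun h => h2 h.1), vv_eq_zero]
          push Not at h2
          linarith
      · rw [indicator_of_notMem (by exact h1), indicator_of_notMem (fun h => h1 h.2)]
    rw [hN, hC, ← add_assoc, ← lintegral_add_left (measurable_vv _ _)]
    congr 1
    have : ∀ t, vv t z.1 z.2 + volume (ball z.1 t \ ball z.2 t) = volume (ball z.1 t) := by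
      intro t; rw [add_comm]; exact vol_sdiff_add t _ _
    simp_rw [this]
    rw [lintegral_vol_Ico z.1 (by positivity) hd2]
    unfold lk
    rw [if_neg hxy, ← hddef]
    congr 3
    field_simp

/-- logarithmic energy with respect to the kernel `lk D` -/
noncomputable def LE (D : ℝ) (μ ν : Measure (E n)) : ℝ≥0∞ := ∫⁻ z, lk D z ∂(μ.prod ν)

lemma measurable_lk (D : ℝ) : Measurable (lk D : E n × E n → ℝ≥0∞) := by
  unfold lk
  apply Measurable.ite
  · exact (isClosed_eq continuous_fst continuous_snd).measurableSet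
  · exact measurable_const
  · fun_prop

lemma Nk_tform (T : ℝ) (μ ν : Measure (E n)) [SFinite μ] [SFinite ν] :
    ∫⁻ z, Nk T z.1 z.2 ∂(μ.prod ν) =
      ∫⁻ u, {u : E n × ℝ | u.2 < T}.indicator
        (fun u => μ (ball u.1 u.2) * ν (ball u.1 u.2)) u ∂(om n 0) := by
  set R : Set ((E n × ℝ) × (E n × E n)) :=
    {w | w.1.2 < T ∧ (w.2.1 ∈ ball w.1.1 w.1.2 ∧ w.2.2 ∈ ball w.1.1 w.1.2)} with hR
  have hmeas : MeasurableSet R := by
    apply IsOpen.measurableSet
    rw [hR]
    simp only [mem_ball]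
    refine IsOpen.and ?_ (IsOpen.and ?_ ?_)
    · exact isOpen_lt (by fun_prop) (by fun_prop)
    · exact isOpen_lt (by fun_prop) (by fun_prop)
    · exact isOpen_lt (by fun_prop) (by fun_prop)
  have h1 : ∀ u : E n × ℝ, {u : E n × ℝ | u.2 < T}.indicator
        (fun u => μ (ball u.1 u.2) * ν (ball u.1 u.2)) u = (μ.prod ν) (Prod.mk u ⁻¹' R) := by
    intro u
    by_cases hu : u.2 < T
    · rw [indicator_of_mem (by exact hu), ← Measure.prod_prod]
      congr 1
      ext z
      simp only [mem_preimage, hR, mem_ofPred_eq, mem_prod]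
      tauto
    · rw [indicator_of_notMem (by exact hu)]
      have : Prod.mk u ⁻¹' R = ∅ := by
        ext z
        simp only [mem_preimage, hR, mem_ofPred_eq, mem_empty_iff_false, iff_false]
        tauto
      rw [this, measure_empty]
  simp_rw [h1]
  rw [← Measure.prod_apply hmeas, Measure.prod_apply_symm hmeas]
  apply lintegral_congr
  intro z
  have hmz : MeasurableSet ((fun x => (x, z)) ⁻¹' R) := measurable_prodMk_right hmeas
  unfold om
  rw [Measure.prod_apply_symm hmz]
  unfold Nk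
  rw [← lintegral_indicator measurableSet_Iio]
  apply lintegral_congr
  intro t
  by_cases ht : t < T
  · rw [indicator_of_mem (by exact ht)]
    unfold vv
    congr 1
    ext s
    simp only [mem_preimage, hR, mem_ofPred_eq, mem_ball, mem_inter_iff]
    rw [dist_comm z.1 s, dist_comm z.2 s]
    tauto
  · rw [indicator_of_notMem (by exact ht)]
    have : ((fun x => (x, t)) ⁻¹' ((fun x => (x, z)) ⁻¹' R)) = (∅ : Set (E n)) := by
      ext s
      simp only [mem_preimage, hR, mem_ofPred_eq, mem_empty_iff_false, iff_false]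
      tauto
    rw [this, measure_empty]

lemma Fk_tform (T : ℝ) (μ ν : Measure (E n)) [SFinite μ] [SFinite ν] :
    ∫⁻ z, Fk T z.1 z.2 ∂(μ.prod ν) =
      ∫⁻ u, {u : E n × ℝ | T ≤ u.2}.indicator
        (fun u => μ (ball u.1 u.2) * ν (ball u.1 u.2)ᶜ) u ∂(om n 0) := by
  set R : Set ((E n × ℝ) × (E n × E n)) :=
    {w | T ≤ w.1.2 ∧ (w.2.1 ∈ ball w.1.1 w.1.2 ∧ w.2.2 ∈ (ball w.1.1 w.1.2)ᶜ)} with hR
  have hmeas : MeasurableSet R := by
    have e : R = {w | T ≤ w.1.2} ∩ ({w | w.2.1 ∈ ball w.1.1 w.1.2} ∩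
        {w | w.2.2 ∈ (ball w.1.1 w.1.2)ᶜ}) := rfl
    rw [e]
    refine MeasurableSet.inter ?_ (MeasurableSet.inter ?_ ?_)
    · exact (isClosed_le (by fun_prop) (by fun_prop)).measurableSet
    · simp only [mem_ball]
      exact (isOpen_lt (by fun_prop) (by fun_prop)).measurableSet
    · simp only [mem_compl_iff, mem_ball, not_lt]
      exact (isClosed_le (by fun_prop) (by fun_prop)).measurableSet
  have h1 : ∀ u : E n × ℝ, {u : E n × ℝ | T ≤ u.2}.indicator
        (fun u => μ (ball u.1 u.2) * ν (ball u.1 u.2)ᶜ) u = (μ.prod ν) (Prod.mk u ⁻¹' R) := by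
    intro u
    by_cases hu : T ≤ u.2
    · rw [indicator_of_mem (by exact hu), ← Measure.prod_prod]
      congr 1
      ext z
      simp only [mem_preimage, hR, mem_ofPred_eq, mem_prod]
      tauto
    · rw [indicator_of_notMem (by exact hu)]
      have : Prod.mk u ⁻¹' R = ∅ := by
        ext z
        simp only [mem_preimage, hR, mem_ofPred_eq, mem_empty_iff_false, iff_false]
        tauto
      rw [this, measure_empty]
  simp_rw [h1]
  rw [← Measure.prod_apply hmeas, Measure.prod_apply_symm hmeas]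
  apply lintegral_congr
  intro z
  have hmz : MeasurableSet ((fun x => (x, z)) ⁻¹' R) := measurable_prodMk_right hmeas
  unfold om
  rw [Measure.prod_apply_symm hmz]
  unfold Fk
  rw [← lintegral_indicator measurableSet_Ici]
  apply lintegral_congr
  intro t
  by_cases ht : T ≤ t
  · rw [indicator_of_mem (by exact ht)]
    congr 1
    ext s
    simp only [mem_preimage, hR, mem_ofPred_eq, mem_ball, Set.mem_sdiff, mem_compl_iff]
    rw [dist_comm z.1 s, dist_comm z.2 s]
    tauto
  · rw [indicator_of_notMem (by exact ht)]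
    have : ((fun x => (x, t)) ⁻¹' ((fun x => (x, z)) ⁻¹' R)) = (∅ : Set (E n)) := by
      ext s
      simp only [mem_preimage, hR, mem_ofPred_eq, mem_empty_iff_false, iff_false]
      tauto
    rw [this, measure_empty]

lemma Fk_comm (T : ℝ) (x y : E n) : Fk T x y = Fk T y x := by
  unfold Fk
  exact lintegral_congr fun t => vol_sdiff_congr (dist_comm x y) t

lemma Fk_le [NeZero n] {T : ℝ} {x y : E n} (h : dist x y ≤ 2 * T) : Fk T x y ≤ C0 n := by
  by_cases hxy : x = y
  · subst hxy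
    unfold Fk
    simp
  · rw [← Ck_eq hxy]
    unfold Fk Ck
    exact lintegral_mono_set (Ici_subset_Ici.2 (by linarith))

/-- conditional positive definiteness of the logarithmic kernel -/
theorem log_PD [NeZero n] {T : ℝ} (hT : 0 < T) {ν σ : Measure (E n)} [IsProbabilityMeasure ν]
    [IsProbabilityMeasure σ] (hν : ν (closedBall 0 T)ᶜ = 0) (hσ : σ (closedBall 0 T)ᶜ = 0) :
    2 * LE (2 * T) ν σ ≤ LE (2 * T) ν ν + LE (2 * T) σ σ := by
  set φ := volume (ball (0 : E n) 1) with hφ
  have hφ0 : φ ≠ 0 := (measure_ball_pos volume _ one_pos).ne'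
  have hφt : φ ≠ ∞ := measure_ball_lt_top.ne
  have hae : ∀ (μ₁ μ₂ : Measure (E n)) [IsProbabilityMeasure μ₁] [IsProbabilityMeasure μ₂],
      μ₁ (closedBall 0 T)ᶜ = 0 → μ₂ (closedBall 0 T)ᶜ = 0 →
      ∀ᵐ z ∂(μ₁.prod μ₂), dist z.1 z.2 ≤ 2 * T := by
    intro μ₁ μ₂ _ _ h1 h2
    have hae1 : ∀ᵐ z ∂(μ₁.prod μ₂), z.1 ∈ closedBall (0 : E n) T :=
      Measure.quasiMeasurePreserving_fst.ae (by rw [ae_iff]; exact h1)
    have hae2 : ∀ᵐ z ∂(μ₁.prod μ₂), z.2 ∈ closedBall (0 : E n) T :=
      Measure.quasiMeasurePreserving_snd.ae (by rw [ae_iff]; exact h2)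
    filter_upwards [hae1, hae2] with z h1 h2
    have h3 : dist z.1 0 ≤ T := h1
    have h4 : dist z.2 0 ≤ T := h2
    linarith [dist_triangle_right z.1 z.2 0]
  set NN : Measure (E n) → Measure (E n) → ℝ≥0∞ := fun μ₁ μ₂ =>
    ∫⁻ z, Nk T z.1 z.2 ∂(μ₁.prod μ₂) with hNN
  set FF : Measure (E n) → Measure (E n) → ℝ≥0∞ := fun μ₁ μ₂ =>
    ∫⁻ z, Fk T z.1 z.2 ∂(μ₁.prod μ₂) with hFF
  have hid : ∀ (μ₁ μ₂ : Measure (E n)) [IsProbabilityMeasure μ₁] [IsProbabilityMeasure μ₂],
      μ₁ (closedBall 0 T)ᶜ = 0 → μ₂ (closedBall 0 T)ᶜ = 0 →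
      NN μ₁ μ₂ + C0 n = φ * LE (2 * T) μ₁ μ₂ + FF μ₁ μ₂ := by
    intro μ₁ μ₂ _ _ h1 h2
    have hC : C0 n = ∫⁻ _ : E n × E n, C0 n ∂(μ₁.prod μ₂) := by
      rw [lintegral_const, measure_univ, mul_one]
    simp only [hNN, hFF]
    unfold LE
    rw [hC, ← lintegral_add_right _ measurable_const, ← lintegral_const_mul _ (measurable_lk _),
      ← lintegral_add_left ((measurable_lk _).const_mul _)]
    apply lintegral_congr_ae
    filter_upwards [hae μ₁ μ₂ h1 h2] with z hz
    exact kernel_identity hT z hz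
  have hFfin : FF ν σ ≤ C0 n := by
    simp only [hFF]
    calc ∫⁻ z, Fk T z.1 z.2 ∂(ν.prod σ) ≤ ∫⁻ _ : E n × E n, C0 n ∂(ν.prod σ) := by
          apply lintegral_mono_ae
          filter_upwards [hae ν σ hν hσ] with z hz
          exact Fk_le hz
      _ = C0 n := by rw [lintegral_const, measure_univ, mul_one]
  have hFt : FF ν σ ≠ ∞ := ne_top_of_le_ne_top C0_ne_top hFfin
  have hmT : MeasurableSet {u : E n × ℝ | u.2 < T} :=
    (isOpen_lt (by fun_prop) (by fun_prop)).measurableSet
  have hmT' : MeasurableSet {u : E n × ℝ | T ≤ u.2} :=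
    (isClosed_le (by fun_prop) (by fun_prop)).measurableSet
  have mN : ∀ (μ₁ μ₂ : Measure (E n)) [IsProbabilityMeasure μ₁] [IsProbabilityMeasure μ₂],
      Measurable (fun u : E n × ℝ => ({u : E n × ℝ | u.2 < T}.indicator
        (fun u => μ₁ (ball u.1 u.2) * μ₂ (ball u.1 u.2)) u)) := fun μ₁ μ₂ _ _ =>
    ((measurable_ball_measure μ₁).mul (measurable_ball_measure μ₂)).indicator hmT
  have hN2 : 2 * NN ν σ ≤ NN ν ν + NN σ σ := by
    simp only [hNN]
    rw [Nk_tform, Nk_tform, Nk_tform, ← lintegral_const_mul' _ _ (by norm_num),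
      ← lintegral_add_left (mN ν ν)]
    apply lintegral_mono
    intro u
    by_cases hu : u ∈ {u : E n × ℝ | u.2 < T}
    · simp only [indicator_of_mem hu]
      have ha : ν (ball u.1 u.2) ≠ ∞ := measure_ne_top _ _
      have hb : σ (ball u.1 u.2) ≠ ∞ := measure_ne_top _ _
      lift ν (ball u.1 u.2) to ℝ≥0 using ha with a
      lift σ (ball u.1 u.2) to ℝ≥0 using hb with b
      norm_cast
      rw [← NNReal.coe_le_coe]
      push_cast
      nlinarith [sq_nonneg ((a:ℝ) - b)]
    · simp only [indicator_of_notMem hu]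
      simp
  have hFsymm : FF ν σ = FF σ ν := by
    simp only [hFF]
    have hm : Measurable (fun z : E n × E n => Fk T z.1 z.2) := by
      unfold Fk
      have h : MeasurableSet {w : ((E n × E n) × ℝ) × (E n) |
          w.2 ∈ ball w.1.1.1 w.1.2 ∧ w.2 ∉ ball w.1.1.2 w.1.2} := by
        have h1 : MeasurableSet {w : ((E n × E n) × ℝ) × (E n) | w.2 ∈ ball w.1.1.1 w.1.2} := by
          simp only [mem_ball]
          exact (isOpen_lt (by fun_prop) (by fun_prop)).measurableSet
        have h2 : MeasurableSet {w : ((E n × E n) × ℝ) × (E n) | w.2 ∉ ball w.1.1.2 w.1.2} := by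
          simp only [mem_ball, not_lt]
          exact (isClosed_le (by fun_prop) (by fun_prop)).measurableSet
        exact h1.inter h2
      have h2 : Measurable (fun w : (E n × E n) × ℝ =>
          volume (ball w.1.1 w.2 \ ball w.1.2 w.2)) := measurable_measure_prodMk_left h
      exact h2.lintegral_prod_right'
    rw [← Measure.prod_swap, lintegral_map hm measurable_swap]
    apply lintegral_congr
    intro z
    exact Fk_comm T z.2 z.1
  have hFF2 : FF ν ν + FF σ σ ≤ 2 * FF ν σ := by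
    have e : 2 * FF ν σ = FF ν σ + FF σ ν := by rw [← hFsymm, two_mul]
    rw [e]
    simp only [hFF]
    rw [Fk_tform, Fk_tform, Fk_tform, Fk_tform]
    have hmc : ∀ (μ₁ : Measure (E n)) [IsProbabilityMeasure μ₁],
        Measurable (fun u : E n × ℝ => μ₁ (ball u.1 u.2)ᶜ) := by
      intro μ₁ _
      have h : MeasurableSet {w : (E n × ℝ) × (E n) | w.2 ∈ (ball w.1.1 w.1.2)ᶜ} :=
        measurableSet_incidence.compl
      exact measurable_measure_prodMk_left h
    have mF : ∀ (μ₁ μ₂ : Measure (E n)) [IsProbabilityMeasure μ₁] [IsProbabilityMeasure μ₂],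
        Measurable (fun u : E n × ℝ => ({u : E n × ℝ | T ≤ u.2}.indicator
          (fun u => μ₁ (ball u.1 u.2) * μ₂ (ball u.1 u.2)ᶜ) u)) := fun μ₁ μ₂ _ _ =>
      ((measurable_ball_measure μ₁).mul (hmc μ₂)).indicator hmT'
    rw [← lintegral_add_left (mF ν ν), ← lintegral_add_left (mF ν σ)]
    apply lintegral_mono
    intro u
    by_cases hu : u ∈ {u : E n × ℝ | T ≤ u.2}
    · simp only [indicator_of_mem hu]
      rw [prob_compl_eq_one_sub measurableSet_ball, prob_compl_eq_one_sub measurableSet_ball]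
      have ha1 : ν (ball u.1 u.2) ≤ 1 := prob_le_one
      have hb1 : σ (ball u.1 u.2) ≤ 1 := prob_le_one
      have ha : ν (ball u.1 u.2) ≠ ∞ := measure_ne_top _ _
      have hb : σ (ball u.1 u.2) ≠ ∞ := measure_ne_top _ _
      lift ν (ball u.1 u.2) to ℝ≥0 using ha with a
      lift σ (ball u.1 u.2) to ℝ≥0 using hb with b
      have ha1' : a ≤ 1 := by exact_mod_cast ha1
      have hb1' : b ≤ 1 := by exact_mod_cast hb1
      norm_cast
      rw [← NNReal.coe_le_coe]
      push_cast [NNReal.coe_sub ha1', NNReal.coe_sub hb1']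
      nlinarith [sq_nonneg ((a:ℝ) - b)]
    · simp only [indicator_of_notMem hu]
      simp
  -- conclusion
  have hfin1 : φ * (2 * LE (2 * T) ν σ) + 2 * FF ν σ ≤
      φ * (LE (2 * T) ν ν + LE (2 * T) σ σ) + 2 * FF ν σ := by
    calc φ * (2 * LE (2 * T) ν σ) + 2 * FF ν σ = 2 * (φ * LE (2 * T) ν σ + FF ν σ) := by ring
      _ = 2 * (NN ν σ + C0 n) := by rw [hid ν σ hν hσ]
      _ = 2 * NN ν σ + 2 * C0 n := by ring
      _ ≤ (NN ν ν + NN σ σ) + 2 * C0 n := by gcongr
      _ = (NN ν ν + C0 n) + (NN σ σ + C0 n) := by ring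
      _ = (φ * LE (2 * T) ν ν + FF ν ν) + (φ * LE (2 * T) σ σ + FF σ σ) := by
          rw [hid ν ν hν hν, hid σ σ hσ hσ]
      _ = φ * (LE (2 * T) ν ν + LE (2 * T) σ σ) + (FF ν ν + FF σ σ) := by ring
      _ ≤ _ := by gcongr
  have h3 := (ENNReal.add_le_add_iff_right (ENNReal.mul_ne_top (by norm_num) hFt)).1 hfin1
  exact (ENNReal.mul_le_mul_iff_right hφ0 hφt).1 h3

end RieszRatio
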