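import Mathlib
import Pool.Agent.Lib.MP_ce24da_an.LogPD

/-!
# Exact maximisers for `p > 0` and a uniform diameter bound as `p → 0`
-/

open MeasureTheory Set Metric ENNReal Filter Topology
open scoped Pointwise NNReal BoundedContinuousFunction

set_option linter.style.haveILetI false

namespace RieszRatio

variable {n : ℕ}

/-- an exact maximiser together with its equilibrium measures -/
structure Exact (p q Θ : ℝ) (K : Set (E n)) (μ ν : Measure (E n)) : Prop where
  near : Near p q Θ 0 K μ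
  mem : ν ∈ PP K
  equil : En p ν ν = VV p K
  growth : Growth (Cst n q) ((p + q) / 2) (rst q) ν
  pot : ∀ x ∈ K, ENNReal.ofReal Θ ≤ UU p ν x

lemma near_support {p q Θ : ℝ} {K : Set (E n)} {μ : Measure (E n)} (hN : Near p q Θ 0 K μ) :
    Near p q Θ 0 μ.support μ := by
  haveI := hN.mem.1
  have hsub : μ.support ⊆ K :=
    Measure.support_subset_of_isClosed hN.compact.isClosed (by
      rw [mem_ae_iff]; exact hN.mem.2)
  have hmem : μ ∈ PP μ.support := ⟨inferInstance, Measure.measure_compl_support⟩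
  have hq1 : VV q μ.support = 1 := by
    apply le_antisymm
    · rw [← hN.one, ← hN.equil]; exact VV_le hmem
    · rw [← hN.one]; exact VV_anti hsub
  refine ⟨hN.compact.of_isClosed_subset Measure.isClosed_support hsub, hmem, ?_, hq1, ?_⟩
  · rw [hN.equil, hN.one, hq1]
  · refine hN.near.trans ?_
    gcongr
    exact VV_anti hsub

lemma exact_of_near [NeZero n] {p q Θ : ℝ} (hp : 0 < p) (hpq : p < q) (hΘ : 0 < Θ) (hΘ1 : Θ ≤ 1)
    (H : Opt n p q Θ) {K : Set (E n)} {μ : Measure (E n)} (hN : Near p q Θ 0 K μ) :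
    ∃ ν, Exact p q Θ μ.support μ ν := by
  haveI := hN.mem.1
  have hN' := near_support hN
  obtain ⟨ν, hν, hE⟩ := exists_equil hp hN'.compact
    (nonempty_of_VV (s := q) (by rw [hN'.one]; simp))
  haveI := hν.1
  have hgrowth : Growth (Cst n q) ((p + q) / 2) (rst q) ν := by
    apply growth_of_bound hp hpq hΘ1
    intro x r hr hr8
    have := nu_growth hp hpq hΘ le_rfl H hN' hν hE x hr hr8
    linarith
  refine ⟨ν, hN', hν, hE, hgrowth, ?_⟩
  intro x hx
  refine UU_ge_of_support hp (by linarith) (Cst_nonneg n q) (rst_pos q) hgrowth ?_ hx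
  intro g
  have hVV : VV p μ.support = ENNReal.ofReal Θ := by
    apply le_antisymm (hN'.VV_le H)
    have := hN'.near
    rwa [ENNReal.ofReal_zero, add_zero] at this
  have h1 := test_density hp hpq H hN' hν hE g
  rw [hVV] at h1
  refine h1.trans (le_of_eq ?_)
  have hgm : Measurable (fun y => (g y : ℝ≥0∞)) := g.continuous.measurable.coe_nnreal_ennreal
  rw [lintegral_prod_symm _ (by fun_prop)]
  apply lintegral_congr
  intro y
  change ∫⁻ x, (edist x y) ^ (-p) * (g y : ℝ≥0∞) ∂ν = _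
  rw [lintegral_mul_const _ (by fun_prop), mul_comm]
  unfold UU
  simp_rw [edist_comm y]

/-- lower bound for the optimal constant -/
lemma Theta_ge [NeZero n] {q : ℝ} (hq : 0 < q) (hqn : q < n) :
    ∃ C₀ : ℝ, 0 ≤ C₀ ∧ ∀ p Θ : ℝ, 0 < p → p < q → 0 < Θ → Opt n p q Θ → 1 - p * C₀ ≤ Θ := by
  set B := closedBall (0 : E n) 1 with hB
  have hBt : VV q B ≠ ∞ := VV_ball_ne_top hq hqn
  have hB0 : VV q B ≠ 0 := VV_pos hq (isCompact_closedBall _ _)
  set v := (VV q B).toReal with hv
  have hv0 : 0 < v := ENNReal.toReal_pos hB0 hBt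
  have hvE : VV q B = ENNReal.ofReal v := (ENNReal.ofReal_toReal hBt).symm
  set M := 2 * v ^ (1 / q) with hM
  have hM0 : 0 < M := by positivity
  refine ⟨max 0 (Real.log M), le_max_left _ _, ?_⟩
  intro p Θ hp hpq hΘ H
  have h1 : ENNReal.ofReal ((2:ℝ) ^ (-p)) ≤ VV p B := by
    apply le_iInf₂
    intro μ hμ
    haveI := hμ.1
    unfold En
    have h2 : ENNReal.ofReal ((2:ℝ) ^ (-p)) =
        ∫⁻ z : E n × E n, ENNReal.ofReal ((2:ℝ) ^ (-p)) ∂(μ.prod μ) := by
      rw [lintegral_const, measure_univ, mul_one]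
    rw [h2]
    apply lintegral_mono_ae
    have hae : ∀ᵐ x ∂μ, x ∈ B := by
      rw [ae_iff]; exact hμ.2
    have hae1 : ∀ᵐ z ∂(μ.prod μ), z.1 ∈ B := Measure.quasiMeasurePreserving_fst.ae hae
    have hae2 : ∀ᵐ z ∂(μ.prod μ), z.2 ∈ B := Measure.quasiMeasurePreserving_snd.ae hae
    filter_upwards [hae1, hae2] with z h1 h2
    rw [← ENNReal.ofReal_rpow_of_pos (by norm_num)]
    apply rpow_neg_anti hp.le
    rw [edist_dist]
    apply ENNReal.ofReal_le_ofReal
    have h3 : dist z.1 0 ≤ 1 := h1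
    have h4 : dist z.2 0 ≤ 1 := h2
    linarith [dist_triangle_right z.1 z.2 0]
  have h2 := h1.trans (H B (isCompact_closedBall _ _) hBt)
  rw [hvE, ENNReal.ofReal_rpow_of_pos hv0, ← ENNReal.ofReal_mul hΘ.le,
    ENNReal.ofReal_le_ofReal_iff (by positivity)] at h2
  have h3 : M ^ (-p) ≤ Θ := by
    rw [hM, Real.mul_rpow (by norm_num) (by positivity), ← Real.rpow_mul hv0.le,
      show 1 / q * -p = -(p / q) by field_simp, Real.rpow_neg hv0.le (p / q),
      ← div_eq_mul_inv, div_le_iff₀ (by positivity)]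
    exact h2
  have h4 : 1 - p * Real.log M ≤ M ^ (-p) := by
    rw [Real.rpow_def_of_pos hM0]
    have := Real.add_one_le_exp (Real.log M * -p)
    linarith
  have h5 : p * Real.log M ≤ p * max 0 (Real.log M) := by
    gcongr
    exact le_max_right _ _
  linarith

/-- Bernoulli type inequality -/
lemma rpow_le_aux {t p η : ℝ} (ht : 1 ≤ t) (hp : 0 < p) (hpη : p ≤ η) :
    t ^ p ≤ 1 + p / η * t ^ η := by
  have hη : 0 < η := hp.trans_le hpη
  have h1 : t ^ p = (t ^ η) ^ (p / η) := by
    rw [← Real.rpow_mul (by linarith)]; congr 1; field_simp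
  have h2 : 1 ≤ t ^ η := Real.one_le_rpow ht hη.le
  have h3 := rpow_one_add_le_one_add_mul_self (s := t ^ η - 1) (by linarith) (p := p / η)
    (by positivity) (by rw [div_le_one hη]; exact hpη)
  rw [show 1 + (t ^ η - 1) = t ^ η by ring] at h3
  rw [h1]
  have h4 : 0 ≤ p / η := by positivity
  nlinarith

lemma kernel_diam {p η ρ r₀ : ℝ} (hp : 0 < p) (hpη : p ≤ η) (hρ : 1 ≤ ρ) (hr₀ : 0 < r₀)
    (x y : E n) :
    (edist x y) ^ (-p) + {y : E n | ρ ≤ dist x y}.indicator
        (fun _ => ENNReal.ofReal (1 - ρ ^ (-p))) y ≤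
      1 + ENNReal.ofReal (p / η) * (closedBall x r₀).indicator (fun y => (edist x y) ^ (-η)) y +
        ENNReal.ofReal (p / η * r₀ ^ (-η)) := by
  have hη : 0 < η := hp.trans_le hpη
  have hη0 : ENNReal.ofReal (p / η) ≠ 0 := by
    simp only [ne_eq, ENNReal.ofReal_eq_zero, not_le]; positivity
  by_cases h0 : dist x y = 0
  · have : y ∈ closedBall x r₀ := by rw [mem_closedBall, dist_comm, h0]; exact hr₀.le
    rw [indicator_of_mem this, edist_dist, h0, ENNReal.ofReal_zero,
      ENNReal.zero_rpow_of_neg (by linarith : -η < 0), ENNReal.mul_top hη0]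
    simp
  have hd : 0 < dist x y := lt_of_le_of_ne dist_nonneg (Ne.symm h0)
  have hk : (edist x y) ^ (-p) = ENNReal.ofReal ((dist x y) ^ (-p)) := by
    rw [edist_dist, ENNReal.ofReal_rpow_of_pos hd]
  by_cases h1 : ρ ≤ dist x y
  · rw [indicator_of_mem (by exact h1), hk, ← ENNReal.ofReal_add (by positivity) (by
      have : ρ ^ (-p) ≤ 1 := Real.rpow_le_one_of_one_le_of_nonpos hρ (by linarith)
      linarith)]
    refine le_trans ?_ (le_add_right (le_add_right le_rfl))
    rw [← ENNReal.ofReal_one]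
    apply ENNReal.ofReal_le_ofReal
    have : (dist x y) ^ (-p) ≤ ρ ^ (-p) :=
      Real.rpow_le_rpow_of_nonpos (by linarith) h1 (by linarith)
    linarith
  · rw [indicator_of_notMem (by exact h1), add_zero, hk]
    by_cases h2 : 1 ≤ dist x y
    · refine le_trans ?_ (le_add_right (le_add_right le_rfl))
      rw [← ENNReal.ofReal_one]
      apply ENNReal.ofReal_le_ofReal
      exact Real.rpow_le_one_of_one_le_of_nonpos h2 (by linarith)
    · push Not at h2
      have hti : ∀ s : ℝ, (dist x y) ^ (-s) = ((dist x y)⁻¹) ^ s := by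
        intro s
        rw [Real.inv_rpow hd.le, Real.rpow_neg hd.le]
      have ht1 : 1 ≤ (dist x y)⁻¹ := (one_le_inv₀ hd).2 h2.le
      have hB := rpow_le_aux ht1 hp hpη
      rw [← hti, ← hti] at hB
      by_cases h3 : dist x y ≤ r₀
      · have : y ∈ closedBall x r₀ := by rw [mem_closedBall, dist_comm]; exact h3
        rw [indicator_of_mem this]
        refine le_trans ?_ (le_add_right le_rfl)
        rw [edist_dist, ENNReal.ofReal_rpow_of_pos hd, ← ENNReal.ofReal_mul (by positivity),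
          ← ENNReal.ofReal_one, ← ENNReal.ofReal_add zero_le_one (by positivity)]
        exact ENNReal.ofReal_le_ofReal hB
      · push Not at h3
        have h4 : (dist x y) ^ (-η) ≤ r₀ ^ (-η) :=
          Real.rpow_le_rpow_of_nonpos hr₀ h3.le (by linarith)
        have h5 : (dist x y) ^ (-p) ≤ 1 + p / η * r₀ ^ (-η) := by
          refine hB.trans ?_
          gcongr
        calc ENNReal.ofReal ((dist x y) ^ (-p)) ≤ ENNReal.ofReal (1 + p / η * r₀ ^ (-η)) :=
              ENNReal.ofReal_le_ofReal h5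
          _ = 1 + ENNReal.ofReal (p / η * r₀ ^ (-η)) := by
              rw [ENNReal.ofReal_add zero_le_one (by positivity), ENNReal.ofReal_one]
          _ ≤ _ := by
              gcongr
              exact le_add_right le_rfl

lemma rst_lt_one {q : ℝ} (hq : 0 < q) : rst q ≤ 1 := by
  unfold rst
  have : ((1:ℝ) / 2) ^ (1 / q) ≤ 1 := Real.rpow_le_one (by norm_num) (by norm_num) (by positivity)
  linarith

lemma growth_half {p q : ℝ} (hp : 0 < p) (hq : 0 < q) {ν : Measure (E n)}
    (h : Growth (Cst n q) ((p + q) / 2) (rst q) ν) : Growth (Cst n q) (q / 2) (rst q) ν := by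
  intro x r hr hrr
  refine (h x r hr hrr).trans (ENNReal.ofReal_le_ofReal ?_)
  have hr1 : r ≤ 1 := hrr.trans (rst_lt_one hq)
  have := Cst_nonneg n q
  gcongr ?_ * ?_
  exact Real.rpow_le_rpow_of_exponent_ge hr hr1 (by linarith)

/-- uniform diameter bound -/
theorem diam_bound [NeZero n] {q : ℝ} (hq : 0 < q) (hqn : q < n) :
    ∃ p₀ : ℝ, 0 < p₀ ∧ p₀ < q ∧ ∃ Λ : ℝ, 0 < Λ ∧ ∀ (p Θ : ℝ) (K : Set (E n)) (μ ν : Measure (E n)),
      0 < p → p ≤ p₀ → 0 < Θ → Opt n p q Θ → Exact p q Θ K μ ν →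
      ∀ x ∈ K, ∀ x' ∈ K, dist x x' ≤ Λ := by
  obtain ⟨C₀, hC₀, hlow⟩ := Theta_ge (n := n) hq hqn
  set η := q / 4 with hη
  have hη0 : 0 < η := by positivity
  have hηq : η < q / 2 := by rw [hη]; linarith
  set r₀ := rst q with hr₀
  have hr0 : 0 < r₀ := rst_pos q
  have hr1 : r₀ ≤ 1 := rst_lt_one hq
  set A := Cst n q * cN η (q / 2) * r₀ ^ (q / 2 - η) with hA
  have hA0 : 0 ≤ A := by
    have := Cst_nonneg n q
    have := (cN_pos hηq).le
    positivity
  set Cb := (A + r₀ ^ (-η)) / η with hCb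
  have hCb0 : 0 ≤ Cb := by positivity
  set Cc := C₀ + Cb with hCc
  have hCc0 : 0 ≤ Cc := by positivity
  refine ⟨min η (1 / (4 * (Cc + 1))), lt_min hη0 (by positivity), ?_, 2 * Real.exp (4 * Cc),
    by positivity, ?_⟩
  · exact lt_of_le_of_lt (min_le_left _ _) (by rw [hη]; linarith)
  intro p Θ K μ ν hp hpp hΘ H hEx
  have hpη : p ≤ η := hpp.trans (min_le_left _ _)
  have hpC : p * (4 * (Cc + 1)) ≤ 1 := by
    have := hpp.trans (min_le_right _ _)
    rwa [le_div_iff₀ (by positivity)] at this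
  have hpq : p < q := lt_of_le_of_lt hpη (by rw [hη]; linarith)
  haveI := hEx.mem.1
  have hΘlow := hlow p Θ hp hpq hΘ H
  have hgr := growth_half hp hq hEx.growth
  -- pointwise bound
  have hpt : ∀ ρ : ℝ, 1 ≤ ρ → ∀ x ∈ K,
      (1 - ρ ^ (-p)) * (ν {y : E n | ρ ≤ dist x y}).toReal ≤ p * Cc := by
    intro ρ hρ x hx
    have hρp : ρ ^ (-p) ≤ 1 := Real.rpow_le_one_of_one_le_of_nonpos hρ (by linarith)
    have hms : MeasurableSet {y : E n | ρ ≤ dist x y} :=
      (isClosed_le (by fun_prop) (by fun_prop)).measurableSet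
    set w := (ν {y : E n | ρ ≤ dist x y}).toReal with hw
    have hw0 : 0 ≤ w := ENNReal.toReal_nonneg
    have hwE : ν {y : E n | ρ ≤ dist x y} = ENNReal.ofReal w :=
      (ENNReal.ofReal_toReal (measure_ne_top _ _)).symm
    have hnear := near_le (r := r₀) hη0 hηq (Cst_nonneg n q) hr0 le_rfl hgr x
    have h1 : ENNReal.ofReal (Θ + (1 - ρ ^ (-p)) * w) ≤
        ENNReal.ofReal (1 + p / η * A + p / η * r₀ ^ (-η)) := by
      calc ENNReal.ofReal (Θ + (1 - ρ ^ (-p)) * w)
          = ENNReal.ofReal Θ + ENNReal.ofReal (1 - ρ ^ (-p)) * ν {y : E n | ρ ≤ dist x y} := by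
            rw [ENNReal.ofReal_add hΘ.le (mul_nonneg (by linarith) hw0),
              ENNReal.ofReal_mul (by linarith), hwE]
        _ ≤ UU p ν x + ENNReal.ofReal (1 - ρ ^ (-p)) * ν {y : E n | ρ ≤ dist x y} := by
            gcongr; exact hEx.pot x hx
        _ = ∫⁻ y, ((edist x y) ^ (-p) + {y : E n | ρ ≤ dist x y}.indicator
              (fun _ => ENNReal.ofReal (1 - ρ ^ (-p))) y) ∂ν := by
            rw [lintegral_add_left (by fun_prop), lintegral_indicator hms, setLIntegral_const]
            rfl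
        _ ≤ ∫⁻ y, (1 + ENNReal.ofReal (p / η) * (closedBall x r₀).indicator
              (fun y => (edist x y) ^ (-η)) y + ENNReal.ofReal (p / η * r₀ ^ (-η))) ∂ν :=
            lintegral_mono fun y => kernel_diam hp hpη hρ hr0 x y
        _ = 1 + ENNReal.ofReal (p / η) * ∫⁻ y in closedBall x r₀, (edist x y) ^ (-η) ∂ν +
            ENNReal.ofReal (p / η * r₀ ^ (-η)) := by
            rw [lintegral_add_right _ measurable_const, lintegral_add_left measurable_const,
              lintegral_const, lintegral_const, measure_univ, mul_one, mul_one,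
              lintegral_const_mul' _ _ ENNReal.ofReal_ne_top,
              lintegral_indicator measurableSet_closedBall]
        _ ≤ 1 + ENNReal.ofReal (p / η) * ENNReal.ofReal A +
            ENNReal.ofReal (p / η * r₀ ^ (-η)) := by gcongr
        _ = _ := by
            rw [ENNReal.ofReal_add (by positivity) (by positivity),
              ENNReal.ofReal_add zero_le_one (by positivity), ENNReal.ofReal_one,
              ENNReal.ofReal_mul (p := p / η) (q := A) (by positivity)]
    rw [ENNReal.ofReal_le_ofReal_iff (by positivity)] at h1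
    have h2 : p / η * A + p / η * r₀ ^ (-η) = p * Cb := by rw [hCb]; field_simp
    rw [hCc]
    linarith
  intro x hx x' hx'
  by_contra hcon
  push Not at hcon
  set ρ := dist x x' / 2 with hρ
  have hρe : Real.exp (4 * Cc) < ρ := by rw [hρ]; linarith
  have hρ1 : 1 ≤ ρ := by
    have : 1 ≤ Real.exp (4 * Cc) := Real.one_le_exp (by positivity)
    linarith
  have hρ0 : 0 < ρ := by linarith
  have hhalf : ∃ z ∈ K, 1 / 2 ≤ (ν {y : E n | ρ ≤ dist z y}).toReal := by
    by_contra hno
    push Not at hno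
    have h1 := hno x hx
    have h2 := hno x' hx'
    have hun : (univ : Set (E n)) ⊆ {y : E n | ρ ≤ dist x y} ∪ {y : E n | ρ ≤ dist x' y} := by
      intro y _
      by_contra hy
      simp only [mem_union, mem_ofPred_eq, not_or, not_le] at hy
      have := dist_triangle_right x x' y
      rw [hρ] at hy
      linarith [hy.1, hy.2]
    have h3 : (1:ℝ≥0∞) ≤ ν {y : E n | ρ ≤ dist x y} + ν {y : E n | ρ ≤ dist x' y} := by
      rw [← measure_univ (μ := ν)]
      exact (measure_mono hun).trans (measure_union_le _ _)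
    have h4 := ENNReal.toReal_mono (ENNReal.add_ne_top.2 ⟨measure_ne_top _ _,
      measure_ne_top _ _⟩) h3
    rw [ENNReal.toReal_add (measure_ne_top _ _) (measure_ne_top _ _), ENNReal.toReal_one] at h4
    linarith
  obtain ⟨z, hz, hzν⟩ := hhalf
  have h1 := hpt ρ hρ1 z hz
  have hρp : ρ ^ (-p) ≤ 1 := Real.rpow_le_one_of_one_le_of_nonpos hρ1 (by linarith)
  have h2 : 1 - ρ ^ (-p) ≤ 2 * (p * Cc) := by
    have : (1 - ρ ^ (-p)) * (1 / 2) ≤ (1 - ρ ^ (-p)) * (ν {y : E n | ρ ≤ dist z y}).toReal := by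
      gcongr
    linarith
  set u := 2 * (p * Cc) with hu
  have hu0 : 0 ≤ u := by positivity
  have hu1 : u ≤ 1 / 2 := by nlinarith
  have h3 : Real.exp (-(2 * u)) ≤ 1 - u := by
    have h4 : 1 / (1 - u) ≤ Real.exp (2 * u) := by
      have h5 := Real.add_one_le_exp (2 * u)
      have h6 : 1 / (1 - u) ≤ 2 * u + 1 := by
        rw [div_le_iff₀ (by linarith)]
        nlinarith
      linarith
    rw [Real.exp_neg, inv_le_comm₀ (Real.exp_pos _) (by linarith)]
    rwa [one_div] at h4
  have h4 : Real.exp (-(2 * u)) ≤ ρ ^ (-p) := by linarith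
  have h5 : ρ ^ (-p) < (Real.exp (4 * Cc)) ^ (-p) :=
    Real.rpow_lt_rpow_of_neg (Real.exp_pos _) hρe (by linarith)
  have h6 : (Real.exp (4 * Cc)) ^ (-p) = Real.exp (-(2 * u)) := by
    rw [← Real.exp_mul]
    congr 1
    rw [hu]
    ring
  linarith

end RieszRatio
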