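import Mathlib
import Pool.Agent.Lib.MP_ce24da_an.Exact

/-!
# The limit `p → 0` of exact maximisers
-/

open MeasureTheory Set Metric ENNReal Filter Topology
open scoped Pointwise NNReal BoundedContinuousFunction

set_option linter.style.haveILetI false

namespace RieszRatio

variable {n : ℕ}

/-- truncated logarithmic kernel -/
noncomputable def lkt (D r : ℝ) (z : E n × E n) : ℝ≥0 :=
  Real.toNNReal (Real.log (D / max (dist z.1 z.2) r))

lemma lkt_continuous {D r : ℝ} (hD : 0 < D) (hr : 0 < r) :
    Continuous (lkt D r : E n × E n → ℝ≥0) := by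
  unfold lkt
  refine continuous_real_toNNReal.comp ?_
  have hpos : ∀ z : E n × E n, 0 < max (dist z.1 z.2) r := fun z => lt_of_lt_of_le hr (le_max_right _ _)
  refine Continuous.log ?_ ?_
  · exact continuous_const.div (by fun_prop) fun z => (hpos z).ne'
  · intro z
    exact (div_pos hD (hpos z)).ne'

lemma lkt_bound {D r : ℝ} (hD : 0 < D) (hr : 0 < r) (z : E n × E n) :
    lkt D r z ≤ Real.toNNReal (Real.log (D / r)) := by
  unfold lkt
  apply Real.toNNReal_le_toNNReal
  apply Real.log_le_log (div_pos hD (lt_of_lt_of_le hr (le_max_right _ _)))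
  exact div_le_div_of_nonneg_left hD.le hr (le_max_right _ _)

/-- truncated kernel as a bounded continuous function -/
noncomputable def lktB {D r : ℝ} (hD : 0 < D) (hr : 0 < r) : (E n × E n) →ᵇ ℝ≥0 :=
  BoundedContinuousFunction.mkOfBound ⟨lkt D r, lkt_continuous hD hr⟩
    (Real.toNNReal (Real.log (D / r))) (by
    intro x y
    have h1 := lkt_bound hD hr x
    have h2 := lkt_bound hD hr y
    rw [NNReal.dist_eq]
    have h1' : ((lkt D r x : ℝ≥0) : ℝ) ≤ Real.toNNReal (Real.log (D / r)) := by exact_mod_cast h1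
    have h2' : ((lkt D r y : ℝ≥0) : ℝ) ≤ Real.toNNReal (Real.log (D / r)) := by exact_mod_cast h2
    rw [abs_le]
    constructor
    · have := (lkt D r x).coe_nonneg
      change -_ ≤ ((lkt D r x : ℝ≥0) : ℝ) - (lkt D r y : ℝ≥0)
      linarith
    · have := (lkt D r y).coe_nonneg
      change ((lkt D r x : ℝ≥0) : ℝ) - (lkt D r y : ℝ≥0) ≤ _
      linarith)

lemma lkt_le_lk {D r : ℝ} (hD : 0 < D) (hr : 0 < r) (z : E n × E n) :
    (lkt D r z : ℝ≥0∞) ≤ lk D z := by
  unfold lk
  by_cases h : z.1 = z.2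
  · rw [if_pos h]; exact le_top
  · rw [if_neg h]
    have hd : 0 < dist z.1 z.2 := dist_pos.2 h
    unfold lkt
    apply ENNReal.ofReal_le_ofReal
    apply Real.log_le_log (div_pos hD (lt_of_lt_of_le hr (le_max_right _ _)))
    exact div_le_div_of_nonneg_left hD.le hd (le_max_left _ _)

lemma lkt_anti {D r r' : ℝ} (hD : 0 < D) (hr : 0 < r) (h : r ≤ r') (z : E n × E n) :
    lkt D r' z ≤ lkt D r z := by
  unfold lkt
  apply Real.toNNReal_le_toNNReal
  have h1 : 0 < max (dist z.1 z.2) r := lt_of_lt_of_le hr (le_max_right _ _)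
  have h2 : max (dist z.1 z.2) r ≤ max (dist z.1 z.2) r' := max_le_max le_rfl h
  apply Real.log_le_log (div_pos hD (h1.trans_le h2))
  exact div_le_div_of_nonneg_left hD.le h1 h2

lemma iSup_lkt {D : ℝ} (hD : 0 < D) (z : E n × E n) :
    ⨆ m : ℕ, (lkt D (1 / ((m:ℝ) + 1)) z : ℝ≥0∞) = lk D z := by
  apply le_antisymm
  · exact iSup_le fun m => lkt_le_lk hD (by positivity) z
  · unfold lk
    by_cases h : z.1 = z.2
    · rw [if_pos h, top_le_iff, iSup_eq_top]
      intro b hb
      have h0 : dist z.1 z.2 = 0 := by rw [h, dist_self]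
      obtain ⟨m, hm⟩ := exists_nat_gt (Real.exp (b.toReal + 1) / D)
      refine ⟨m, ?_⟩
      unfold lkt
      rw [h0, max_eq_right (by positivity)]
      change b < ENNReal.ofReal _
      rw [ENNReal.lt_ofReal_iff_toReal_lt hb.ne]
      rw [div_lt_iff₀ hD] at hm
      have h2 : Real.exp (b.toReal + 1) < D / (1 / ((m:ℝ) + 1)) := by
        rw [div_div_eq_mul_div, div_one]
        nlinarith
      have h3 := Real.log_lt_log (Real.exp_pos _) h2
      rw [Real.log_exp] at h3
      linarith
    · rw [if_neg h]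
      have hd : 0 < dist z.1 z.2 := dist_pos.2 h
      obtain ⟨m, hm⟩ := exists_nat_one_div_lt hd
      refine le_trans (le_of_eq ?_) (le_iSup (fun m : ℕ => (lkt D (1 / ((m:ℝ) + 1)) z : ℝ≥0∞)) m)
      unfold lkt
      rw [max_eq_left hm.le]
      rfl

lemma measurable_lkt {D r : ℝ} (hD : 0 < D) (hr : 0 < r) :
    Measurable (fun z : E n × E n => (lkt D r z : ℝ≥0∞)) :=
  (lkt_continuous hD hr).measurable.coe_nnreal_ennreal

lemma LE_eq_iSup {D : ℝ} (hD : 0 < D) (μ ν : Measure (E n)) :
    LE D μ ν = ⨆ m : ℕ, ∫⁻ z, (lkt D (1 / ((m:ℝ) + 1)) z : ℝ≥0∞) ∂(μ.prod ν) := by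
  unfold LE
  rw [← lintegral_iSup]
  · simp_rw [iSup_lkt hD]
  · intro m; exact measurable_lkt hD (by positivity)
  · intro a b hab z
    simp only
    norm_cast
    apply lkt_anti hD (by positivity)
    exact one_div_le_one_div_of_le (by positivity) (by exact_mod_cast Nat.succ_le_succ hab)

/-- comparison of the logarithmic kernel with the Riesz kernel -/
lemma lk_le_kernel {D p : ℝ} (hD : 0 < D) (hp : 0 < p) (z : E n × E n) (hz : dist z.1 z.2 ≤ D) :
    ENNReal.ofReal p * lk D z + 1 ≤ ENNReal.ofReal (D ^ p) * (edist z.1 z.2) ^ (-p) := by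
  unfold lk
  by_cases h : z.1 = z.2
  · have h0 : dist z.1 z.2 = 0 := by rw [h, dist_self]
    rw [edist_dist, h0, ENNReal.ofReal_zero, ENNReal.zero_rpow_of_neg (by linarith),
      ENNReal.mul_top (by
        simp only [ne_eq, ENNReal.ofReal_eq_zero, not_le]; positivity)]
    exact le_top
  · rw [if_neg h]
    have hd : 0 < dist z.1 z.2 := dist_pos.2 h
    set t := D / dist z.1 z.2 with ht
    have ht1 : 1 ≤ t := by rw [ht, one_le_div hd]; exact hz
    have hlog : 0 ≤ Real.log t := Real.log_nonneg ht1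
    rw [edist_dist, ENNReal.ofReal_rpow_of_pos hd, ← ENNReal.ofReal_mul (by positivity),
      ← ENNReal.ofReal_mul (by positivity), ← ENNReal.ofReal_one,
      ← ENNReal.ofReal_add (by positivity) zero_le_one]
    apply ENNReal.ofReal_le_ofReal
    have h1 : D ^ p * dist z.1 z.2 ^ (-p) = t ^ p := by
      rw [ht, Real.div_rpow hD.le hd.le, Real.rpow_neg hd.le]; rfl
    rw [h1, Real.rpow_def_of_pos (by linarith)]
    have := Real.add_one_le_exp (Real.log t * p)
    linarith

/-- reverse comparison -/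
lemma kernel_le_lkt {D p η r : ℝ} (hD : 0 < D) (hp : 0 < p) (hpη : p ≤ η) (hr : 0 < r)
    (x y : E n) (hz : dist x y ≤ D) :
    ENNReal.ofReal (D ^ p) * (edist x y) ^ (-p) ≤
      1 + ENNReal.ofReal (p * (D / r) ^ p) * (lkt D r (x, y) : ℝ≥0∞) +
      ENNReal.ofReal (p / η * D ^ η) *
        (closedBall x r).indicator (fun y => (edist x y) ^ (-η)) y := by
  have hη : 0 < η := hp.trans_le hpη
  have hc0 : ENNReal.ofReal (p / η * D ^ η) ≠ 0 := by
    simp only [ne_eq, ENNReal.ofReal_eq_zero, not_le]; positivity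
  by_cases h0 : dist x y = 0
  · have : y ∈ closedBall x r := by rw [mem_closedBall, dist_comm, h0]; exact hr.le
    rw [indicator_of_mem this, edist_dist, h0, ENNReal.ofReal_zero,
      ENNReal.zero_rpow_of_neg (by linarith : -η < 0), ENNReal.mul_top hc0]
    simp
  have hd : 0 < dist x y := lt_of_le_of_ne dist_nonneg (Ne.symm h0)
  set t := D / dist x y with ht
  have ht1 : 1 ≤ t := by rw [ht, one_le_div hd]; exact hz
  have hk : ∀ s : ℝ, 0 ≤ s → ENNReal.ofReal (D ^ s) * (edist x y) ^ (-s) = ENNReal.ofReal (t ^ s) := by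
    intro s _
    rw [edist_dist, ENNReal.ofReal_rpow_of_pos hd, ← ENNReal.ofReal_mul (by positivity)]
    congr 1
    rw [ht, Real.div_rpow hD.le hd.le, Real.rpow_neg hd.le]; rfl
  rw [hk p hp.le]
  by_cases h1 : dist x y ≤ r
  · have : y ∈ closedBall x r := by rw [mem_closedBall, dist_comm]; exact h1
    have e1 : ENNReal.ofReal (p / η * D ^ η) * (edist x y) ^ (-η) =
        ENNReal.ofReal (p / η * t ^ η) := by
      rw [ENNReal.ofReal_mul (p := p / η) (q := D ^ η) (by positivity), mul_assoc, hk η hη.le,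
        ← ENNReal.ofReal_mul (by positivity)]
    rw [indicator_of_mem this, e1]
    have hB := rpow_le_aux ht1 hp hpη
    calc ENNReal.ofReal (t ^ p) ≤ ENNReal.ofReal (1 + p / η * t ^ η) := ENNReal.ofReal_le_ofReal hB
      _ = 1 + ENNReal.ofReal (p / η * t ^ η) := by
          rw [ENNReal.ofReal_add zero_le_one (by positivity), ENNReal.ofReal_one]
      _ ≤ _ := by
          gcongr
          exact le_self_add
  · push Not at h1
    refine le_trans ?_ le_self_add
    have hlkt : (lkt D r (x, y) : ℝ≥0∞) = ENNReal.ofReal (Real.log t) := by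
      unfold lkt
      simp only
      rw [max_eq_left h1.le]
      rfl
    have hlog : 0 ≤ Real.log t := Real.log_nonneg ht1
    rw [hlkt, ← ENNReal.ofReal_mul (by positivity), ← ENNReal.ofReal_one,
      ← ENNReal.ofReal_add zero_le_one (by positivity)]
    apply ENNReal.ofReal_le_ofReal
    have ht0 : 0 < t := by linarith
    have h2 : t ^ p - 1 ≤ p * t ^ p * Real.log t := by
      have h3 := Real.add_one_le_exp (-(Real.log t * p))
      have h4 : Real.exp (-(Real.log t * p)) = (t ^ p)⁻¹ := by
        rw [Real.exp_neg, ← Real.rpow_def_of_pos ht0]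
      rw [h4] at h3
      have h5 : 0 < t ^ p := by positivity
      have h6 : t ^ p * (-(Real.log t * p) + 1) ≤ t ^ p * (t ^ p)⁻¹ := by gcongr
      rw [mul_inv_cancel₀ h5.ne'] at h6
      linarith
    have h3 : t ^ p ≤ (D / r) ^ p := by
      apply Real.rpow_le_rpow ht0.le _ hp.le
      exact div_le_div_of_nonneg_left hD.le hr h1.le
    have h4 : p * t ^ p * Real.log t ≤ p * (D / r) ^ p * Real.log t := by gcongr
    linarith

lemma lkt_lip {D r : ℝ} (hD : 0 < D) (hr : 0 < r) (x x' y : E n) :
    (lkt D r (x', y) : ℝ≥0∞) ≤ lkt D r (x, y) + ENNReal.ofReal (dist x x' / r) := by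
  unfold lkt
  change ENNReal.ofReal _ ≤ ENNReal.ofReal _ + _
  simp only
  set a := max (dist x y) r with ha
  set b := max (dist x' y) r with hb
  have ha0 : 0 < a := lt_of_lt_of_le hr (le_max_right _ _)
  have hb0 : 0 < b := lt_of_lt_of_le hr (le_max_right _ _)
  have hbr : r ≤ b := le_max_right _ _
  have hab : a - b ≤ dist x x' := by
    have h1 : dist x y ≤ dist x x' + dist x' y := dist_triangle _ _ _
    have h2 : a ≤ dist x x' + b := by
      apply max_le
      · have := le_max_left (dist x' y) r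
        linarith
      · have := dist_nonneg (x := x) (y := x')
        linarith
    linarith
  have hd0 : 0 ≤ dist x x' := dist_nonneg
  have h3 : Real.log (D / b) ≤ Real.log (D / a) + dist x x' / r := by
    rw [Real.log_div hD.ne' hb0.ne', Real.log_div hD.ne' ha0.ne']
    have h4 : Real.log a - Real.log b ≤ (a - b) / b := by
      rw [← Real.log_div ha0.ne' hb0.ne']
      have := Real.log_le_sub_one_of_pos (div_pos ha0 hb0)
      have e : a / b - 1 = (a - b) / b := by field_simp
      linarith
    have h5 : (a - b) / b ≤ dist x x' / b := by gcongr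
    have h6 : dist x x' / b ≤ dist x x' / r := div_le_div_of_nonneg_left hd0 hr hbr
    linarith
  calc ENNReal.ofReal (Real.log (D / b)) ≤ ENNReal.ofReal (Real.log (D / a) + dist x x' / r) :=
        ENNReal.ofReal_le_ofReal h3
    _ ≤ _ := ENNReal.ofReal_add_le

end RieszRatio
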