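import Mathlib
import Pool.Agent.Lib.MP_ce24da_an.LogLim

/-!
# The limit `p → 0` of exact maximisers: main statements
-/

open MeasureTheory Set Metric ENNReal Filter Topology
open scoped Pointwise NNReal BoundedContinuousFunction

set_option linter.style.haveILetI false

namespace RieszRatio

variable {n : ℕ}

lemma ae_prod_mem {K₁ K₂ : Set (E n)} {μ ν : Measure (E n)} [SFinite μ] [SFinite ν]
    (h1 : μ K₁ᶜ = 0) (h2 : ν K₂ᶜ = 0) : ∀ᵐ z ∂(μ.prod ν), z.1 ∈ K₁ ∧ z.2 ∈ K₂ := by
  have a1 : ∀ᵐ z ∂(μ.prod ν), z.1 ∈ K₁ :=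
    (Measure.quasiMeasurePreserving_fst (μ := μ) (ν := ν)).ae (p := fun x => x ∈ K₁) h1
  have a2 : ∀ᵐ z ∂(μ.prod ν), z.2 ∈ K₂ :=
    (Measure.quasiMeasurePreserving_snd (μ := μ) (ν := ν)).ae (p := fun x => x ∈ K₂) h2
  filter_upwards [a1, a2] with z h h' using ⟨h, h'⟩

lemma dist_le_of_mem_closedBall {T : ℝ} {x y : E n} (hx : x ∈ closedBall (0 : E n) T)
    (hy : y ∈ closedBall (0 : E n) T) : dist x y ≤ 2 * T := by
  rw [mem_closedBall] at hx hy
  have := dist_triangle_right x y (0 : E n)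
  linarith

/-- integrated comparison -/
lemma LE_le_En {T p : ℝ} (hT : 0 < T) (hp : 0 < p) {μ ν : Measure (E n)}
    [IsProbabilityMeasure μ] [IsProbabilityMeasure ν] (hμ : μ (closedBall 0 T)ᶜ = 0)
    (hν : ν (closedBall 0 T)ᶜ = 0) :
    ENNReal.ofReal p * LE (2 * T) μ ν + 1 ≤ ENNReal.ofReal ((2 * T) ^ p) * En p μ ν := by
  unfold LE En
  rw [← lintegral_const_mul _ (measurable_lk _), ← lintegral_const_mul _ (measurable_kernel _)]
  have h1 : (1 : ℝ≥0∞) = ∫⁻ _ : E n × E n, 1 ∂(μ.prod ν) := by simp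
  rw [h1, ← lintegral_add_right _ measurable_const]
  apply lintegral_mono_ae
  filter_upwards [ae_prod_mem hμ hν] with z hz
  exact lk_le_kernel (by positivity) hp z (dist_le_of_mem_closedBall hz.1 hz.2)

lemma measurable_kernel_left (s : ℝ) (x : E n) :
    Measurable (fun y : E n => (edist x y) ^ (-s)) := by
  have h : Measurable (fun y : E n => edist x y) := measurable_edist_right
  exact h.pow_const _

lemma measurable_lkt_left {D r : ℝ} (hD : 0 < D) (hr : 0 < r) (x : E n) :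
    Measurable (fun y : E n => (lkt D r (x, y) : ℝ≥0∞)) := by
  have h : Measurable (fun y : E n => (x, y)) := measurable_prodMk_left
  exact (measurable_lkt hD hr).comp h

/-- A sequence of exact maximisers with `p → 0`, together with its limits. -/
structure LogSeq (n : ℕ) (q T : ℝ) (p Θ : ℕ → ℝ) (K : ℕ → Set (E n))
    (P N : ℕ → ProbabilityMeasure (E n)) (b : ℝ) (μ' ν' : ProbabilityMeasure (E n)) : Prop where
  q_pos : 0 < q
  T_pos : 0 < T
  p_pos : ∀ j, 0 < p j
  p_le : ∀ j, p j ≤ q / 4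
  p_lim : Tendsto p atTop (𝓝 0)
  Θ_pos : ∀ j, 0 < Θ j
  opt : ∀ j, Opt n (p j) q (Θ j)
  exact : ∀ j, Exact (p j) q (Θ j) (K j) (P j : Measure (E n)) (N j)
  bdd : ∀ j, K j ⊆ closedBall 0 T
  b_lim : Tendsto (fun j => ((2 * T) ^ (p j) * Θ j - 1) / p j) atTop (𝓝 b)
  μ_lim : Tendsto P atTop (𝓝 μ')
  ν_lim : Tendsto N atTop (𝓝 ν')

namespace LogSeq

variable {q T b : ℝ} {p Θ : ℕ → ℝ} {K : ℕ → Set (E n)} {P N : ℕ → ProbabilityMeasure (E n)}
  {μ' ν' : ProbabilityMeasure (E n)}

lemma En_le (S : LogSeq n q T p Θ K P N b μ' ν') : En q (μ' : Measure (E n)) μ' ≤ 1 := by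
  apply En_le_of_tendsto S.q_pos S.μ_lim S.μ_lim
  refine Eventually.of_forall fun j => ?_
  rw [(S.exact j).near.equil, (S.exact j).near.one]

lemma P_null (S : LogSeq n q T p Θ K P N b μ' ν') (j : ℕ) :
    (P j : Measure (E n)) (closedBall 0 T)ᶜ = 0 :=
  measure_mono_null (compl_subset_compl.2 (S.bdd j)) (S.exact j).near.mem.2

lemma N_null (S : LogSeq n q T p Θ K P N b μ' ν') (j : ℕ) :
    (N j : Measure (E n)) (closedBall 0 T)ᶜ = 0 :=
  measure_mono_null (compl_subset_compl.2 (S.bdd j)) (S.exact j).mem.2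

lemma μ_null (S : LogSeq n q T p Θ K P N b μ' ν') : (μ' : Measure (E n)) (closedBall 0 T)ᶜ = 0 :=
  null_compl_of_tendsto S.μ_lim isClosed_closedBall (Eventually.of_forall S.P_null)

lemma ν_null (S : LogSeq n q T p Θ K P N b μ' ν') : (ν' : Measure (E n)) (closedBall 0 T)ᶜ = 0 :=
  null_compl_of_tendsto S.ν_lim isClosed_closedBall (Eventually.of_forall S.N_null)

lemma supp_sub (S : LogSeq n q T p Θ K P N b μ' ν') :
    (μ' : Measure (E n)).support ⊆ closedBall 0 T := by
  intro x hx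
  by_contra hc
  have h1 : (closedBall (0 : E n) T)ᶜ ∈ 𝓝 x := isClosed_closedBall.isOpen_compl.mem_nhds hc
  exact absurd S.μ_null ((Measure.mem_support_iff_forall x).1 hx _ h1).ne'

lemma key (S : LogSeq n q T p Θ K P N b μ' ν') (j : ℕ) :
    ENNReal.ofReal (p j) * LE (2 * T) (N j : Measure (E n)) (N j) + 1 ≤
      ENNReal.ofReal ((2 * T) ^ (p j) * Θ j) := by
  have hD : 0 < 2 * T := by have := S.T_pos; linarith
  calc _ ≤ ENNReal.ofReal ((2 * T) ^ (p j)) * En (p j) (N j : Measure (E n)) (N j) :=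
        LE_le_En S.T_pos (S.p_pos j) (S.N_null j) (S.N_null j)
    _ ≤ ENNReal.ofReal ((2 * T) ^ (p j)) * ENNReal.ofReal (Θ j) := by
        gcongr
        rw [(S.exact j).equil]
        exact (S.exact j).near.VV_le (S.opt j)
    _ = _ := (ENNReal.ofReal_mul (by positivity)).symm

lemma one_le (S : LogSeq n q T p Θ K P N b μ' ν') (j : ℕ) : 1 ≤ (2 * T) ^ (p j) * Θ j := by
  have h := le_trans le_add_self (S.key j)
  exact ENNReal.one_le_ofReal.1 h

lemma b_nonneg (S : LogSeq n q T p Θ K P N b μ' ν') : 0 ≤ b := by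
  refine ge_of_tendsto S.b_lim (Eventually.of_forall fun j => ?_)
  exact div_nonneg (by linarith [S.one_le j]) (S.p_pos j).le

/-- the quotient -/
lemma LE_N_le (S : LogSeq n q T p Θ K P N b μ' ν') (j : ℕ) :
    LE (2 * T) (N j : Measure (E n)) (N j) ≤
      ENNReal.ofReal (((2 * T) ^ (p j) * Θ j - 1) / p j) := by
  have h := S.key j
  have hp := S.p_pos j
  have h1 := S.one_le j
  set c := (2 * T) ^ (p j) * Θ j with hc
  have e : ENNReal.ofReal c = ENNReal.ofReal (p j) * ENNReal.ofReal ((c - 1) / p j) + 1 := by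
    rw [← ENNReal.ofReal_mul hp.le, ← ENNReal.ofReal_one, ← ENNReal.ofReal_add _ zero_le_one]
    · congr 1
      field_simp
      ring
    · rw [mul_div_cancel₀ _ hp.ne']; linarith
  rw [e] at h
  have h2 := (ENNReal.add_le_add_iff_right ENNReal.one_ne_top).1 h
  exact (ENNReal.mul_le_mul_iff_right (by simpa using hp) ENNReal.ofReal_ne_top).1 h2

lemma LE_ν_le (S : LogSeq n q T p Θ K P N b μ' ν') :
    LE (2 * T) (ν' : Measure (E n)) ν' ≤ ENNReal.ofReal b := by
  have hD : 0 < 2 * T := by have := S.T_pos; linarith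
  rw [LE_eq_iSup hD]
  refine iSup_le fun m => ?_
  have hr : (0:ℝ) < 1 / ((m:ℝ) + 1) := by positivity
  have hprod : Tendsto (fun j => (N j).prod (N j)) atTop (𝓝 (ν'.prod ν')) :=
    ((ProbabilityMeasure.continuous_prod (α := E n) (β := E n)).tendsto (ν', ν')).comp
      (S.ν_lim.prodMk_nhds S.ν_lim)
  have h2 := (ProbabilityMeasure.tendsto_iff_forall_lintegral_tendsto.1 hprod) (lktB hD hr)
  refine le_of_tendsto_of_tendsto h2 (ENNReal.tendsto_ofReal S.b_lim)
    (Eventually.of_forall fun j => ?_)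
  refine le_trans ?_ (S.LE_N_le j)
  refine le_trans ?_ (le_of_eq (LE_eq_iSup hD _ _).symm)
  exact le_iSup (fun m : ℕ => ∫⁻ z, (lkt (2 * T) (1 / ((m:ℝ) + 1)) z : ℝ≥0∞)
    ∂((N j : Measure (E n)).prod (N j))) m

/-- points of `K j` near a point of the support -/
lemma exists_near (S : LogSeq n q T p Θ K P N b μ' ν') {x : E n}
    (hx : x ∈ (μ' : Measure (E n)).support) {τ : ℝ} (hτ : 0 < τ) :
    ∀ᶠ j in atTop, ∃ y ∈ K j, dist x y < τ := by
  have h0 : 0 < (μ' : Measure (E n)) (ball x τ) :=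
    (Measure.mem_support_iff_forall x).1 hx _ (ball_mem_nhds x hτ)
  have h1 := ProbabilityMeasure.le_liminf_measure_open_of_tendsto S.μ_lim (isOpen_ball (x := x) (ε := τ))
  have h2 : ∀ᶠ j in atTop, 0 < (P j : Measure (E n)) (ball x τ) :=
    eventually_lt_of_lt_liminf (h0.trans_le h1)
  filter_upwards [h2] with j hj
  by_contra hc
  push Not at hc
  refine hj.ne' (measure_mono_null ?_ (S.exact j).near.mem.2)
  intro y hy hyK
  rw [mem_ball, dist_comm] at hy
  exact absurd (hc y hyK) (not_le.2 hy)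

/-- the main inequality before passing to the limit -/
lemma pot_aux (S : LogSeq n q T p Θ K P N b μ' ν') {r : ℝ} (hr : 0 < r) (hrr : r ≤ rst q) (j : ℕ)
    {x y : E n} (hy : y ∈ K j) {τ : ℝ} (hxy : dist x y ≤ τ) :
    ENNReal.ofReal (((2 * T) ^ (p j) * Θ j - 1) / p j) ≤
      ENNReal.ofReal ((2 * T / r) ^ (p j)) *
        (∫⁻ w, (lkt (2 * T) r (x, w) : ℝ≥0∞) ∂(N j : Measure (E n)) + ENNReal.ofReal (τ / r)) +
      ENNReal.ofReal ((q / 4)⁻¹ * (2 * T) ^ (q / 4) *
        (Cst n q * cN (q / 4) (q / 2) * r ^ (q / 2 - q / 4))) := by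
  have hD : 0 < 2 * T := by have := S.T_pos; linarith
  have hq := S.q_pos
  have hp := S.p_pos j
  have h1 := S.one_le j
  set c := (2 * T) ^ (p j) * Θ j with hc
  have hη : 0 < q / 4 := by linarith
  -- the pointwise bound
  have hyT : y ∈ closedBall (0 : E n) T := S.bdd j hy
  have hae : ∀ᵐ w ∂(N j : Measure (E n)), w ∈ closedBall (0 : E n) T := S.N_null j
  have hint : ENNReal.ofReal c ≤ ∫⁻ w, (1 + ENNReal.ofReal (p j * (2 * T / r) ^ (p j)) *
      ((lkt (2 * T) r (x, w) : ℝ≥0∞) + ENNReal.ofReal (τ / r)) +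
      ENNReal.ofReal (p j / (q / 4) * (2 * T) ^ (q / 4)) *
        (closedBall y r).indicator (fun w => (edist y w) ^ (-(q / 4))) w) ∂(N j : Measure (E n)) := by
    calc ENNReal.ofReal c = ENNReal.ofReal ((2 * T) ^ (p j)) * ENNReal.ofReal (Θ j) :=
          ENNReal.ofReal_mul (by positivity)
      _ ≤ ENNReal.ofReal ((2 * T) ^ (p j)) * UU (p j) (N j : Measure (E n)) y := by
          gcongr
          exact (S.exact j).pot y hy
      _ = ∫⁻ w, ENNReal.ofReal ((2 * T) ^ (p j)) * (edist y w) ^ (-(p j)) ∂(N j : Measure (E n)) := by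
          unfold UU
          rw [lintegral_const_mul]
          exact measurable_kernel_left (p j) y
      _ ≤ _ := by
          apply lintegral_mono_ae
          filter_upwards [hae] with w hw
          refine (kernel_le_lkt hD hp (S.p_le j) hr y w (dist_le_of_mem_closedBall hyT hw)).trans ?_
          gcongr
          refine (lkt_lip hD hr x y w).trans ?_
          gcongr
  have hm1 : Measurable (fun w => (lkt (2 * T) r (x, w) : ℝ≥0∞)) :=
    measurable_lkt_left hD hr x
  have hm2 : Measurable ((closedBall y r).indicator (fun w : E n => (edist y w) ^ (-(q / 4)))) :=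
    (measurable_kernel_left (q / 4) y).indicator
      isClosed_closedBall.measurableSet
  have hm3 : Measurable (fun w => (lkt (2 * T) r (x, w) : ℝ≥0∞) + ENNReal.ofReal (τ / r)) :=
    hm1.add measurable_const
  rw [lintegral_add_right _ (hm2.const_mul _), lintegral_add_left measurable_const,
    lintegral_const_mul _ hm2,
    lintegral_const_mul _ hm3, lintegral_add_right _ measurable_const,
    lintegral_indicator isClosed_closedBall.measurableSet] at hint
  simp only [lintegral_const, measure_univ, mul_one] at hint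
  have hnear := near_le (p := q / 4) (β := q / 2) hη (by linarith) (Cst_nonneg n q) hr hrr
    (growth_half hp hq (S.exact j).growth) y
  set L := ∫⁻ w, (lkt (2 * T) r (x, w) : ℝ≥0∞) ∂(N j : Measure (E n)) with hL
  set A := Cst n q * cN (q / 4) (q / 2) * r ^ (q / 2 - q / 4) with hA
  have hA0 : 0 ≤ A := by
    have := Cst_nonneg n q
    have := (cN_pos (s := q / 4) (β := q / 2) (by linarith)).le
    positivity
  have e : ENNReal.ofReal c = ENNReal.ofReal (p j) * ENNReal.ofReal ((c - 1) / p j) + 1 := by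
    rw [← ENNReal.ofReal_mul hp.le, ← ENNReal.ofReal_one, ← ENNReal.ofReal_add _ zero_le_one]
    · congr 1
      field_simp
      ring
    · rw [mul_div_cancel₀ _ hp.ne']; linarith
  have h3 : ENNReal.ofReal (p j) * ENNReal.ofReal ((c - 1) / p j) + 1 ≤
      ENNReal.ofReal (p j) * (ENNReal.ofReal ((2 * T / r) ^ (p j)) * (L + ENNReal.ofReal (τ / r)) +
      ENNReal.ofReal ((q / 4)⁻¹ * (2 * T) ^ (q / 4) * A)) + 1 := by
    rw [← e]
    refine hint.trans ?_
    calc 1 + ENNReal.ofReal (p j * (2 * T / r) ^ (p j)) * (L + ENNReal.ofReal (τ / r)) +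
          ENNReal.ofReal (p j / (q / 4) * (2 * T) ^ (q / 4)) *
            ∫⁻ (a : E n) in closedBall y r, edist y a ^ (-(q / 4)) ∂(N j : Measure (E n))
        ≤ 1 + ENNReal.ofReal (p j * (2 * T / r) ^ (p j)) * (L + ENNReal.ofReal (τ / r)) +
          ENNReal.ofReal (p j / (q / 4) * (2 * T) ^ (q / 4)) * ENNReal.ofReal A := by gcongr
      _ = _ := by
          have e1 : ENNReal.ofReal (p j * (2 * T / r) ^ (p j)) =
              ENNReal.ofReal (p j) * ENNReal.ofReal ((2 * T / r) ^ (p j)) :=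
            ENNReal.ofReal_mul hp.le
          have e2 : ENNReal.ofReal (p j / (q / 4) * (2 * T) ^ (q / 4)) * ENNReal.ofReal A =
              ENNReal.ofReal (p j) * ENNReal.ofReal ((q / 4)⁻¹ * (2 * T) ^ (q / 4) * A) := by
            rw [← ENNReal.ofReal_mul (by positivity), ← ENNReal.ofReal_mul hp.le]
            congr 1
            ring
          rw [e1, e2]
          ring
  have h4 := (ENNReal.add_le_add_iff_right ENNReal.one_ne_top).1 h3
  exact (ENNReal.mul_le_mul_iff_right (by simpa using hp) ENNReal.ofReal_ne_top).1 h4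

/-- truncated kernel with one variable fixed, as a bounded continuous function -/
noncomputable def lktX {D r : ℝ} (hD : 0 < D) (hr : 0 < r) (x : E n) : (E n) →ᵇ ℝ≥0 :=
  (lktB hD hr).compContinuous ⟨fun y => (x, y), by fun_prop⟩

/-- the inequality in the limit, with the truncation parameters -/
lemma pot_aux2 (S : LogSeq n q T p Θ K P N b μ' ν') {r : ℝ} (hr : 0 < r) (hrr : r ≤ rst q)
    {x : E n} (hx : x ∈ (μ' : Measure (E n)).support) {τ : ℝ} (hτ : 0 < τ) :
    ENNReal.ofReal b ≤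
      (∫⁻ w, (lkt (2 * T) r (x, w) : ℝ≥0∞) ∂(ν' : Measure (E n)) + ENNReal.ofReal (τ / r)) +
      ENNReal.ofReal ((q / 4)⁻¹ * (2 * T) ^ (q / 4) *
        (Cst n q * cN (q / 4) (q / 2) * r ^ (q / 2 - q / 4))) := by
  have hD : 0 < 2 * T := by have := S.T_pos; linarith
  have h1 : Tendsto (fun j => ∫⁻ w, (lkt (2 * T) r (x, w) : ℝ≥0∞) ∂(N j : Measure (E n))) atTop
      (𝓝 (∫⁻ w, (lkt (2 * T) r (x, w) : ℝ≥0∞) ∂(ν' : Measure (E n)))) :=
    (ProbabilityMeasure.tendsto_iff_forall_lintegral_tendsto.1 S.ν_lim) (lktX hD hr x)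
  have h2 : Tendsto (fun j => ENNReal.ofReal ((2 * T / r) ^ (p j))) atTop (𝓝 1) := by
    have h3 : Tendsto (fun j => (2 * T / r) ^ (p j)) atTop (𝓝 ((2 * T / r) ^ (0:ℝ))) :=
      ((Real.continuous_const_rpow (by positivity)).tendsto 0).comp S.p_lim
    rw [Real.rpow_zero] at h3
    have := ENNReal.tendsto_ofReal h3
    rwa [ENNReal.ofReal_one] at this
  have h4 := ENNReal.Tendsto.mul h2 (Or.inl one_ne_zero)
    (h1.add (tendsto_const_nhds (x := ENNReal.ofReal (τ / r)))) (Or.inr ENNReal.one_ne_top)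
  rw [one_mul] at h4
  refine le_of_tendsto_of_tendsto (ENNReal.tendsto_ofReal S.b_lim)
    (h4.add (tendsto_const_nhds (x := ENNReal.ofReal ((q / 4)⁻¹ * (2 * T) ^ (q / 4) *
        (Cst n q * cN (q / 4) (q / 2) * r ^ (q / 2 - q / 4)))))) ?_
  filter_upwards [S.exists_near hx hτ] with j hj
  obtain ⟨y, hy, hxy⟩ := hj
  exact S.pot_aux hr hrr j hy hxy.le

/-- the logarithmic potential of the limit is at least `b` on the support -/
lemma pot_ge (S : LogSeq n q T p Θ K P N b μ' ν') {x : E n}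
    (hx : x ∈ (μ' : Measure (E n)).support) :
    ENNReal.ofReal b ≤ ∫⁻ w, lk (2 * T) (x, w) ∂(ν' : Measure (E n)) := by
  have hD : 0 < 2 * T := by have := S.T_pos; linarith
  have hq := S.q_pos
  set A := (q / 4)⁻¹ * (2 * T) ^ (q / 4) * (Cst n q * cN (q / 4) (q / 2)) with hA
  -- first `τ → 0`
  have h1 : ∀ r : ℝ, 0 < r → r ≤ rst q → ENNReal.ofReal b ≤
      ∫⁻ w, lk (2 * T) (x, w) ∂(ν' : Measure (E n)) +
      ENNReal.ofReal (A * r ^ (q / 2 - q / 4)) := by
    intro r hr hrr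
    have ht : Tendsto (fun τ : ℝ =>
        (∫⁻ w, lk (2 * T) (x, w) ∂(ν' : Measure (E n)) + ENNReal.ofReal (τ / r)) +
        ENNReal.ofReal (A * r ^ (q / 2 - q / 4))) (𝓝[>] 0)
        (𝓝 ((∫⁻ w, lk (2 * T) (x, w) ∂(ν' : Measure (E n)) + ENNReal.ofReal (0 / r)) +
        ENNReal.ofReal (A * r ^ (q / 2 - q / 4)))) := by
      apply Tendsto.mono_left _ nhdsWithin_le_nhds
      refine (tendsto_const_nhds.add (ENNReal.tendsto_ofReal ?_)).add tendsto_const_nhds
      exact (tendsto_id.div_const r)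
    rw [zero_div, ENNReal.ofReal_zero, add_zero] at ht
    refine ge_of_tendsto ht ?_
    filter_upwards [self_mem_nhdsWithin] with τ hτ
    refine (S.pot_aux2 hr hrr hx hτ).trans ?_
    have e : (q / 4)⁻¹ * (2 * T) ^ (q / 4) *
        (Cst n q * cN (q / 4) (q / 2) * r ^ (q / 2 - q / 4)) = A * r ^ (q / 2 - q / 4) := by
      rw [hA]; ring
    rw [e]
    gcongr with w
    exact lkt_le_lk hD hr _
  -- then `r → 0`
  have ht : Tendsto (fun r : ℝ =>
      ∫⁻ w, lk (2 * T) (x, w) ∂(ν' : Measure (E n)) +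
      ENNReal.ofReal (A * r ^ (q / 2 - q / 4))) (𝓝[>] 0)
      (𝓝 (∫⁻ w, lk (2 * T) (x, w) ∂(ν' : Measure (E n)) +
      ENNReal.ofReal (A * (0:ℝ) ^ (q / 2 - q / 4)))) := by
    apply Tendsto.mono_left _ nhdsWithin_le_nhds
    refine tendsto_const_nhds.add (ENNReal.tendsto_ofReal ?_)
    refine Tendsto.const_mul A ?_
    exact (Real.continuousAt_rpow_const 0 (q / 2 - q / 4) (Or.inr (by linarith))).tendsto
  rw [Real.zero_rpow (by linarith), mul_zero, ENNReal.ofReal_zero, add_zero] at ht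
  refine ge_of_tendsto ht ?_
  have hmem : Ioc (0:ℝ) (rst q) ∈ 𝓝[>] (0:ℝ) := Ioc_mem_nhdsGT (rst_pos q)
  filter_upwards [hmem] with r hr
  exact h1 r hr.1 hr.2

/-- the least logarithmic energy of the limiting support is at least `b` -/
theorem LE_ge [NeZero n] (S : LogSeq n q T p Θ K P N b μ' ν') {σ : Measure (E n)}
    (hσ : σ ∈ PP (μ' : Measure (E n)).support) : ENNReal.ofReal b ≤ LE (2 * T) σ σ := by
  haveI := hσ.1
  have hσT : σ (closedBall 0 T)ᶜ = 0 := measure_mono_null (compl_subset_compl.2 S.supp_sub) hσ.2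
  have h1 : ENNReal.ofReal b ≤ LE (2 * T) σ (ν' : Measure (E n)) := by
    unfold LE
    rw [lintegral_prod _ (measurable_lk _).aemeasurable]
    have hae : ∀ᵐ x ∂σ, x ∈ (μ' : Measure (E n)).support := hσ.2
    calc ENNReal.ofReal b = ∫⁻ _, ENNReal.ofReal b ∂σ := by simp
      _ ≤ _ := by
          apply lintegral_mono_ae
          filter_upwards [hae] with x hx
          exact S.pot_ge hx
  have h2 := log_PD S.T_pos hσT S.ν_null
  have h3 := S.LE_ν_le
  have h4 : ENNReal.ofReal b + ENNReal.ofReal b ≤ LE (2 * T) σ σ + ENNReal.ofReal b := by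
    calc ENNReal.ofReal b + ENNReal.ofReal b = 2 * ENNReal.ofReal b := (two_mul _).symm
      _ ≤ 2 * LE (2 * T) σ (ν' : Measure (E n)) := by gcongr
      _ ≤ LE (2 * T) σ σ + LE (2 * T) (ν' : Measure (E n)) ν' := h2
      _ ≤ _ := by gcongr
  exact (ENNReal.add_le_add_iff_right ENNReal.ofReal_ne_top).1 h4

end LogSeq

end RieszRatio
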