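import Mathlib
import Pool.Agent.Lib.MP_ce24da_an.LogLimit
import Pool.Agent.Lib.MP_ce24da_an.PartA

/-!
# Existence in the logarithmic case
-/

open MeasureTheory Set Metric ENNReal Filter Topology
open scoped Pointwise NNReal BoundedContinuousFunction

set_option linter.style.haveILetI false

namespace RieszRatio

variable {n : ℕ}

/-- the asymptotics of the normalised optimal constants -/
lemma tendsto_quot {p Θ : ℕ → ℝ} {ℓ : ℝ} (hp : ∀ j, 0 < p j) (hp0 : Tendsto p atTop (𝓝 0))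
    (hℓ : Tendsto (fun j => (Θ j - 1) / p j) atTop (𝓝 ℓ)) {c : ℝ} (hc : 0 < c) :
    Tendsto (fun j => (c ^ (p j) * Θ j - 1) / p j) atTop (𝓝 (ℓ + Real.log c)) := by
  have h1 : Tendsto (fun j => c ^ (p j)) atTop (𝓝 1) := by
    have h3 : Tendsto (fun j => c ^ (p j)) atTop (𝓝 (c ^ (0:ℝ))) :=
      ((Real.continuous_const_rpow hc.ne').tendsto 0).comp hp0
    rwa [Real.rpow_zero] at h3
  have h2 : Tendsto (fun j => (c ^ (p j) - 1) / p j) atTop (𝓝 (Real.log c)) := by
    have hd : HasDerivAt (fun x : ℝ => c ^ x) (Real.log c) 0 := by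
      have := (Real.hasStrictDerivAt_const_rpow hc 0).hasDerivAt
      rwa [Real.rpow_zero, one_mul] at this
    have hs := hd.tendsto_slope_zero
    have hp0' : Tendsto p atTop (𝓝[≠] 0) := by
      rw [tendsto_nhdsWithin_iff]
      exact ⟨hp0, Eventually.of_forall fun j => (hp j).ne'⟩
    have := hs.comp hp0'
    refine this.congr fun j => ?_
    simp only [Function.comp, zero_add, Real.rpow_zero, smul_eq_mul]
    rw [div_eq_inv_mul]
  have h3 := (h1.mul hℓ).add h2
  rw [one_mul] at h3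
  refine h3.congr fun j => ?_
  have := (hp j).ne'
  field_simp
  ring

lemma quot_le {p c : ℝ} (hp : 0 < p) {X : ℝ≥0∞}
    (h : ENNReal.ofReal p * X + 1 ≤ ENNReal.ofReal c) : X ≤ ENNReal.ofReal ((c - 1) / p) := by
  have h1 : 1 ≤ c := ENNReal.one_le_ofReal.1 (le_trans le_add_self h)
  have e : ENNReal.ofReal c = ENNReal.ofReal p * ENNReal.ofReal ((c - 1) / p) + 1 := by
    rw [← ENNReal.ofReal_mul hp.le, ← ENNReal.ofReal_one, ← ENNReal.ofReal_add _ zero_le_one]
    · congr 1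
      field_simp
      ring
    · rw [mul_div_cancel₀ _ hp.ne']; linarith
  rw [e] at h
  have h2 := (ENNReal.add_le_add_iff_right ENNReal.one_ne_top).1 h
  exact (ENNReal.mul_le_mul_iff_right (by simpa using hp) ENNReal.ofReal_ne_top).1 h2

/-- the comparison for an arbitrary compact set -/
lemma compare [NeZero n] {q : ℝ} {p Θ : ℕ → ℝ} {ℓ : ℝ} (hq : 0 < q)
    (hp : ∀ j, 0 < p j) (hp0 : Tendsto p atTop (𝓝 0))
    (hℓ : Tendsto (fun j => (Θ j - 1) / p j) atTop (𝓝 ℓ)) (hΘ : ∀ j, 0 < Θ j)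
    (H : ∀ j, Opt n (p j) q (Θ j)) {K : Set (E n)} (hK : IsCompact K) (hv : VV q K ≠ ∞)
    {T : ℝ} (hT : 0 < T) (hKT : K ⊆ closedBall 0 T) :
    0 ≤ ℓ + Real.log (2 * T) + Real.log (VV q K).toReal / q ∧
    ⨅ σ ∈ PP K, LE (2 * T) σ σ ≤
      ENNReal.ofReal (ℓ + Real.log (2 * T) + Real.log (VV q K).toReal / q) := by
  have hne := nonempty_of_VV hv
  have hv0 : 0 < (VV q K).toReal := ENNReal.toReal_pos (VV_pos hq hK) hv
  set v := (VV q K).toReal with hvdef
  have hvE : VV q K = ENNReal.ofReal v := (ENNReal.ofReal_toReal hv).symm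
  have hc : 0 < 2 * T * v ^ (1 / q) := by positivity
  have hlim := tendsto_quot hp hp0 hℓ hc
  have hlog : ℓ + Real.log (2 * T * v ^ (1 / q)) = ℓ + Real.log (2 * T) + Real.log v / q := by
    rw [Real.log_mul (by positivity) (by positivity), Real.log_rpow hv0]
    ring
  rw [hlog] at hlim
  have hmain : ∀ j, ∃ σ ∈ PP K, ENNReal.ofReal (p j) * LE (2 * T) σ σ + 1 ≤
      ENNReal.ofReal ((2 * T * v ^ (1 / q)) ^ (p j) * Θ j) := by
    intro j
    obtain ⟨σ, hσ, hσE⟩ := exists_equil (hp j) hK hne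
    haveI := hσ.1
    have hσT : σ (closedBall 0 T)ᶜ = 0 := measure_mono_null (compl_subset_compl.2 hKT) hσ.2
    refine ⟨σ, hσ, ?_⟩
    calc ENNReal.ofReal (p j) * LE (2 * T) σ σ + 1
        ≤ ENNReal.ofReal ((2 * T) ^ (p j)) * En (p j) σ σ := LE_le_En hT (hp j) hσT hσT
      _ ≤ ENNReal.ofReal ((2 * T) ^ (p j)) * (ENNReal.ofReal (Θ j) * (VV q K) ^ (p j / q)) := by
          rw [hσE]
          gcongr
          exact H j K hK hv
      _ = ENNReal.ofReal ((2 * T * v ^ (1 / q)) ^ (p j) * Θ j) := by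
          rw [hvE, ENNReal.ofReal_rpow_of_pos hv0, ← ENNReal.ofReal_mul (hΘ j).le,
            ← ENNReal.ofReal_mul (by positivity)]
          congr 1
          rw [Real.mul_rpow (x := 2 * T) (y := v ^ (1 / q)) (by positivity) (by positivity),
            ← Real.rpow_mul hv0.le]
          have : 1 / q * p j = p j / q := by ring
          rw [this]
          ring
  constructor
  · refine ge_of_tendsto hlim (Eventually.of_forall fun j => ?_)
    obtain ⟨σ, -, h⟩ := hmain j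
    have h1 := ENNReal.one_le_ofReal.1 (le_trans le_add_self h)
    exact div_nonneg (by linarith) (hp j).le
  · refine ge_of_tendsto (ENNReal.tendsto_ofReal hlim) (Eventually.of_forall fun j => ?_)
    obtain ⟨σ, hσ, h⟩ := hmain j
    exact (iInf₂_le σ hσ).trans (quot_le (hp j) h)

/-- existence in the logarithmic case, in terms of the shifted logarithmic kernel -/
theorem partB [NeZero n] {q : ℝ} (hq : 0 < q) (hqn : q < n) :
    ∃ (ℓ T : ℝ) (μ : Measure (E n)), 1 ≤ T ∧ 0 ≤ ℓ + Real.log (2 * T) ∧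
      μ ∈ PP μ.support ∧ IsCompact μ.support ∧
      μ.support ⊆ closedBall 0 T ∧ En q μ μ ≤ 1 ∧
      (∀ σ ∈ PP μ.support, ENNReal.ofReal (ℓ + Real.log (2 * T)) ≤ LE (2 * T) σ σ) ∧
      (∀ K : Set (E n), IsCompact K → VV q K ≠ ∞ → ∀ T' : ℝ, 0 < T' → K ⊆ closedBall 0 T' →
        0 ≤ ℓ + Real.log (2 * T') + Real.log (VV q K).toReal / q ∧
        ⨅ σ ∈ PP K, LE (2 * T') σ σ ≤
          ENNReal.ofReal (ℓ + Real.log (2 * T') + Real.log (VV q K).toReal / q)) := by
  obtain ⟨C₀, hC₀, hTh⟩ := Theta_ge (n := n) hq hqn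
  obtain ⟨p₀, hp₀, hp₀q, Λ, hΛ, hdiam⟩ := diam_bound (n := n) hq hqn
  set ε₀ := min p₀ (q / 4) with hε₀
  have hε₀pos : 0 < ε₀ := lt_min hp₀ (by linarith)
  set p : ℕ → ℝ := fun j => ε₀ / ((j:ℝ) + 1) with hpdef
  have hp : ∀ j, 0 < p j := fun j => by simp only [hpdef]; positivity
  have hpε : ∀ j, p j ≤ ε₀ := fun j => by
    simp only [hpdef]
    apply div_le_self hε₀pos.le
    have : (0:ℝ) ≤ j := Nat.cast_nonneg j
    linarith
  have hpq4 : ∀ j, p j ≤ q / 4 := fun j => (hpε j).trans (min_le_right _ _)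
  have hpp₀ : ∀ j, p j ≤ p₀ := fun j => (hpε j).trans (min_le_left _ _)
  have hpq : ∀ j, p j < q := fun j => by have := hpq4 j; linarith
  have hp0 : Tendsto p atTop (𝓝 0) := by
    simp only [hpdef]
    have h := (tendsto_one_div_add_atTop_nhds_zero_nat (𝕜 := ℝ)).const_mul ε₀
    rw [mul_zero] at h
    refine h.congr fun j => ?_
    ring
  -- choose exact maximisers
  have hex : ∀ j, ∃ (Θ : ℝ) (μ ν : Measure (E n)), 0 < Θ ∧ Θ ≤ 1 ∧ Opt n (p j) q Θ ∧
      Exact (p j) q Θ μ.support μ ν ∧ μ.support ⊆ closedBall 0 (1 + Λ) := by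
    intro j
    obtain ⟨Θ, hΘ, hΘ1, H, μ₁, hμ₁⟩ := partA (n := n) (hp j) (hpq j) hqn
    -- a point of the support
    have hne : ((μ₁ : Measure (E n)).support).Nonempty := by
      apply nonempty_of_VV (s := q)
      rw [hμ₁.one]
      exact ENNReal.one_ne_top
    obtain ⟨a, ha⟩ := hne
    have ha1 : 0 < (μ₁ : Measure (E n)) (closedBall a 1) :=
      (Measure.mem_support_iff_forall a).1 ha _ (closedBall_mem_nhds a one_pos)
    obtain ⟨K', μ, hμ, hc⟩ := near_translate (hp j) hq hμ₁ a (le_refl ((μ₁ : Measure (E n)) (closedBall a 1)))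
    have hμs := near_support hμ
    obtain ⟨ν, hν⟩ := exact_of_near (hp j) (hpq j) hΘ hΘ1 H hμ
    refine ⟨Θ, μ, ν, hΘ, hΘ1, H, hν, ?_⟩
    have hex0 : ∃ x₀ ∈ μ.support, x₀ ∈ closedBall (0 : E n) 1 := by
      by_contra hcon
      push Not at hcon
      have : μ (closedBall 0 1) = 0 := by
        refine measure_mono_null ?_ hμs.mem.2
        intro y hy hys
        exact hcon y hys hy
      rw [this] at hc
      exact absurd hc (not_le.2 ha1)
    obtain ⟨x₀, hx₀, hx₀1⟩ := hex0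
    intro x hx
    have := hdiam (p j) Θ μ.support μ ν (hp j) (hpp₀ j) hΘ H hν x hx x₀ hx₀
    rw [mem_closedBall] at hx₀1 ⊢
    have h3 := dist_triangle x x₀ 0
    linarith
  choose Θ μ ν hΘ hΘ1 H hE hsub using hex
  -- the normalised constants
  have hℓmem : ∀ j, (Θ j - 1) / p j ∈ Icc (-C₀) 0 := by
    intro j
    have h1 := hTh (p j) (Θ j) (hp j) (hpq j) (hΘ j) (H j)
    constructor
    · rw [le_div_iff₀ (hp j)]
      linarith
    · apply div_nonpos_of_nonpos_of_nonneg _ (hp j).le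
      have := hΘ1 j
      linarith
  obtain ⟨ℓ, -, φ₁, hφ₁, hℓ⟩ := isCompact_Icc.tendsto_subseq hℓmem
  -- probability measures
  let P : ℕ → ProbabilityMeasure (E n) := fun j => ⟨μ j, (hE j).near.mem.1⟩
  let N : ℕ → ProbabilityMeasure (E n) := fun j => ⟨ν j, (hE j).mem.1⟩
  have hPnull : ∀ j, (P j : Measure (E n)) (closedBall 0 (1 + Λ))ᶜ = 0 := fun j =>
    measure_mono_null (compl_subset_compl.2 (hsub j)) (hE j).near.mem.2
  have hNnull : ∀ j, (N j : Measure (E n)) (closedBall 0 (1 + Λ))ᶜ = 0 := fun j =>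
    measure_mono_null (compl_subset_compl.2 (hsub j)) (hE j).mem.2
  obtain ⟨μ', φ₂, hφ₂, hμ'⟩ := exists_subseq_of_tight (P ∘ φ₁) (fun ε _ => ⟨1 + Λ, fun j => by
    rw [Function.comp_apply, hPnull]; exact zero_le⟩)
  obtain ⟨ν', φ₃, hφ₃, hν'⟩ := exists_subseq_of_tight (N ∘ φ₁ ∘ φ₂) (fun ε _ => ⟨1 + Λ, fun j => by
    rw [Function.comp_apply, hNnull]; exact zero_le⟩)
  set φ : ℕ → ℕ := φ₁ ∘ φ₂ ∘ φ₃ with hφ
  have hφm : StrictMono φ := hφ₁.comp (hφ₂.comp hφ₃)
  have hT : 1 ≤ 1 + Λ := by linarith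
  have hℓ' : Tendsto (fun j => (Θ (φ j) - 1) / p (φ j)) atTop (𝓝 ℓ) :=
    hℓ.comp ((hφ₂.comp hφ₃).tendsto_atTop)
  have hp0' : Tendsto (fun j => p (φ j)) atTop (𝓝 0) := hp0.comp hφm.tendsto_atTop
  have hD : 0 < 2 * (1 + Λ) := by linarith
  have S : LogSeq n q (1 + Λ) (fun j => p (φ j)) (fun j => Θ (φ j)) (fun j => (μ (φ j)).support)
      (fun j => P (φ j)) (fun j => N (φ j)) (ℓ + Real.log (2 * (1 + Λ))) μ' ν' :=
    { q_pos := hq
      T_pos := by linarith
      p_pos := fun j => hp _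
      p_le := fun j => hpq4 _
      p_lim := hp0'
      Θ_pos := fun j => hΘ _
      opt := fun j => H _
      exact := fun j => hE _
      bdd := fun j => hsub _
      b_lim := tendsto_quot (fun j => hp _) hp0' hℓ' hD
      μ_lim := hμ'.comp hφ₃.tendsto_atTop
      ν_lim := hν' }
  refine ⟨ℓ, 1 + Λ, (μ' : Measure (E n)), hT, S.b_nonneg, ⟨inferInstance, ?_⟩, ?_, S.supp_sub, S.En_le,
    fun σ hσ => S.LE_ge hσ, ?_⟩
  · exact Measure.measure_compl_support
  · exact (isCompact_closedBall (0 : E n) (1 + Λ)).of_isClosed_subset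
      Measure.isClosed_support S.supp_sub
  · intro K hK hv T' hT' hKT'
    exact compare hq (fun j => hp (φ j)) hp0' hℓ' (fun j => hΘ (φ j))
      (fun j => H (φ j)) hK hv hT' hKT'

end RieszRatio
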